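import Pool.Agent.Work.MP_d500f7_co.Flip

/-!
# Dyadic boxes and their points (module J8)
-/

namespace Disc3

open Finset

variable {L : ℕ}

lemma av_nonneg (c : Fin 3) (s : ℕ) (ω : Om L) : 0 ≤ av c s ω := by
  unfold av
  refine Finset.sum_nonneg (fun i _ => mul_nonneg ?_ (by positivity))
  have := (abs_le.1 (abs_dg c i ω).le).1
  linarith

lemma av_add_le (c : Fin 3) (s : ℕ) (ω : Om L) : av c s ω + (1 / 2 : ℝ) ^ s ≤ 1 := by
  induction s with
  | zero => simp [av]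
  | succ s ih =>
    have h1 : av c (s + 1) ω = av c s ω + (1 + dg c s ω) * (1 / 2 : ℝ) ^ (s + 2) := by
      unfold av; rw [Finset.sum_range_succ]
    have h2 := (abs_le.1 (abs_dg c s ω).le).2
    have h3 : (0 : ℝ) < (1 / 2 : ℝ) ^ (s + 2) := by positivity
    have h4 : (1 + dg c s ω) * (1 / 2 : ℝ) ^ (s + 2) ≤ 2 * (1 / 2 : ℝ) ^ (s + 2) :=
      mul_le_mul_of_nonneg_right (by linarith) h3.le
    have h5 : (1 / 2 : ℝ) ^ (s + 1) = 2 * (1 / 2 : ℝ) ^ (s + 2) := by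
      rw [pow_succ _ (s + 1)]; ring
    have h6 : (1 / 2 : ℝ) ^ s = 4 * (1 / 2 : ℝ) ^ (s + 2) := by
      rw [pow_succ _ (s + 1), pow_succ _ s]; ring
    rw [h1, h5]
    linarith

lemma av_le_one (c : Fin 3) (s : ℕ) (ω : Om L) : av c s ω ≤ 1 := by
  have h1 := av_add_le c s ω
  have h2 : (0 : ℝ) < (1 / 2 : ℝ) ^ s := by positivity
  linarith

lemma meas_av {v : Fin 3 → ℕ} {c : Fin 3} {s : ℕ} (h : s ≤ v c) :
    Meas v (av (L := L) c s) := by
  unfold av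
  refine Meas.sum _ (fun i hi => ?_)
  have hi' := mem_range.1 hi
  exact (((meas_const v 1).add (meas_dg (lt_of_lt_of_le hi' h))).mul (meas_const v _))

theorem fD_bound {N : ℕ} {u : Fin N → Fin 3 → ℝ} {M : ℝ}
    (hM : ∀ α : Fin 3 → ℝ, (∀ c, 0 ≤ α c ∧ α c ≤ 1) → |Dm u α| ≤ M) (ω : Om L) :
    |fD u ω| ≤ M :=
  hM _ (fun c => ⟨av_nonneg c L ω, av_le_one c L ω⟩)

lemma inBox_congr {v : Fin 3 → ℕ} {ω ω' : Om L} (h : rel v ω ω') (p : Fin 3 → ℝ) :
    inBox v ω p ↔ inBox v ω' p := by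
  unfold inBox
  have : ∀ c, av c (v c) ω = av c (v c) ω' := fun c => meas_av le_rfl ω ω' h
  simp only [this]

theorem em_meas {N : ℕ} (u : Fin N → Fin 3 → ℝ) (s t l : ℕ) :
    Meas ![s, t, l] (em (L := L) u s t l) := by
  intro ω ω' h
  have he : (∃ i, inBox ![s, t, l] ω (u i)) ↔ (∃ i, inBox ![s, t, l] ω' (u i)) :=
    exists_congr (fun i => inBox_congr h _)
  unfold em
  by_cases h1 : ∃ i, inBox ![s, t, l] ω (u i)
  · rw [if_pos h1, if_pos (he.1 h1)]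
  · rw [if_neg h1, if_neg (fun h2 => h1 (he.2 h2))]

/-- indicator of `p < x` -/
noncomputable def chi (p x : ℝ) : ℝ := open Classical in if p < x then 1 else 0

lemma Dm_eq {N : ℕ} (u : Fin N → Fin 3 → ℝ) (x y z : ℝ) :
    Dm u ![x, y, z] = (∑ i, chi (u i 0) x * chi (u i 1) y * chi (u i 2) z) - N * (x * y * z) := by
  unfold Dm
  rw [Finset.card_filter]
  push_cast
  congr 1
  · refine Finset.sum_congr rfl (fun i _ => ?_)
    unfold chi
    simp only [Fin.forall_fin_succ, Matrix.cons_val_zero]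
    by_cases h0 : u i 0 < x <;> by_cases h1 : u i 1 < y <;> by_cases h2 : u i 2 < z <;>
      simp [h0, h1, h2]
  · congr 1
    simp [Fin.prod_univ_succ, mul_assoc]

lemma chi_sub {p a h : ℝ} (hh : 0 < h) :
    chi p (a + h) - chi p a = open Classical in if a ≤ p ∧ p < a + h then 1 else 0 := by
  unfold chi
  by_cases h1 : p < a
  · have h2 : p < a + h := by linarith
    simp [h1, h2, not_le.2 h1]
  · have h1' := not_lt.1 h1
    by_cases h2 : p < a + h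
    · simp [h1, h2, h1']
    · simp [h1, h2]

lemma ind_inBox (v : Fin 3 → ℕ) (ω : Om L) (p : Fin 3 → ℝ) :
    (open Classical in if inBox v ω p then (1 : ℝ) else 0) =
      (chi (p 0) (av 0 (v 0) ω + (1 / 2) ^ (v 0)) - chi (p 0) (av 0 (v 0) ω)) *
      (chi (p 1) (av 1 (v 1) ω + (1 / 2) ^ (v 1)) - chi (p 1) (av 1 (v 1) ω)) *
      (chi (p 2) (av 2 (v 2) ω + (1 / 2) ^ (v 2)) - chi (p 2) (av 2 (v 2) ω)) := by
  rw [chi_sub (by positivity), chi_sub (by positivity), chi_sub (by positivity)]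
  have : inBox v ω p ↔ (av 0 (v 0) ω ≤ p 0 ∧ p 0 < av 0 (v 0) ω + (1 / 2) ^ (v 0)) ∧
      (av 1 (v 1) ω ≤ p 1 ∧ p 1 < av 1 (v 1) ω + (1 / 2) ^ (v 1)) ∧
      (av 2 (v 2) ω ≤ p 2 ∧ p 2 < av 2 (v 2) ω + (1 / 2) ^ (v 2)) := by
    unfold inBox
    simp only [Fin.forall_fin_succ, IsEmpty.forall_iff, and_true]
    rfl
  by_cases h0 : av 0 (v 0) ω ≤ p 0 ∧ p 0 < av 0 (v 0) ω + (1 / 2) ^ (v 0) <;>
  by_cases h1 : av 1 (v 1) ω ≤ p 1 ∧ p 1 < av 1 (v 1) ω + (1 / 2) ^ (v 1) <;>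
  by_cases h2 : av 2 (v 2) ω ≤ p 2 ∧ p 2 < av 2 (v 2) ω + (1 / 2) ^ (v 2) <;>
  simp only [this, h0, h1, h2, and_true, and_false, and_self, if_true, if_false, mul_one,
    mul_zero]

theorem box_count {N : ℕ} {u : Fin N → Fin 3 → ℝ} {M : ℝ}
    (hM : ∀ α : Fin 3 → ℝ, (∀ c, 0 ≤ α c ∧ α c ≤ 1) → |Dm u α| ≤ M)
    (v : Fin 3 → ℕ) (hv : ∀ c, v c ≤ L) (ω : Om L) :
    open Classical in
    ((univ.filter (fun i : Fin N => inBox v ω (u i))).card : ℝ) ≤
      N * ∏ c, (1 / 2 : ℝ) ^ (v c) + 8 * M := by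
  classical
  rw [Finset.card_filter]
  push_cast
  have hsum : (∑ i : Fin N, if inBox v ω (u i) then (1 : ℝ) else 0) = ∑ i : Fin N,
      (chi (u i 0) (av 0 (v 0) ω + (1 / 2) ^ (v 0)) - chi (u i 0) (av 0 (v 0) ω)) *
      (chi (u i 1) (av 1 (v 1) ω + (1 / 2) ^ (v 1)) - chi (u i 1) (av 1 (v 1) ω)) *
      (chi (u i 2) (av 2 (v 2) ω + (1 / 2) ^ (v 2)) - chi (u i 2) (av 2 (v 2) ω)) := by
    refine Finset.sum_congr rfl (fun i _ => ?_)
    rw [← ind_inBox]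
  rw [hsum]
  have b : ∀ c, 0 ≤ av c (v c) ω := fun c => av_nonneg _ _ _
  have b1 : ∀ c, av c (v c) ω ≤ 1 := fun c => av_le_one _ _ _
  have b2 : ∀ c, av c (v c) ω + (1 / 2 : ℝ) ^ (v c) ≤ 1 := fun c => av_add_le _ _ _
  have b3 : ∀ c, 0 ≤ av c (v c) ω + (1 / 2 : ℝ) ^ (v c) := fun c =>
    add_nonneg (b c) (by positivity)
  have hprod : ∏ c, (1 / 2 : ℝ) ^ (v c) = (1 / 2) ^ (v 0) * (1 / 2) ^ (v 1) * (1 / 2) ^ (v 2) := by
    rw [Fin.prod_univ_three]
  rw [hprod]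
  have B0 := b 0
  have B1 := b 1
  have B2 := b 2
  have C0 := b1 0
  have C1 := b1 1
  have C2 := b1 2
  have D0 := b2 0
  have D1 := b2 1
  have D2 := b2 2
  have E0 := b3 0
  have E1 := b3 1
  have E2 := b3 2
  clear b b1 b2 b3
  generalize av 0 (v 0) ω = a0 at *
  generalize av 1 (v 1) ω = a1 at *
  generalize av 2 (v 2) ω = a2 at *
  generalize (1 / 2 : ℝ) ^ (v 0) = h0 at *
  generalize (1 / 2 : ℝ) ^ (v 1) = h1 at *
  generalize (1 / 2 : ℝ) ^ (v 2) = h2 at *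
  have K : ∀ x y z : ℝ, 0 ≤ x → x ≤ 1 → 0 ≤ y → y ≤ 1 → 0 ≤ z → z ≤ 1 →
      |Dm u ![x, y, z]| ≤ M := by
    intro x y z hx hx' hy hy' hz hz'
    refine hM _ (fun c => ?_)
    fin_cases c
    · exact ⟨hx, hx'⟩
    · exact ⟨hy, hy'⟩
    · exact ⟨hz, hz'⟩
  have k1 := (abs_le.1 (K _ _ _ E0 D0 E1 D1 E2 D2)).2
  have k2 := (abs_le.1 (K _ _ _ B0 C0 E1 D1 E2 D2)).1
  have k3 := (abs_le.1 (K _ _ _ E0 D0 B1 C1 E2 D2)).1
  have k4 := (abs_le.1 (K _ _ _ E0 D0 E1 D1 B2 C2)).1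
  have k5 := (abs_le.1 (K _ _ _ B0 C0 B1 C1 E2 D2)).2
  have k6 := (abs_le.1 (K _ _ _ B0 C0 E1 D1 B2 C2)).2
  have k7 := (abs_le.1 (K _ _ _ E0 D0 B1 C1 B2 C2)).2
  have k8 := (abs_le.1 (K _ _ _ B0 C0 B1 C1 B2 C2)).1
  have key : (∑ i : Fin N, (chi (u i 0) (a0 + h0) - chi (u i 0) a0) *
      (chi (u i 1) (a1 + h1) - chi (u i 1) a1) * (chi (u i 2) (a2 + h2) - chi (u i 2) a2))
      - N * (h0 * h1 * h2) =
      Dm u ![a0 + h0, a1 + h1, a2 + h2] - Dm u ![a0, a1 + h1, a2 + h2]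
      - Dm u ![a0 + h0, a1, a2 + h2] - Dm u ![a0 + h0, a1 + h1, a2]
      + Dm u ![a0, a1, a2 + h2] + Dm u ![a0, a1 + h1, a2] + Dm u ![a0 + h0, a1, a2]
      - Dm u ![a0, a1, a2] := by
    simp only [Dm_eq]
    have e : ∀ i : Fin N, (chi (u i 0) (a0 + h0) - chi (u i 0) a0) *
      (chi (u i 1) (a1 + h1) - chi (u i 1) a1) * (chi (u i 2) (a2 + h2) - chi (u i 2) a2) =
      chi (u i 0) (a0 + h0) * chi (u i 1) (a1 + h1) * chi (u i 2) (a2 + h2)
      - chi (u i 0) a0 * chi (u i 1) (a1 + h1) * chi (u i 2) (a2 + h2)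
      - chi (u i 0) (a0 + h0) * chi (u i 1) a1 * chi (u i 2) (a2 + h2)
      - chi (u i 0) (a0 + h0) * chi (u i 1) (a1 + h1) * chi (u i 2) a2
      + chi (u i 0) a0 * chi (u i 1) a1 * chi (u i 2) (a2 + h2)
      + chi (u i 0) a0 * chi (u i 1) (a1 + h1) * chi (u i 2) a2
      + chi (u i 0) (a0 + h0) * chi (u i 1) a1 * chi (u i 2) a2
      - chi (u i 0) a0 * chi (u i 1) a1 * chi (u i 2) a2 := fun i => by ring
    simp only [e, Finset.sum_sub_distrib, Finset.sum_add_distrib]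
    ring
  linarith

/-! ### averaging the `x`-digits -/

/-- indicator that the level `s` dyadic `x`-interval of `ω` contains `p` -/
noncomputable def qx (p : ℝ) (s : ℕ) (ω : Om L) : ℝ :=
  open Classical in if av 0 s ω ≤ p ∧ p < av 0 s ω + (1 / 2 : ℝ) ^ s then 1 else 0

lemma meas_qx (p : ℝ) (s t l : ℕ) : Meas ![s, t, l] (qx (L := L) p s) := by
  intro ω ω' h
  have : av 0 s ω = av 0 s ω' := meas_av (v := ![s, t, l]) (c := 0) le_rfl ω ω' h
  simp only [qx, this]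

lemma CE_dg_zero {v : Fin 3 → ℕ} {c : Fin 3} {i : ℕ} (hi : i < L) (hv : v c ≤ i) (ω : Om L) :
    CE (Pw L) v (dg c i) ω = 0 := by
  refine CE_unique (k := fun _ => 0) Pw_pos (meas_const v 0) (fun h hh => ?_) ω
  have := Ex_dg_mul_eq_zero hi hv hh
  simp only [mul_zero]
  rw [Ex_congr (Pw L) (fun ω => mul_comm (h ω) (dg c i ω)), this]
  simp [Ex]

lemma qx_succ (p : ℝ) (s : ℕ) (ω : Om L) :
    qx p (s + 1) ω = qx p s ω * (1 / 2) + (qx p s ω * (1 / 2) *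
      (open Classical in if p < av 0 s ω + (1 / 2 : ℝ) ^ (s + 1) then -1 else 1)) * dg 0 s ω := by
  have h1 : av 0 (s + 1) ω = av 0 s ω + (1 + dg 0 s ω) * (1 / 2 : ℝ) ^ (s + 2) := by
    unfold av; rw [Finset.sum_range_succ]
  have h5 : (1 / 2 : ℝ) ^ (s + 1) = 2 * (1 / 2 : ℝ) ^ (s + 2) := by
    rw [pow_succ _ (s + 1)]; ring
  have h6 : (1 / 2 : ℝ) ^ s = 4 * (1 / 2 : ℝ) ^ (s + 2) := by
    rw [pow_succ _ (s + 1), pow_succ _ s]; ring
  have h3 : (0 : ℝ) < (1 / 2 : ℝ) ^ (s + 2) := by positivity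
  unfold qx
  rw [h1, h5, h6]
  generalize av 0 s ω = a at *
  generalize (1 / 2 : ℝ) ^ (s + 2) = h at *
  rcases dg_eq_or 0 s ω with hd | hd <;> rw [hd]
  · by_cases c1 : a ≤ p ∧ p < a + 4 * h
    · by_cases c2 : p < a + 2 * h
      · have c3 : ¬ (a + (1 + 1) * h ≤ p ∧ p < a + (1 + 1) * h + 2 * h) := by
          rintro ⟨q1, -⟩; linarith
        rw [if_neg c3, if_pos c1, if_pos c2]; norm_num
      · have c2' := not_lt.1 c2
        have c3 : (a + (1 + 1) * h ≤ p ∧ p < a + (1 + 1) * h + 2 * h) := by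
          constructor
          · linarith
          · linarith [c1.2]
        rw [if_pos c3, if_pos c1, if_neg c2]; norm_num
    · have c3 : ¬ (a + (1 + 1) * h ≤ p ∧ p < a + (1 + 1) * h + 2 * h) := by
        rintro ⟨q1, q2⟩
        exact c1 ⟨by linarith, by linarith⟩
      rw [if_neg c3, if_neg c1]; norm_num
  · by_cases c1 : a ≤ p ∧ p < a + 4 * h
    · by_cases c2 : p < a + 2 * h
      · have c3 : (a + (1 + -1) * h ≤ p ∧ p < a + (1 + -1) * h + 2 * h) := by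
          constructor
          · linarith [c1.1]
          · linarith
        rw [if_pos c3, if_pos c1, if_pos c2]; norm_num
      · have c2' := not_lt.1 c2
        have c3 : ¬ (a + (1 + -1) * h ≤ p ∧ p < a + (1 + -1) * h + 2 * h) := by
          rintro ⟨-, q2⟩; linarith
        rw [if_neg c3, if_pos c1, if_neg c2]; norm_num
    · have c3 : ¬ (a + (1 + -1) * h ≤ p ∧ p < a + (1 + -1) * h + 2 * h) := by
        rintro ⟨q1, q2⟩
        exact c1 ⟨by linarith, by linarith⟩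
      rw [if_neg c3, if_neg c1]; norm_num

lemma CE_qx_succ (p : ℝ) {s : ℕ} (hs : s < L) (ω : Om L) :
    CE (Pw L) ![s, L, L] (qx p (s + 1)) ω = 1 / 2 * qx p s ω := by
  have hm : Meas ![s, L, L] (fun ω : Om L => qx p s ω * (1 / 2) *
      (open Classical in if p < av 0 s ω + (1 / 2 : ℝ) ^ (s + 1) then (-1 : ℝ) else 1)) := by
    refine ((meas_qx p s L L).mul (meas_const _ _)).mul ?_
    have : Meas ![s, L, L] (av (L := L) 0 s) := meas_av (v := ![s, L, L]) (c := 0) le_rfl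
    exact this.comp (fun x => open Classical in if p < x + (1 / 2 : ℝ) ^ (s + 1) then (-1 : ℝ) else 1)
  rw [CE_congr (Pw L) _ (qx_succ p s), CE_add, CE_mul_left Pw_pos hm,
    CE_dg_zero (v := ![s, L, L]) (c := 0) hs le_rfl, mul_zero, add_zero,
    CE_of_meas Pw_pos ((meas_qx p s L L).mul (meas_const _ _))]
  ring

lemma CE_qx (p : ℝ) {s j : ℕ} (hj : j ≤ s) (hs : s ≤ L) (ω : Om L) :
    CE (Pw L) ![s - j, L, L] (qx p s) ω = (1 / 2) ^ j * qx p (s - j) ω := by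
  induction j generalizing ω with
  | zero =>
    rw [Nat.sub_zero, CE_of_meas Pw_pos (meas_qx p s L L), pow_zero, one_mul]
  | succ j ih =>
    obtain ⟨i, hi⟩ : ∃ i, i = s - (j + 1) := ⟨_, rfl⟩
    have hi1 : s - j = i + 1 := by omega
    have ih' := fun ω => ih (by omega) ω
    rw [hi1] at ih'
    rw [← hi]
    have ht : ∀ c, (![i, L, L] : Fin 3 → ℕ) c ≤ (![i + 1, L, L] : Fin 3 → ℕ) c := by
      intro c; fin_cases c <;> simp
    rw [← CE_tower Pw_pos ht, CE_congr (Pw L) _ ih', CE_const_mul, CE_qx_succ p (by omega)]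
    ring

theorem em_avg {N : ℕ} {u : Fin N → Fin 3 → ℝ} (hu : ∀ i c, 0 ≤ u i c ∧ u i c < 1)
    {s t l j : ℕ} (hj : j ≤ s) (hs : s ≤ L) (ω : Om L) :
    open Classical in
    CE (Pw L) ![s - j, L, L] (fun ω => 1 - em u s t l ω) ω ≤
      (1 / 2 : ℝ) ^ j * ((univ.filter (fun i : Fin N => inBox ![s - j, t, l] ω (u i))).card : ℝ) := by
  classical
  rw [Finset.card_filter]
  push_cast
  -- indicator of the `z` and `y` conditions
  set r : Fin N → Om L → ℝ := fun i ω => if (av 1 t ω ≤ u i 1 ∧ u i 1 < av 1 t ω + (1 / 2) ^ t) ∧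
      (av 2 l ω ≤ u i 2 ∧ u i 2 < av 2 l ω + (1 / 2) ^ l) then 1 else 0 with hr
  have hrm : ∀ (k : ℕ) (i : Fin N), Meas ![k, L, L] (r i) := by
    intro k i ω ω' h
    have h1 : ∀ (c : Fin 3), c ≠ 0 → ∀ m, av c m ω = av c m ω' := by
      intro c hc m
      unfold av
      refine Finset.sum_congr rfl (fun q _ => ?_)
      have : dg c q ω = dg c q ω' := by
        by_cases hq : q < L
        · refine meas_dg (v := ![k, L, L]) ?_ ω ω' h
          fin_cases c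
          · exact absurd rfl hc
          · exact hq
          · exact hq
        · unfold dg; rw [dif_neg hq, dif_neg hq]
      rw [this]
    simp only [hr, h1 1 (by decide) t, h1 2 (by decide) l]
  have hbox : ∀ (k : ℕ) (i : Fin N) (ω : Om L),
      (if inBox ![k, t, l] ω (u i) then (1 : ℝ) else 0) = r i ω * qx (u i 0) k ω := by
    intro k i ω
    have : inBox ![k, t, l] ω (u i) ↔ (av 0 k ω ≤ u i 0 ∧ u i 0 < av 0 k ω + (1 / 2) ^ k) ∧
        (av 1 t ω ≤ u i 1 ∧ u i 1 < av 1 t ω + (1 / 2) ^ t) ∧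
        (av 2 l ω ≤ u i 2 ∧ u i 2 < av 2 l ω + (1 / 2) ^ l) := by
      unfold inBox
      simp only [Fin.forall_fin_succ, IsEmpty.forall_iff, and_true]
      rfl
    simp only [hr, qx]
    by_cases h0 : av 0 k ω ≤ u i 0 ∧ u i 0 < av 0 k ω + (1 / 2) ^ k <;>
    by_cases h1 : (av 1 t ω ≤ u i 1 ∧ u i 1 < av 1 t ω + (1 / 2) ^ t) ∧
        (av 2 l ω ≤ u i 2 ∧ u i 2 < av 2 l ω + (1 / 2) ^ l) <;>
    simp only [this, h0, h1, and_true, and_false, and_self, if_true, if_false, mul_one,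
      mul_zero]
  have hpt : ∀ ω : Om L, 1 - em u s t l ω ≤ ∑ i : Fin N, r i ω * qx (u i 0) s ω := by
    intro ω
    have h0 : ∀ i ∈ (univ : Finset (Fin N)), 0 ≤ r i ω * qx (u i 0) s ω := by
      intro i _
      rw [← hbox s i ω]
      split_ifs <;> norm_num
    unfold em
    split_ifs with h
    · obtain ⟨i, hi⟩ := h
      have h1 := Finset.single_le_sum h0 (mem_univ i)
      rw [← hbox s i ω, if_pos hi] at h1
      linarith
    · have := Finset.sum_nonneg h0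
      linarith
  refine (CE_mono Pw_pos _ hpt ω).trans (le_of_eq ?_)
  rw [CE_sum, Finset.mul_sum]
  refine Finset.sum_congr rfl (fun i _ => ?_)
  rw [CE_mul_left Pw_pos (hrm (s - j) i), CE_qx _ hj hs, hbox (s - j) i ω]
  ring

end Disc3
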