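import Pool.Agent.Work.MP_d500f7_co.Flip

/-!
# The lower bound for the test functions (module J6)
-/

namespace Disc3

open Finset

variable {L : ℕ}

/-- tails of the series defining `uu` -/
lemma uu_tail_le (c : Fin 3) (s k : ℕ) (ω : Om L) :
    |∑ i ∈ Ico (s + k) L, dg c i ω * (1 / 2 : ℝ) ^ (i - s + 2)| ≤ (1 / 2 : ℝ) ^ (k + 1) := by
  have h1 : |∑ i ∈ Ico (s + k) L, dg c i ω * (1 / 2 : ℝ) ^ (i - s + 2)| ≤
      ∑ i ∈ Ico (s + k) L, (1 / 2 : ℝ) ^ (i - s + 2) := by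
    refine (Finset.abs_sum_le_sum_abs _ _).trans (le_of_eq ?_)
    refine Finset.sum_congr rfl (fun i _ => ?_)
    rw [abs_mul, abs_dg, one_mul, abs_of_nonneg (by positivity)]
  refine h1.trans ?_
  rw [Finset.sum_Ico_eq_sum_range]
  have h2 : ∀ x, (1 / 2 : ℝ) ^ (s + k + x - s + 2) = (1 / 2 : ℝ) ^ (k + 2) * (1 / 2 : ℝ) ^ x := by
    intro x
    rw [← pow_add]
    congr 1
    omega
  simp only [h2]
  rw [← Finset.mul_sum]
  have h3 := sum_geometric_two_le (L - (s + k))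
  calc (1 / 2 : ℝ) ^ (k + 2) * ∑ i ∈ range (L - (s + k)), (1 / 2 : ℝ) ^ i
      ≤ (1 / 2 : ℝ) ^ (k + 2) * 2 := mul_le_mul_of_nonneg_left h3 (by positivity)
    _ = (1 / 2 : ℝ) ^ (k + 1) := by rw [pow_succ _ (k + 1)]; ring

theorem uu_abs_le (c : Fin 3) (s : ℕ) (ω : Om L) : |uu c s ω| ≤ 1 / 2 := by
  have := uu_tail_le c s 0 ω
  simpa [uu] using this

theorem uu_lower {c : Fin 3} {s : ℕ} (hs : s + 1 < L) (ω : Om L) :
    (1 + dg c s ω * dg c (s + 1) ω) / 8 ≤ dg c s ω * uu c s ω := by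
  have h1 : uu c s ω = dg c s ω * (1 / 2 : ℝ) ^ 2 + (dg c (s + 1) ω * (1 / 2 : ℝ) ^ 3 +
      ∑ i ∈ Ico (s + 2) L, dg c i ω * (1 / 2 : ℝ) ^ (i - s + 2)) := by
    unfold uu
    rw [Finset.sum_eq_sum_Ico_succ_bot (by omega), Finset.sum_eq_sum_Ico_succ_bot (by omega)]
    have e1 : s - s + 2 = 2 := by omega
    have e2 : s + 1 - s + 2 = 3 := by omega
    rw [e1, e2]
  have h2 := uu_tail_le c s 2 ω
  set T := ∑ i ∈ Ico (s + 2) L, dg c i ω * (1 / 2 : ℝ) ^ (i - s + 2) with hT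
  rw [h1]
  have h3 := dg_mul_self c s ω
  have h4 : |dg c s ω * T| ≤ 1 / 8 := by
    rw [abs_mul, abs_dg, one_mul]
    refine h2.trans (by norm_num)
  have h5 := (abs_le.1 h4).1
  nlinarith

lemma abs_bx_le {w : Om L → ℝ} (hw : IsPr w) (s : ℕ) (ω : Om L) : |bx w s ω| ≤ 1 :=
  abs_CE_le hw.pos _ (fun ω => (abs_dg 0 s ω).le) ω

lemma abs_bz_le {w : Om L → ℝ} (hw : IsPr w) (t : ℕ) (ω : Om L) : |bz w t ω| ≤ 1 :=
  abs_CE_le hw.pos _ (fun ω => (abs_dg 1 t ω).le) ω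

lemma neg_Ex_abs_le {w : Om L → ℝ} (hw : IsPr w) {k b : Om L → ℝ} (hk : ∀ ω, |k ω| ≤ 1) :
    - Ex w (fun ω => |b ω|) ≤ Ex w (fun ω => k ω * b ω) := by
  rw [← Ex_neg]
  refine Ex_mono hw.nonneg (fun ω => ?_)
  have h1 : |k ω * b ω| ≤ |b ω| := by
    rw [abs_mul]
    calc |k ω| * |b ω| ≤ 1 * |b ω| := mul_le_mul_of_nonneg_right (hk ω) (abs_nonneg _)
      _ = |b ω| := one_mul _
  exact (abs_le.1 h1).1.trans' (by linarith [h1])

/-- `E[k x_s] = E[k b_s]` -/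
lemma Ex_mul_dg0 {w : Om L → ℝ} (hw : IsPr w) {s : ℕ} {k : Om L → ℝ}
    (hk : Meas ![s, L, L] k) :
    Ex w (fun ω => k ω * dg 0 s ω) = Ex w (fun ω => k ω * bx w s ω) :=
  (Ex_mul_CE hw.pos hk (dg 0 s)).symm

/-- `E[k z_t] = E[k g_t]` -/
lemma Ex_mul_dg1 {w : Om L → ℝ} (hw : IsPr w) {t : ℕ} {k : Om L → ℝ}
    (hk : Meas ![L, t, L] k) :
    Ex w (fun ω => k ω * dg 1 t ω) = Ex w (fun ω => k ω * bz w t ω) :=
  (Ex_mul_CE hw.pos hk (dg 1 t)).symm

lemma low_point {e x x' z z' b g U V c : ℝ} (he0 : 0 ≤ e) (he1 : e ≤ 1)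
    (hx : |x| = 1) (hz : |z| = 1) (hx' : |x'| = 1) (hz' : |z'| = 1)
    (hg : |g| ≤ 1) (hU : |U| ≤ 1 / 2) (hV : |V| ≤ 1 / 2)
    (hxU : (1 + x * x') / 8 ≤ x * U) (hzV : (1 + z * z') / 8 ≤ z * V) :
    1 / 64 * (e + e * x * x' + e * z * z' + e * x * x' * z * z')
      - 1 / 4 * (2 * |b| + |g|) - 1 / 4 * |c| ≤ e * U * V * ((x - b) * (z - g) + c) := by
  have hxx : |x * x'| = 1 := by rw [abs_mul, hx, hx']; norm_num
  have hzz : |z * z'| = 1 := by rw [abs_mul, hz, hz']; norm_num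
  have h1 : 0 ≤ (1 + x * x') / 8 := by have := (abs_le.1 hxx.le).1; linarith
  have h2 : 0 ≤ (1 + z * z') / 8 := by have := (abs_le.1 hzz.le).1; linarith
  have h3 : (1 + x * x') / 8 * ((1 + z * z') / 8) ≤ x * U * (z * V) :=
    mul_le_mul hxU hzV h2 (h1.trans hxU)
  have h4 := mul_le_mul_of_nonneg_left h3 he0
  have hUV : |e * U * V| ≤ 1 / 4 := by
    rw [abs_mul, abs_mul, abs_of_nonneg he0]
    have : e * |U| * |V| ≤ 1 * (1 / 2) * (1 / 2) := by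
      gcongr
    linarith
  have h5 : |b * (z - g) + g * x| ≤ 2 * |b| + |g| := by
    refine (abs_add_le _ _).trans ?_
    rw [abs_mul, abs_mul, hx]
    have : |z - g| ≤ 2 := by
      refine (abs_sub z g).trans ?_
      rw [hz]; linarith
    have h6 : |b| * |z - g| ≤ |b| * 2 := mul_le_mul_of_nonneg_left this (abs_nonneg _)
    linarith
  have h7 : |e * U * V * (b * (z - g) + g * x)| ≤ 1 / 4 * (2 * |b| + |g|) := by
    rw [abs_mul]
    exact mul_le_mul hUV h5 (abs_nonneg _) (by norm_num)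
  have h8 : |e * U * V * c| ≤ 1 / 4 * |c| := by
    rw [abs_mul]
    exact mul_le_mul_of_nonneg_right hUV (abs_nonneg _)
  have h9 := (abs_le.1 h7).2
  have h10 := (abs_le.1 h8).1
  have h11 : e * U * V * ((x - b) * (z - g) + c) =
      e * (x * U * (z * V)) - e * U * V * (b * (z - g) + g * x) + e * U * V * c := by ring
  rw [h11]
  have h12 : e * ((1 + x * x') / 8 * ((1 + z * z') / 8)) =
      1 / 64 * (e + e * x * x' + e * z * z' + e * x * x' * z * z') := by ring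
  linarith

theorem main_lower {w : Om L → ℝ} (hw : IsPr w) {s t : ℕ} (hs : s + 1 < L) (ht : t + 1 < L)
    {e : Om L → ℝ} (he0 : ∀ ω, 0 ≤ e ω) (he1 : ∀ ω, e ω ≤ 1) (hem : Meas ![s, t, L] e) :
    1 / 64 * (Ex w e - Ex w (fun ω => |bx w (s + 1) ω|) - 2 * Ex w (fun ω => |bz w (t + 1) ω|))
      - 1 / 4 * (2 * Ex w (fun ω => |bx w s ω|) + Ex w (fun ω => |bz w t ω|))
      - 1 / 4 * Ex w (fun ω => |cc w s t ω|) ≤
    Ex w (fun ω => e ω * uu 0 s ω * uu 1 t ω * phi w s t ω) := by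
  have hea : ∀ ω, |e ω| ≤ 1 := fun ω => by rw [abs_of_nonneg (he0 ω)]; exact he1 ω
  have hd : ∀ (c : Fin 3) (i : ℕ) (ω : Om L) (r : ℝ), |r| ≤ 1 → |r * dg c i ω| ≤ 1 := by
    intro c i ω r hr
    rw [abs_mul, abs_dg, mul_one]; exact hr
  -- the three correlations
  have m1 : Meas ![s + 1, L, L] (fun ω : Om L => e ω * dg 0 s ω) := by
    refine (hem.mono ?_).mul (meas_dg (by simp))
    intro c; fin_cases c <;> (simp; try omega)
  have m2 : Meas ![L, t + 1, L] (fun ω : Om L => e ω * dg 1 t ω) := by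
    refine (hem.mono ?_).mul (meas_dg (by simp))
    intro c; fin_cases c <;> (simp; try omega)
  have m3 : Meas ![L, t + 1, L] (fun ω : Om L => e ω * dg 0 s ω * dg 0 (s + 1) ω * dg 1 t ω) := by
    refine (((hem.mono ?_).mul (meas_dg (by simp; omega))).mul (meas_dg (by simp; omega))).mul
      (meas_dg (by simp))
    intro c; fin_cases c <;> (simp; try omega)
  have c1 : - Ex w (fun ω => |bx w (s + 1) ω|) ≤
      Ex w (fun ω => e ω * dg 0 s ω * dg 0 (s + 1) ω) := by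
    rw [Ex_mul_dg0 hw m1]
    exact neg_Ex_abs_le hw (fun ω => hd 0 s ω _ (hea ω))
  have c2 : - Ex w (fun ω => |bz w (t + 1) ω|) ≤
      Ex w (fun ω => e ω * dg 1 t ω * dg 1 (t + 1) ω) := by
    rw [Ex_mul_dg1 hw m2]
    exact neg_Ex_abs_le hw (fun ω => hd 1 t ω _ (hea ω))
  have c3 : - Ex w (fun ω => |bz w (t + 1) ω|) ≤
      Ex w (fun ω => e ω * dg 0 s ω * dg 0 (s + 1) ω * dg 1 t ω * dg 1 (t + 1) ω) := by
    rw [Ex_mul_dg1 hw m3]
    exact neg_Ex_abs_le hw (fun ω => hd 1 t ω _ (hd 0 (s + 1) ω _ (hd 0 s ω _ (hea ω))))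
  -- the pointwise bound, integrated
  have hpt : Ex w (fun ω => 1 / 64 * (e ω + e ω * dg 0 s ω * dg 0 (s + 1) ω
      + e ω * dg 1 t ω * dg 1 (t + 1) ω
      + e ω * dg 0 s ω * dg 0 (s + 1) ω * dg 1 t ω * dg 1 (t + 1) ω)
      - 1 / 4 * (2 * |bx w s ω| + |bz w t ω|) - 1 / 4 * |cc w s t ω|) ≤
      Ex w (fun ω => e ω * uu 0 s ω * uu 1 t ω * phi w s t ω) := by
    refine Ex_mono hw.nonneg (fun ω => ?_)
    exact low_point (he0 ω) (he1 ω) (abs_dg _ _ _) (abs_dg _ _ _) (abs_dg _ _ _) (abs_dg _ _ _)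
      (abs_bz_le hw t ω) (uu_abs_le _ _ _) (uu_abs_le _ _ _) (uu_lower hs ω) (uu_lower ht ω)
  refine le_trans ?_ hpt
  simp only [Ex_sub, Ex_const_mul, Ex_add]
  linarith

theorem telescoping {w : Om L → ℝ} (hw : IsPr w) {s j : ℕ} (hj : j ≤ s) (hs : s ≤ L)
    {h : Om L → ℝ} (h0 : ∀ ω, 0 ≤ h ω) (h1 : ∀ ω, h ω ≤ 1) (hm : Meas ![s, L, L] h) :
    Ex w h ≤ Ex w (CE (Pw L) ![s - j, L, L] h)
      + ∑ i ∈ Ico (s - j) s, Ex w (fun ω => |bx w i ω|) := by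
  induction j with
  | zero =>
    simp only [Nat.sub_zero, Finset.Ico_self, Finset.sum_empty, add_zero]
    refine le_of_eq (Ex_congr w (fun ω => ?_))
    exact (CE_of_meas Pw_pos hm ω).symm
  | succ j ih =>
    have ih' := ih (by omega)
    obtain ⟨i, hi⟩ : ∃ i, i = s - (j + 1) := ⟨_, rfl⟩
    have hi1 : s - j = i + 1 := by omega
    rw [← hi]
    rw [hi1] at ih'
    have hiL : i < L := by omega
    have step : Ex w (CE (Pw L) ![i + 1, L, L] h) ≤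
        Ex w (CE (Pw L) ![i, L, L] h) + Ex w (fun ω => |bx w i ω|) := by
      have e1 : Ex w (CE (Pw L) ![i + 1, L, L] h) = Ex w (CE (Pw L) ![i, L, L] h)
          + Ex w (fun ω => CE (Pw L) ![i, L, L] (fun ω => dg 0 i ω * h ω) ω * dg 0 i ω) := by
        rw [← Ex_add]
        refine Ex_congr w (fun ω => ?_)
        rw [haar_step_x hiL]
        ring
      rw [e1, Ex_mul_dg0 hw (meas_CE _ _ _)]
      have hb : ∀ ω, |CE (Pw L) ![i, L, L] (fun ω => dg 0 i ω * h ω) ω| ≤ 1 := by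
        refine fun ω => abs_CE_le Pw_pos _ (fun ω => ?_) ω
        rw [abs_mul, abs_dg, one_mul, abs_of_nonneg (h0 ω)]
        exact h1 ω
      have : Ex w (fun ω => CE (Pw L) ![i, L, L] (fun ω => dg 0 i ω * h ω) ω * bx w i ω) ≤
          Ex w (fun ω => |bx w i ω|) := by
        refine Ex_mono hw.nonneg (fun ω => ?_)
        refine (le_abs_self _).trans ?_
        rw [abs_mul]
        calc _ ≤ 1 * |bx w i ω| := mul_le_mul_of_nonneg_right (hb ω) (abs_nonneg _)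
          _ = |bx w i ω| := one_mul _
      linarith
    have hsplit : ∑ k ∈ Ico i s, Ex w (fun ω => |bx w k ω|) =
        Ex w (fun ω => |bx w i ω|) + ∑ k ∈ Ico (i + 1) s, Ex w (fun ω => |bx w k ω|) :=
      Finset.sum_eq_sum_Ico_succ_bot (by omega) _
    rw [hsplit]
    linarith

end Disc3
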