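import Pool.Agent.Work.MP_d500f7_co.Tilt

namespace Disc3

open Finset

variable {L : ℕ}

lemma sq_le_mul_sinh (u : ℝ) : u ^ 2 ≤ u * Real.sinh u := by
  rcases le_total 0 u with h | h
  · nlinarith [Real.self_le_sinh_iff.2 h]
  · nlinarith [Real.sinh_le_self_iff.2 h]

lemma one_sub_tanh_sq (u : ℝ) : 1 - Real.tanh u ^ 2 = 1 / Real.cosh u ^ 2 := by
  have hc := Real.cosh_pos u
  have h1 := Real.cosh_sq_sub_sinh_sq u
  rw [Real.tanh_eq_sinh_div_cosh]
  field_simp
  linarith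

lemma sq_mul_one_sub_tanh_le (u : ℝ) : u ^ 2 * (1 - Real.tanh u ^ 2) ≤ u * Real.tanh u := by
  have hc := Real.cosh_pos u
  have h1 := Real.one_le_cosh u
  have h2 := sq_le_mul_sinh u
  rw [one_sub_tanh_sq, Real.tanh_eq_sinh_div_cosh]
  have e : u * (Real.sinh u / Real.cosh u) = (u * Real.sinh u * Real.cosh u) / Real.cosh u ^ 2 := by
    field_simp
  rw [e, mul_one_div]
  apply div_le_div_of_nonneg_right _ (by positivity)
  have : 0 ≤ u * Real.sinh u := (sq_nonneg u).trans h2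
  nlinarith

lemma one_sub_Tt_sq_mul_le {lam : ℝ} (hlam : 0 < lam) (G : ℝ) :
    (1 - Real.tanh (lam * G) ^ 2) * G ^ 2 ≤ Real.tanh (lam * G) * G / lam := by
  have h := sq_mul_one_sub_tanh_le (lam * G)
  rw [le_div_iff₀ hlam]
  have : lam * ((1 - Real.tanh (lam * G) ^ 2) * G ^ 2 * lam) ≤
      lam * (Real.tanh (lam * G) * G) := by nlinarith
  exact le_of_mul_le_mul_left this hlam

lemma noise_sq (lam : ℝ) (f : Om L → ℝ) (k : ℕ) (hk : k ≤ L) :
    Ex (Psi lam f) (fun ω => (∑ l ∈ range k, (dg 2 l ω - Tt lam f l ω) * Gd f L L l ω) ^ 2) =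
      ∑ l ∈ range k, Ex (Psi lam f) (fun ω => (1 - Tt lam f l ω ^ 2) * Gd f L L l ω ^ 2) := by
  induction k with
  | zero => simp [Ex]
  | succ k ih =>
    have hkL : k < L := by omega
    set N : Om L → ℝ := fun ω => ∑ l ∈ range k, (dg 2 l ω - Tt lam f l ω) * Gd f L L l ω with hN
    have hmN : Meas ![L, L, k] N := by
      refine Meas.sum (range k) (fun l hl => ?_)
      have hl' := mem_range.1 hl
      exact ((meas_dg (v := ![L, L, k]) (c := 2) hl').sub
        ((meas_Tt lam f l).mono (mono3 le_rfl le_rfl hl'.le))).mul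
        ((meas_Gd f L L l).mono (mono3 le_rfl le_rfl hl'.le))
    have c1 := tilt_orth lam f hkL (hmN.mul (meas_Gd f L L k))
    have c2 := tilt_orth lam f hkL ((meas_Tt lam f k).mul ((meas_Gd f L L k).pow 2))
    rw [Finset.sum_range_succ, ← ih (by omega)]
    have e : Ex (Psi lam f) (fun ω =>
        (∑ l ∈ range (k + 1), (dg 2 l ω - Tt lam f l ω) * Gd f L L l ω) ^ 2) =
        Ex (Psi lam f) (fun ω => N ω ^ 2)
        + 2 * (Ex (Psi lam f) (fun ω => dg 2 k ω * (N ω * Gd f L L k ω))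
          - Ex (Psi lam f) (fun ω => Tt lam f k ω * (N ω * Gd f L L k ω)))
        + Ex (Psi lam f) (fun ω => (1 - Tt lam f k ω ^ 2) * Gd f L L k ω ^ 2)
        - 2 * (Ex (Psi lam f) (fun ω => dg 2 k ω * (Tt lam f k ω * Gd f L L k ω ^ 2))
          - Ex (Psi lam f) (fun ω => Tt lam f k ω * (Tt lam f k ω * Gd f L L k ω ^ 2))) := by
      rw [← Ex_sub, ← Ex_const_mul, ← Ex_add, ← Ex_add, ← Ex_sub, ← Ex_const_mul, ← Ex_sub]
      refine Ex_congr _ (fun ω => ?_)
      rw [Finset.sum_range_succ]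
      have := dg_mul_self 2 k ω
      simp only [hN]
      linear_combination (Gd f L L k ω ^ 2) * this
    rw [e, c1, c2]; ring

theorem tilt2 {f : Om L → ℝ} {M lam : ℝ} (hf : ∀ ω, |f ω| ≤ M) (hlam : 0 < lam) :
    Ex (Psi lam f) (fun ω => (∑ l ∈ range L, Tt lam f l ω * Gd f L L l ω) ^ 2) ≤
      8 * M ^ 2 + 4 * M / lam := by
  have hpr := Psi_isPr lam f
  have h1 : ∀ ω, (∑ l ∈ range L, Tt lam f l ω * Gd f L L l ω) ^ 2 ≤
      8 * M ^ 2 + 2 * (∑ l ∈ range L, (dg 2 l ω - Tt lam f l ω) * Gd f L L l ω) ^ 2 := by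
    intro ω
    have h2 : ∑ l ∈ range L, Tt lam f l ω * Gd f L L l ω =
        ∑ l ∈ range L, dg 2 l ω * Gd f L L l ω -
        ∑ l ∈ range L, (dg 2 l ω - Tt lam f l ω) * Gd f L L l ω := by
      rw [← Finset.sum_sub_distrib]
      exact Finset.sum_congr rfl (fun l _ => by ring)
    have h3 := abs_sum_dg_Gd_le hf ω
    have h4 : (∑ l ∈ range L, dg 2 l ω * Gd f L L l ω) ^ 2 ≤ (2 * M) ^ 2 := by
      rw [← sq_abs]
      exact pow_le_pow_left₀ (abs_nonneg _) h3 2
    rw [h2]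
    nlinarith [sq_nonneg (∑ l ∈ range L, dg 2 l ω * Gd f L L l ω +
        ∑ l ∈ range L, (dg 2 l ω - Tt lam f l ω) * Gd f L L l ω)]
  refine (Ex_mono hpr.nonneg h1).trans ?_
  rw [Ex_add, Ex_const hpr.one, Ex_const_mul, noise_sq lam f L le_rfl]
  have h5 : ∑ l ∈ range L, Ex (Psi lam f) (fun ω => (1 - Tt lam f l ω ^ 2) * Gd f L L l ω ^ 2) ≤
      2 * M / lam := by
    calc _ ≤ ∑ l ∈ range L, Ex (Psi lam f) (fun ω => Tt lam f l ω * Gd f L L l ω * lam⁻¹) :=
          Finset.sum_le_sum (fun l _ => Ex_mono hpr.nonneg (fun ω => by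
            have := one_sub_Tt_sq_mul_le hlam (Gd f L L l ω)
            rwa [div_eq_mul_inv] at this))
      _ = Ex (Psi lam f) (fun ω => ∑ l ∈ range L, Tt lam f l ω * Gd f L L l ω) * lam⁻¹ := by
          rw [Ex_sum, Finset.sum_mul]
          exact Finset.sum_congr rfl (fun l _ => Ex_mul_const _ _ _)
      _ ≤ 2 * M * lam⁻¹ := mul_le_mul_of_nonneg_right (tilt1 hf) (by positivity)
      _ = 2 * M / lam := (div_eq_mul_inv _ _).symm
  have : 4 * M / lam = 2 * (2 * M / lam) := by ring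
  rw [this]; linarith

/-! ### the Young type inequality -/

lemma tanh_small {u : ℝ} (h0 : 0 ≤ u) (h1 : u ≤ 1) : u / 2 ≤ Real.tanh u := by
  have hc := Real.cosh_pos u
  have h2 : Real.cosh u ≤ 2 := by
    have h3 : Real.cosh u ≤ Real.cosh 1 := by
      rw [Real.cosh_le_cosh, abs_of_nonneg h0, abs_one]; exact h1
    have h4 : Real.cosh 1 ≤ 2 := by
      rw [Real.cosh_eq]
      have e1 := Real.exp_one_lt_d9
      have e2 : Real.exp (-1) ≤ 1 := Real.exp_le_one_iff.2 (by norm_num)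
      linarith
    linarith
  have h5 := Real.self_le_sinh_iff.2 h0
  rw [Real.tanh_eq_sinh_div_cosh, le_div_iff₀ hc]
  nlinarith

lemma tanh_large {u : ℝ} (h1 : 1 ≤ u) : 1 / 2 ≤ Real.tanh u := by
  have hc := Real.cosh_pos u
  rw [Real.tanh_eq_sinh_div_cosh, le_div_iff₀ hc, Real.sinh_eq, Real.cosh_eq]
  have e1 : 2 ≤ Real.exp u := by
    have := Real.add_one_le_exp u; linarith
  have e2 : Real.exp (-u) * Real.exp u = 1 := by
    rw [← Real.exp_add]; simp
  have e3 : Real.exp (-u) ≤ 1 / 2 := by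
    have : 0 < Real.exp (-u) := Real.exp_pos _
    nlinarith
  linarith

theorem young {lam th : ℝ} (hlam : 0 < lam) (hth : 0 < th) (G V : ℝ) :
    |G| * |V| ≤ th * (Real.tanh (lam * G) * G) + V ^ 2 / (2 * th * lam)
      + 2 * |V| * (Real.tanh (lam * G) * G) := by
  have hred : Real.tanh (lam * G) * G = Real.tanh (lam * |G|) * |G| := by
    rcases le_total 0 G with h | h
    · rw [abs_of_nonneg h]
    · rw [abs_of_nonpos h, mul_neg lam G, Real.tanh_neg]; ring
  rw [hred]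
  have hg : 0 ≤ |G| := abs_nonneg G
  have hv : 0 ≤ |V| := abs_nonneg V
  have hV2 : V ^ 2 = |V| ^ 2 := (sq_abs V).symm
  rw [hV2]
  generalize |G| = g at *
  generalize |V| = v at *
  have hTg : 0 ≤ Real.tanh (lam * g) * g := tanh_mul_nonneg hlam.le g
  rcases le_total (lam * g) 1 with h | h
  · have h2 := tanh_small (mul_nonneg hlam.le hg) h
    have h3 : lam * g ^ 2 / 2 ≤ Real.tanh (lam * g) * g := by nlinarith
    have h4 : g * v ≤ th * (lam * g ^ 2 / 2) + v ^ 2 / (2 * th * lam) := by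
      have h5 : 0 < 2 * th * lam := by positivity
      have e : th * (lam * g ^ 2 / 2) + v ^ 2 / (2 * th * lam) - g * v =
          (th * lam * g - v) ^ 2 / (2 * th * lam) := by
        field_simp
        ring
      have : 0 ≤ (th * lam * g - v) ^ 2 / (2 * th * lam) := by positivity
      linarith
    have h6 : th * (lam * g ^ 2 / 2) ≤ th * (Real.tanh (lam * g) * g) :=
      mul_le_mul_of_nonneg_left h3 hth.le
    have h7 : 0 ≤ 2 * v * (Real.tanh (lam * g) * g) := by positivity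
    linarith
  · have h2 := tanh_large h
    have h3 : g / 2 ≤ Real.tanh (lam * g) * g := by nlinarith
    have h4 : g * v ≤ 2 * v * (Real.tanh (lam * g) * g) := by nlinarith
    have h5 : 0 ≤ th * (Real.tanh (lam * g) * g) := mul_nonneg hth.le hTg
    have h6 : 0 ≤ v ^ 2 / (2 * th * lam) := by positivity
    linarith

end Disc3
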