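import Pool.Agent.Work.MP_d500f7_co.Flip

/-! J9: the four-term identity on an empty box. -/

namespace Disc3

open Finset

variable {L : ℕ}

namespace OneD

/-- sign of digit `i` of a digit string -/
def d1 (i : ℕ) (x : Fin L → Bool) : ℝ :=
  if h : i < L then (if x ⟨i, h⟩ then 1 else -1) else 1

/-- value of the first `k` digits -/
noncomputable def a1 (k : ℕ) (x : Fin L → Bool) : ℝ :=
  ∑ i ∈ range k, (1 + d1 i x) * (1 / 2 : ℝ) ^ (i + 2)

/-- strings agreeing with `x` in the first `k` digits -/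
def S1 (k : ℕ) (x : Fin L → Bool) : Finset (Fin L → Bool) :=
  univ.filter (fun y => ∀ i : Fin L, (i : ℕ) < k → x i = y i)

/-- average over `S1` -/
noncomputable def Av (k : ℕ) (F : (Fin L → Bool) → ℝ) (x : Fin L → Bool) : ℝ :=
  (∑ y ∈ S1 k x, F y) / (∑ _y ∈ S1 k x, (1 : ℝ))

lemma mem_S1 {k : ℕ} {x y : Fin L → Bool} :
    y ∈ S1 k x ↔ ∀ i : Fin L, (i : ℕ) < k → x i = y i := by simp [S1]

lemma self_mem (k : ℕ) (x : Fin L → Bool) : x ∈ S1 k x := mem_S1.2 (fun _ _ => rfl)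

lemma den_pos (k : ℕ) (x : Fin L → Bool) : 0 < ∑ _y ∈ S1 k x, (1 : ℝ) :=
  Finset.sum_pos (fun _ _ => one_pos) ⟨x, self_mem k x⟩

lemma S1_full (x : Fin L → Bool) : S1 L x = {x} := by
  ext y
  rw [mem_S1, mem_singleton]
  constructor
  · intro h
    funext i
    exact (h i i.2).symm
  · rintro rfl i _
    rfl

lemma Av_full (F : (Fin L → Bool) → ℝ) (x : Fin L → Bool) : Av L F x = F x := by
  unfold Av
  rw [S1_full]
  simp

lemma Av_const {k : ℕ} {F : (Fin L → Bool) → ℝ} {x : Fin L → Bool} {a : ℝ}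
    (h : ∀ y ∈ S1 k x, F y = a) : Av k F x = a := by
  unfold Av
  rw [Finset.sum_congr rfl h, Finset.sum_const, Finset.sum_const]
  have : ((S1 k x).card : ℝ) ≠ 0 := by
    have := den_pos k x
    rw [Finset.sum_const, nsmul_eq_mul, mul_one] at this
    exact this.ne'
  rw [nsmul_eq_mul, nsmul_eq_mul, mul_one]
  field_simp

lemma Av_add (k : ℕ) (F G : (Fin L → Bool) → ℝ) (x : Fin L → Bool) :
    Av k (fun y => F y + G y) x = Av k F x + Av k G x := by
  unfold Av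
  rw [Finset.sum_add_distrib, add_div]

lemma Av_mul_const (k : ℕ) (F : (Fin L → Bool) → ℝ) (a : ℝ) (x : Fin L → Bool) :
    Av k (fun y => F y * a) x = Av k F x * a := by
  unfold Av
  rw [← Finset.sum_mul]
  ring

lemma Av_sum {ι : Type} (k : ℕ) (s : Finset ι) (F : ι → (Fin L → Bool) → ℝ) (x : Fin L → Bool) :
    Av k (fun y => ∑ i ∈ s, F i y) x = ∑ i ∈ s, Av k (F i) x := by
  unfold Av
  rw [Finset.sum_comm, Finset.sum_div]

/-- flip one digit -/
def fl (l : Fin L) (y : Fin L → Bool) : Fin L → Bool := Function.update y l (!y l)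

lemma fl_same (l : Fin L) (y : Fin L → Bool) : fl l y l = !y l := by simp [fl]

lemma fl_other {l i : Fin L} (h : i ≠ l) (y : Fin L → Bool) : fl l y i = y i := by simp [fl, h]

lemma fl_fl (l : Fin L) (y : Fin L → Bool) : fl l (fl l y) = y := by
  funext i
  by_cases h : i = l
  · subst h
    rw [fl_same, fl_same, Bool.not_not]
  · rw [fl_other h, fl_other h]

lemma fl_mem {k : ℕ} {l : Fin L} (hk : k ≤ l) {x y : Fin L → Bool} (hy : y ∈ S1 k x) :
    fl l y ∈ S1 k x := by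
  rw [mem_S1] at hy ⊢
  intro i hi
  rw [fl_other]
  · exact hy i hi
  · rintro rfl
    omega

lemma d1_fl_same {l : ℕ} (hl : l < L) (y : Fin L → Bool) : d1 l (fl ⟨l, hl⟩ y) = - d1 l y := by
  unfold d1
  rw [dif_pos hl, dif_pos hl, fl_same]
  cases y ⟨l, hl⟩ <;> simp

lemma d1_fl_other {l i : ℕ} (hl : l < L) (h : i ≠ l) (y : Fin L → Bool) :
    d1 i (fl ⟨l, hl⟩ y) = d1 i y := by
  unfold d1
  split_ifs with h1 h2 h3 h3
  · rfl
  · rw [fl_other (fun h4 => h (by simpa using congrArg Fin.val h4))] at h2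
    exact absurd h2 h3
  · rw [fl_other (fun h4 => h (by simpa using congrArg Fin.val h4))] at h2
    exact absurd h3 h2
  · rfl
  · rfl

lemma Av_flip {k l : ℕ} (hl : l < L) (hk : k ≤ l) {G : (Fin L → Bool) → ℝ} {x : Fin L → Bool}
    (hG : ∀ y ∈ S1 k x, G (fl ⟨l, hl⟩ y) = G y) : Av k (fun y => d1 l y * G y) x = 0 := by
  have h : ∑ y ∈ S1 k x, d1 l y * G y = - ∑ y ∈ S1 k x, d1 l y * G y := by
    conv_lhs => rw [← Finset.sum_nbij' (s := S1 k x) (t := S1 k x) (i := fl ⟨l, hl⟩)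
      (j := fl ⟨l, hl⟩) (f := fun y => d1 l (fl ⟨l, hl⟩ y) * G (fl ⟨l, hl⟩ y))
      (g := fun y => d1 l y * G y) (fun y hy => fl_mem hk hy) (fun y hy => fl_mem hk hy)
      (fun y _ => fl_fl _ y) (fun y _ => fl_fl _ y) (fun y _ => rfl)]
    rw [← Finset.sum_neg_distrib]
    refine Finset.sum_congr rfl (fun y hy => ?_)
    rw [d1_fl_same, hG y hy]
    ring
  have h0 : ∑ y ∈ S1 k x, d1 l y * G y = 0 := by linarith
  unfold Av
  rw [h0, zero_div]

lemma d1_sq (i : ℕ) (x : Fin L → Bool) : d1 i x * d1 i x = 1 := by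
  unfold d1; split_ifs <;> norm_num

lemma d1_le (i : ℕ) (x : Fin L → Bool) : -1 ≤ d1 i x ∧ d1 i x ≤ 1 := by
  unfold d1; split_ifs <;> norm_num

lemma d1_of_mem {k i : ℕ} (hi : i < k) {x y : Fin L → Bool} (hy : y ∈ S1 k x) :
    d1 i y = d1 i x := by
  unfold d1
  split_ifs with h1 h2 h3 h3
  · rfl
  · exact absurd ((mem_S1.1 hy ⟨i, h1⟩ hi).trans h2) h3
  · exact absurd ((mem_S1.1 hy ⟨i, h1⟩ hi).symm.trans h3) h2
  · rfl
  · rfl

lemma a1_of_mem {k : ℕ} {x y : Fin L → Bool} (hy : y ∈ S1 k x) : a1 k y = a1 k x := by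
  unfold a1
  refine Finset.sum_congr rfl (fun i hi => ?_)
  rw [d1_of_mem (mem_range.1 hi) hy]

lemma geo (k m : ℕ) : ∑ i ∈ Ico k (k + m), (1 / 2 : ℝ) ^ (i + 1) = (1 / 2) ^ k - (1 / 2) ^ (k + m) := by
  induction m with
  | zero => simp
  | succ m ih =>
    rw [← add_assoc, Finset.sum_Ico_succ_top (by omega), ih]
    ring

lemma a1_split {k : ℕ} (hk : k ≤ L) (y : Fin L → Bool) :
    a1 L y = a1 k y + ∑ i ∈ Ico k L, (1 + d1 i y) * (1 / 2 : ℝ) ^ (i + 2) := by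
  unfold a1
  rw [Finset.sum_range_add_sum_Ico _ hk]

lemma a1_bounds {k : ℕ} (hk : k ≤ L) {x y : Fin L → Bool} (hy : y ∈ S1 k x) :
    a1 k x ≤ a1 L y ∧ a1 L y < a1 k x + (1 / 2) ^ k := by
  rw [a1_split hk y, a1_of_mem hy]
  constructor
  · have : 0 ≤ ∑ i ∈ Ico k L, (1 + d1 i y) * (1 / 2 : ℝ) ^ (i + 2) := by
      refine Finset.sum_nonneg (fun i _ => ?_)
      have := (d1_le i y).1
      exact mul_nonneg (by linarith) (by positivity)
    linarith
  · have h1 : ∑ i ∈ Ico k L, (1 + d1 i y) * (1 / 2 : ℝ) ^ (i + 2) ≤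
        ∑ i ∈ Ico k L, (1 / 2 : ℝ) ^ (i + 1) := by
      refine Finset.sum_le_sum (fun i _ => ?_)
      have h2 := (d1_le i y).2
      have h3 : (0 : ℝ) < (1 / 2) ^ (i + 1) := by positivity
      have h4 : (1 / 2 : ℝ) ^ (i + 2) = (1 / 2) ^ (i + 1) / 2 := by ring
      rw [h4]
      nlinarith
    obtain ⟨m, rfl⟩ := Nat.exists_eq_add_of_le hk
    rw [geo] at h1
    have h5 : (0 : ℝ) < (1 / 2) ^ (k + m) := by positivity
    linarith

lemma Av_d1_low {k i : ℕ} (hi : i < k) (x : Fin L → Bool) : Av k (d1 i) x = d1 i x :=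
  Av_const (fun _ hy => d1_of_mem hi hy)

lemma Av_d1_high {k i : ℕ} (hi : k ≤ i) (hL : i < L) (x : Fin L → Bool) : Av k (d1 i) x = 0 := by
  have := Av_flip (k := k) (l := i) hL hi (G := fun _ => 1) (x := x) (fun _ _ => rfl)
  simpa using this

lemma Av_a1 {k : ℕ} (hk : k ≤ L) (x : Fin L → Bool) :
    a1 L x - Av k (a1 L) x = ∑ i ∈ Ico k L, d1 i x * (1 / 2 : ℝ) ^ (i + 2) := by
  have h1 : Av k (a1 L) x = ∑ i ∈ range L, (1 + Av k (d1 i) x) * (1 / 2 : ℝ) ^ (i + 2) := by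
    have : (a1 L : (Fin L → Bool) → ℝ) =
        fun y => ∑ i ∈ range L, (fun y => (1 + d1 i y) * (1 / 2 : ℝ) ^ (i + 2)) y := rfl
    rw [this, Av_sum]
    refine Finset.sum_congr rfl (fun i _ => ?_)
    rw [Av_mul_const, Av_add, Av_const (F := fun _ => (1 : ℝ)) (a := 1) (fun _ _ => rfl)]
  rw [h1]
  unfold a1
  rw [← Finset.sum_sub_distrib, ← Finset.sum_range_add_sum_Ico _ hk]
  have h2 : ∑ i ∈ range k, ((1 + d1 i x) * (1 / 2 : ℝ) ^ (i + 2)
      - (1 + Av k (d1 i) x) * (1 / 2 : ℝ) ^ (i + 2)) = 0 := by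
    refine Finset.sum_eq_zero (fun i hi => ?_)
    rw [Av_d1_low (mem_range.1 hi), sub_self]
  rw [h2, zero_add]
  refine Finset.sum_congr rfl (fun i hi => ?_)
  rw [Finset.mem_Ico] at hi
  rw [Av_d1_high hi.1 hi.2]
  ring

lemma Av_d1_a1 {l : ℕ} (hl : l < L) (x : Fin L → Bool) :
    Av l (fun y => d1 l y * a1 L y) x = (1 / 2) ^ (l + 2) := by
  have h0 : (fun y : Fin L → Bool => d1 l y * a1 L y) =
      fun y => ∑ i ∈ range L, (fun y => (d1 l y * (1 + d1 i y)) * (1 / 2 : ℝ) ^ (i + 2)) y := by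
    funext y
    unfold a1
    rw [Finset.mul_sum]
    exact Finset.sum_congr rfl (fun i _ => by ring)
  rw [h0, Av_sum, Finset.sum_eq_single_of_mem l (mem_range.2 hl)]
  · rw [Av_mul_const]
    have : Av l (fun y => d1 l y * (1 + d1 l y)) x = 1 := by
      have h1 : (fun y : Fin L → Bool => d1 l y * (1 + d1 l y)) = fun y => d1 l y + 1 := by
        funext y
        linear_combination d1_sq l y
      rw [h1, Av_add, Av_d1_high le_rfl hl, Av_const (F := fun _ => (1 : ℝ)) (a := 1) (fun _ _ => rfl)]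
      ring
    rw [this, one_mul]
  · intro i _ hi
    rw [Av_mul_const, Av_flip hl le_rfl, zero_mul]
    intro y _
    rw [d1_fl_other hl hi]

/-- conditional expectations of product functions -/
lemma CE_prod (v : Fin 3 → ℕ) (F : Fin 3 → (Fin L → Bool) → ℝ) (ω : Om L) :
    CE (Pw L) v (fun ω' => ∏ c, F c (ω' c)) ω = ∏ c, Av (v c) (F c) (ω c) := by
  have hS : univ.filter (fun ω' : Om L => rel v ω ω') = Fintype.piFinset (fun c => S1 (v c) (ω c)) := by
    ext ω'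
    rw [mem_filter, Fintype.mem_piFinset]
    simp only [mem_univ, true_and, mem_S1]
    rfl
  have hp : ((8 : ℝ) ^ L)⁻¹ ≠ 0 := by positivity
  have h1 : ∑ ω' ∈ Fintype.piFinset (fun c => S1 (v c) (ω c)), ((8 : ℝ) ^ L)⁻¹ =
      ((8 : ℝ) ^ L)⁻¹ * ∏ c, ∑ _y ∈ S1 (v c) (ω c), (1 : ℝ) := by
    rw [Finset.prod_univ_sum, Finset.mul_sum]
    simp
  unfold CE Pw Av
  rw [hS, h1, ← Finset.mul_sum, Finset.prod_div_distrib, mul_div_mul_left _ _ hp,
    ← Finset.prod_univ_sum (fun c => S1 (v c) (ω c)) F]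

/-- indicator -/
noncomputable def Ind (p : ℝ) (y : Fin L → Bool) : ℝ := if p < a1 L y then 1 else 0

lemma dg_eq (c : Fin 3) (i : ℕ) (ω : Om L) : dg c i ω = d1 i (ω c) := rfl

lemma av_eq (c : Fin 3) (k : ℕ) (ω : Om L) : av c k ω = a1 k (ω c) := rfl

lemma Ind_const {k : ℕ} (hk : k ≤ L) {p : ℝ} {x : Fin L → Bool}
    (h : ¬ (a1 k x ≤ p ∧ p < a1 k x + (1 / 2) ^ k)) :
    ∀ y ∈ S1 k x, Ind (L := L) p y = Ind p x := by
  intro y hy
  have h1 := a1_bounds hk hy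
  have h2 := a1_bounds hk (self_mem k x)
  unfold Ind
  by_cases h3 : a1 k x ≤ p
  · have h4 : a1 k x + (1 / 2) ^ k ≤ p := by
      by_contra h5
      exact h ⟨h3, lt_of_not_ge h5⟩
    rw [if_neg (by linarith), if_neg (by linarith)]
  · have h3' : p < a1 k x := lt_of_not_ge h3
    rw [if_pos (by linarith), if_pos (by linarith)]

/-- the expansion of `y_l f` in product functions -/
lemma fD_expand {N : ℕ} (u : Fin N → Fin 3 → ℝ) (l : ℕ) (ω : Om L) :
    dg 2 l ω * fD u ω = ∑ i, ∏ c, (![Ind (u i 0), Ind (u i 1), fun y => d1 l y * Ind (u i 2) y] c) (ω c)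
      - N * ∏ c, (![a1 L, a1 L, fun y => d1 l y * a1 L y] c) (ω c) := by
  have hcard : ((univ.filter (fun i : Fin N => ∀ c, u i c < av c L ω)).card : ℝ)
      = ∑ i, Ind (u i 0) (ω 0) * Ind (u i 1) (ω 1) * Ind (u i 2) (ω 2) := by
    rw [Finset.card_filter]
    push_cast
    refine Finset.sum_congr rfl (fun i _ => ?_)
    unfold Ind
    simp only [Fin.forall_fin_succ, av_eq]
    by_cases h0 : u i 0 < a1 L (ω 0) <;> by_cases h1 : u i 1 < a1 L (ω 1) <;>
      by_cases h2 : u i 2 < a1 L (ω 2) <;> simp [h0, h1, h2]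
  unfold fD Dm
  rw [hcard]
  simp only [Fin.prod_univ_three, av_eq, dg_eq]
  rw [mul_sub, Finset.mul_sum]
  congr 1
  · refine Finset.sum_congr rfl (fun i _ => ?_)
    simp
    ring
  · simp
    ring

/-- the four functions -/
lemma Gd_expand {N : ℕ} (u : Fin N → Fin 3 → ℝ) (s t l : ℕ) (ω : Om L) :
    Gd (fD u) s t l ω = ∑ i, Av s (Ind (u i 0)) (ω 0) * Av t (Ind (u i 1)) (ω 1)
        * Av l (fun y => d1 l y * Ind (u i 2) y) (ω 2)
      - N * (Av s (a1 L) (ω 0) * Av t (a1 L) (ω 1) * Av l (fun y => d1 l y * a1 L y) (ω 2)) := by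
  unfold Gd
  rw [CE_congr _ _ (fD_expand u l), CE_sub, CE_sum, CE_const_mul, CE_prod]
  congr 1
  · refine Finset.sum_congr rfl (fun i _ => ?_)
    rw [CE_prod, Fin.prod_univ_three]
    simp
  · rw [Fin.prod_univ_three]
    simp

lemma uu_eq (c : Fin 3) {k : ℕ} (hk : k ≤ L) (ω : Om L) :
    a1 L (ω c) - Av k (a1 L) (ω c) = (1 / 2) ^ k * uu c k ω := by
  rw [Av_a1 hk]
  unfold uu
  rw [Finset.mul_sum]
  refine Finset.sum_congr rfl (fun i hi => ?_)
  rw [Finset.mem_Ico] at hi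
  rw [dg_eq]
  obtain ⟨m, rfl⟩ := Nat.exists_eq_add_of_le hi.1
  rw [Nat.add_sub_cancel_left]
  ring

end OneD

open OneD in
theorem Y_identity {N : ℕ} {u : Fin N → Fin 3 → ℝ} (hu : ∀ i c, 0 ≤ u i c ∧ u i c < 1)
    {s t l : ℕ} (hs : s ≤ L) (ht : t ≤ L) (hl : l < L) (ω : Om L)
    (hbox : ∀ i, ¬ inBox ![s, t, l] ω (u i)) :
    Gd (fD u) L L l ω = Gd (fD u) s L l ω + Gd (fD u) L t l ω - Gd (fD u) s t l ω
      - N * ((1 / 2 : ℝ) ^ (s + t + l + 2) * (uu 0 s ω * uu 1 t ω)) := by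
  simp only [Gd_expand, Av_full, Av_d1_a1 hl]
  have hx := uu_eq (L := L) 0 hs ω
  have hz := uu_eq (L := L) 1 ht ω
  have hpt : ∀ i, Ind (u i 0) (ω 0) * Ind (u i 1) (ω 1) * Av l (fun y => d1 l y * Ind (u i 2) y) (ω 2)
      = Av s (Ind (u i 0)) (ω 0) * Ind (u i 1) (ω 1) * Av l (fun y => d1 l y * Ind (u i 2) y) (ω 2)
      + Ind (u i 0) (ω 0) * Av t (Ind (u i 1)) (ω 1) * Av l (fun y => d1 l y * Ind (u i 2) y) (ω 2)
      - Av s (Ind (u i 0)) (ω 0) * Av t (Ind (u i 1)) (ω 1)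
        * Av l (fun y => d1 l y * Ind (u i 2) y) (ω 2) := by
    intro i
    have h := hbox i
    by_cases h0 : a1 s (ω 0) ≤ u i 0 ∧ u i 0 < a1 s (ω 0) + (1 / 2) ^ s
    · by_cases h1 : a1 t (ω 1) ≤ u i 1 ∧ u i 1 < a1 t (ω 1) + (1 / 2) ^ t
      · have h2 : ¬ (a1 l (ω 2) ≤ u i 2 ∧ u i 2 < a1 l (ω 2) + (1 / 2) ^ l) := by
          intro h3
          apply h
          intro c
          fin_cases c
          · exact h0
          · exact h1
          · exact h3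
        have h4 : Av l (fun y => d1 l y * Ind (u i 2) y) (ω 2) = 0 := by
          apply Av_flip hl le_rfl
          intro y hy
          rw [Ind_const hl.le h2 _ (fl_mem (l := ⟨l, hl⟩) le_rfl hy), Ind_const hl.le h2 y hy]
        rw [h4]
        ring
      · rw [Av_const (Ind_const ht h1)]
        ring
    · rw [Av_const (Ind_const hs h0)]
      ring
  rw [Finset.sum_congr rfl (fun i _ => hpt i), Finset.sum_sub_distrib, Finset.sum_add_distrib]
  have e1 : Av s (a1 L) (ω 0) = a1 L (ω 0) - (1 / 2) ^ s * uu 0 s ω := by linarith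
  have e2 : Av t (a1 L) (ω 1) = a1 L (ω 1) - (1 / 2) ^ t * uu 1 t ω := by linarith
  rw [e1, e2]
  ring

end Disc3
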