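import Pool.Agent.Work.MP_d500f7_co.Flip

/-! # J1: the energy bound -/

namespace Disc3

open Finset

variable {L : ℕ}

lemma meas_Gd (f : Om L → ℝ) (s t l : ℕ) : Meas ![s, t, l] (Gd f s t l) := meas_CE _ _ _

lemma energy_step_ineq {a x : ℝ} (ha : a ≤ 1) (hx : 0 ≤ x) : Real.exp x * (a - x) ≤ a := by
  have h1 : 1 - x ≤ Real.exp (-x) := by
    have := Real.add_one_le_exp (-x)
    linarith
  rcases le_total a 0 with h | h
  · have h2 : 1 ≤ Real.exp x := Real.one_le_exp hx
    nlinarith [Real.exp_pos x]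
  · have h3 : a - x ≤ a * Real.exp (-x) := by nlinarith
    calc Real.exp x * (a - x) ≤ Real.exp x * (a * Real.exp (-x)) :=
          mul_le_mul_of_nonneg_left h3 (Real.exp_pos x).le
      _ = a * (Real.exp x * Real.exp (-x)) := by ring
      _ = a := by rw [← Real.exp_add, add_neg_cancel, Real.exp_zero, mul_one]

theorem energy {f : Om L → ℝ} {M : ℝ} (hM : 0 < M) (hf : ∀ ω, |f ω| ≤ M) {w : Om L → ℝ}
    (hw : IsPr w) {K : ℝ} (hK : ∀ ω, w ω ≤ Real.exp K * Pw L ω) (s t : ℕ) :
    Ex w (fun ω => ∑ l ∈ range L, (Gd f s t l ω) ^ 2) ≤ 2 * M ^ 2 * (K + 2) := by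
  set th : ℝ := 1 / (2 * M ^ 2) with hth
  have hth0 : 0 < th := by positivity
  set g : ℕ → Om L → ℝ := fun l => CE (Pw L) ![s, t, l] f with hg
  set A : ℕ → Om L → ℝ := fun l ω => ∑ j ∈ range l, (Gd f s t j ω) ^ 2 with hA
  have hgM : ∀ l ω, |g l ω| ≤ M := fun l ω => abs_CE_le Pw_pos _ hf ω
  have hgsq : ∀ l ω, g l ω ^ 2 ≤ M ^ 2 := fun l ω => sq_le_sq' (abs_le.1 (hgM l ω)).1
    (abs_le.1 (hgM l ω)).2
  have hthg : ∀ l ω, th * g l ω ^ 2 ≤ 1 / 2 := by
    intro l ω
    have : th * g l ω ^ 2 ≤ th * M ^ 2 := mul_le_mul_of_nonneg_left (hgsq l ω) hth0.le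
    have h2 : th * M ^ 2 = 1 / 2 := by rw [hth]; field_simp
    linarith
  have hAmeas : ∀ l, Meas ![s, t, l] (A (l + 1)) := by
    intro l
    refine Meas.sum _ fun j hj => ?_
    have hj' : j ≤ l := Nat.lt_succ_iff.1 (Finset.mem_range.1 hj)
    refine ((meas_Gd f s t j).mono ?_).pow 2
    intro c
    fin_cases c
    · exact le_rfl
    · exact le_rfl
    · exact hj'
  have hstep : ∀ l, l < L → Ex (Pw L) (fun ω => Real.exp (th * A (l + 1) ω) * (1 - th * g (l + 1) ω ^ 2))
      ≤ Ex (Pw L) (fun ω => Real.exp (th * A l ω) * (1 - th * g l ω ^ 2)) := by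
    intro l hl
    have hz := Ex_dg_mul_eq_zero (v := ![s, t, l]) (c := 2) hl le_rfl
      ((((hAmeas l).comp (fun x => Real.exp (th * x) * (2 * th))).mul
        (meas_CE (Pw L) ![s, t, l] f)).mul (meas_Gd f s t l))
    have e1 : Ex (Pw L) (fun ω => Real.exp (th * A (l + 1) ω) * (1 - th * g (l + 1) ω ^ 2)) =
        Ex (Pw L) (fun ω => Real.exp (th * A (l + 1) ω) *
          (1 - th * g l ω ^ 2 - th * Gd f s t l ω ^ 2)) := by
      rw [← sub_eq_zero, ← Ex_sub, ← neg_eq_zero, ← Ex_neg, ← hz]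
      refine Ex_congr _ fun ω => ?_
      have h1 : g (l + 1) ω = g l ω + dg 2 l ω * Gd f s t l ω := haar_step_y hl f ω
      have h2 := dg_mul_self 2 l ω
      rw [h1]
      simp only [hg]
      linear_combination (Real.exp (th * A (l + 1) ω) * th * Gd f s t l ω ^ 2) * h2
    rw [e1]
    refine Ex_mono (fun ω => (Pw_pos ω).le) fun ω => ?_
    have h3 : A (l + 1) ω = A l ω + Gd f s t l ω ^ 2 := by
      simp only [hA]
      rw [Finset.sum_range_succ]
    have h4 := energy_step_ineq (a := 1 - th * g l ω ^ 2) (x := th * Gd f s t l ω ^ 2)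
      (by nlinarith [sq_nonneg (g l ω)]) (by positivity)
    rw [h3, mul_add, Real.exp_add, mul_assoc]
    exact mul_le_mul_of_nonneg_left h4 (Real.exp_pos _).le
  have hmono : ∀ l, l ≤ L → Ex (Pw L) (fun ω => Real.exp (th * A l ω) * (1 - th * g l ω ^ 2)) ≤ 1 := by
    intro l
    induction l with
    | zero =>
      intro _
      refine Ex_le_of_le isPr_Pw fun ω => ?_
      have h0 : A 0 ω = 0 := by simp [hA]
      rw [h0, mul_zero, Real.exp_zero, one_mul]
      nlinarith [sq_nonneg (g 0 ω)]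
    | succ l ih => exact fun hl => (hstep l hl).trans (ih (Nat.le_of_succ_le hl))
  have h2 : Ex (Pw L) (fun ω => Real.exp (th * A L ω)) ≤ 2 := by
    have h3 : Ex (Pw L) (fun ω => Real.exp (th * A L ω) * (1 / 2)) ≤
        Ex (Pw L) (fun ω => Real.exp (th * A L ω) * (1 - th * g L ω ^ 2)) := by
      refine Ex_mono (fun ω => (Pw_pos ω).le) fun ω => ?_
      exact mul_le_mul_of_nonneg_left (by linarith [hthg L ω]) (Real.exp_pos _).le
    rw [Ex_mul_const] at h3
    linarith [hmono L le_rfl]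
  have h3 : Ex w (fun ω => th * A L ω) ≤ K + 2 := by
    have h4 : Ex w (fun ω => th * A L ω) ≤ Ex w (fun ω => K + Real.exp (-K) * Real.exp (th * A L ω)) := by
      refine Ex_mono hw.nonneg fun ω => ?_
      have := Real.add_one_le_exp (th * A L ω - K)
      have h5 : Real.exp (-K) * Real.exp (th * A L ω) = Real.exp (th * A L ω - K) := by
        rw [← Real.exp_add]; congr 1; ring
      rw [h5]
      linarith
    have h5 : Ex w (fun ω => Real.exp (th * A L ω)) ≤ Real.exp K * 2 := by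
      calc Ex w (fun ω => Real.exp (th * A L ω))
          ≤ Real.exp K * Ex (Pw L) (fun ω => Real.exp (th * A L ω)) := by
            unfold Ex
            rw [Finset.mul_sum]
            refine Finset.sum_le_sum fun ω _ => ?_
            rw [← mul_assoc]
            exact mul_le_mul_of_nonneg_right (hK ω) (Real.exp_pos _).le
        _ ≤ _ := mul_le_mul_of_nonneg_left h2 (Real.exp_pos K).le
    have h7 := Ex_const_mul w (Real.exp (-K)) (fun ω => Real.exp (th * A L ω))
    rw [Ex_add, Ex_const hw.one, h7] at h4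
    have h6 : Real.exp (-K) * Ex w (fun ω => Real.exp (th * A L ω)) ≤ 2 := by
      calc Real.exp (-K) * Ex w (fun ω => Real.exp (th * A L ω))
          ≤ Real.exp (-K) * (Real.exp K * 2) := mul_le_mul_of_nonneg_left h5 (Real.exp_pos _).le
        _ = (Real.exp (-K) * Real.exp K) * 2 := by ring
        _ = 2 := by rw [← Real.exp_add, neg_add_cancel, Real.exp_zero, one_mul]
    linarith
  rw [Ex_const_mul] at h3
  have h4 : Ex w (A L) = 2 * M ^ 2 * (th * Ex w (A L)) := by
    rw [hth]; field_simp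
  show Ex w (A L) ≤ _
  rw [h4]
  exact mul_le_mul_of_nonneg_left h3 (by positivity)

end Disc3
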