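import Pool.Agent.Work.MP_d500f7_co.Tilt

namespace Disc3

open Finset

variable {L : ℕ}

lemma meas_bx (w : Om L → ℝ) (s : ℕ) : Meas ![s, L, L] (bx w s) := meas_CE _ _ _
lemma meas_bz (w : Om L → ℝ) (t : ℕ) : Meas ![L, t, L] (bz w t) := meas_CE _ _ _
lemma meas_cc (w : Om L → ℝ) (s t : ℕ) : Meas ![s, t, L] (cc w s t) := (meas_CE _ _ _).neg
lemma meas_dg0 {s s' t l : ℕ} (h : s < s') : Meas ![s', t, l] (dg (L := L) 0 s) :=
  meas_dg (v := ![s', t, l]) (c := 0) h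
lemma meas_dg1 {s t t' l : ℕ} (h : t < t') : Meas ![s, t', l] (dg (L := L) 1 t) :=
  meas_dg (v := ![s, t', l]) (c := 1) h
lemma meas_eta (w : Om L → ℝ) (s : ℕ) : Meas ![s + 1, L, L] (eta w s) :=
  (meas_dg0 (Nat.lt_succ_self s)).sub ((meas_bx w s).mono (mono3 (Nat.le_succ s) le_rfl le_rfl))
lemma meas_xi (w : Om L → ℝ) (t : ℕ) : Meas ![L, t + 1, L] (xi w t) :=
  (meas_dg1 (Nat.lt_succ_self t)).sub ((meas_bz w t).mono (mono3 le_rfl (Nat.le_succ t) le_rfl))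

lemma Ex_bx_mul {w : Om L → ℝ} (hw : IsPr w) {s : ℕ} {h : Om L → ℝ} (hh : Meas ![s, L, L] h) :
    Ex w (fun ω => h ω * dg 0 s ω) = Ex w (fun ω => h ω * bx w s ω) :=
  (Ex_mul_CE hw.pos hh (dg 0 s)).symm
lemma Ex_bz_mul {w : Om L → ℝ} (hw : IsPr w) {t : ℕ} {h : Om L → ℝ} (hh : Meas ![L, t, L] h) :
    Ex w (fun ω => h ω * dg 1 t ω) = Ex w (fun ω => h ω * bz w t ω) :=
  (Ex_mul_CE hw.pos hh (dg 1 t)).symm

lemma eta_orth {w : Om L → ℝ} (hw : IsPr w) {s : ℕ} {h : Om L → ℝ} (hh : Meas ![s, L, L] h) :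
    Ex w (fun ω => eta w s ω * h ω) = 0 := by
  have e : Ex w (fun ω => eta w s ω * h ω) =
      Ex w (fun ω => h ω * dg 0 s ω) - Ex w (fun ω => h ω * bx w s ω) := by
    rw [← Ex_sub]; exact Ex_congr w (fun ω => by unfold eta; ring)
  rw [e, Ex_bx_mul hw hh, sub_self]

lemma xi_orth {w : Om L → ℝ} (hw : IsPr w) {t : ℕ} {h : Om L → ℝ} (hh : Meas ![L, t, L] h) :
    Ex w (fun ω => xi w t ω * h ω) = 0 := by
  have e : Ex w (fun ω => xi w t ω * h ω) =
      Ex w (fun ω => h ω * dg 1 t ω) - Ex w (fun ω => h ω * bz w t ω) := by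
    rw [← Ex_sub]; exact Ex_congr w (fun ω => by unfold xi; ring)
  rw [e, Ex_bz_mul hw hh, sub_self]

lemma eta_sq_le {w : Om L → ℝ} (hw : IsPr w) {s : ℕ} {h : Om L → ℝ} (hh : Meas ![s, L, L] h) :
    Ex w (fun ω => (eta w s ω * h ω) ^ 2) ≤ Ex w (fun ω => h ω ^ 2) := by
  have e : Ex w (fun ω => (eta w s ω * h ω) ^ 2) = Ex w (fun ω => h ω ^ 2)
      - Ex w (fun ω => (bx w s ω * h ω) ^ 2)
      - 2 * (Ex w (fun ω => (bx w s ω * h ω ^ 2) * dg 0 s ω)
        - Ex w (fun ω => (bx w s ω * h ω ^ 2) * bx w s ω)) := by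
    rw [← Ex_sub, ← Ex_sub, ← Ex_const_mul, ← Ex_sub]
    refine Ex_congr w (fun ω => ?_)
    have := dg_mul_self 0 s ω
    unfold eta
    linear_combination (h ω ^ 2) * this
  rw [e, Ex_bx_mul hw ((meas_bx w s).mul (hh.pow 2))]
  have : 0 ≤ Ex w (fun ω => (bx w s ω * h ω) ^ 2) := Ex_nonneg hw.nonneg (fun ω => sq_nonneg _)
  linarith

lemma xi_sq_le {w : Om L → ℝ} (hw : IsPr w) {t : ℕ} {h : Om L → ℝ} (hh : Meas ![L, t, L] h) :
    Ex w (fun ω => (xi w t ω * h ω) ^ 2) ≤ Ex w (fun ω => h ω ^ 2) := by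
  have e : Ex w (fun ω => (xi w t ω * h ω) ^ 2) = Ex w (fun ω => h ω ^ 2)
      - Ex w (fun ω => (bz w t ω * h ω) ^ 2)
      - 2 * (Ex w (fun ω => (bz w t ω * h ω ^ 2) * dg 1 t ω)
        - Ex w (fun ω => (bz w t ω * h ω ^ 2) * bz w t ω)) := by
    rw [← Ex_sub, ← Ex_sub, ← Ex_const_mul, ← Ex_sub]
    refine Ex_congr w (fun ω => ?_)
    have := dg_mul_self 1 t ω
    unfold xi
    linear_combination (h ω ^ 2) * this
  rw [e, Ex_bz_mul hw ((meas_bz w t).mul (hh.pow 2))]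
  have : 0 ≤ Ex w (fun ω => (bz w t ω * h ω) ^ 2) := Ex_nonneg hw.nonneg (fun ω => sq_nonneg _)
  linarith

/-- Bessel inequality for the `x`-innovations -/
lemma bessel_eta {w : Om L → ℝ} (hw : IsPr w) (k : ℕ → Om L → ℝ)
    (hk : ∀ s, Meas ![s, L, L] (k s)) (m : ℕ) :
    Ex w (fun ω => (∑ s ∈ range m, eta w s ω * k s ω) ^ 2) ≤
      ∑ s ∈ range m, Ex w (fun ω => k s ω ^ 2) := by
  induction m with
  | zero => simp [Ex]
  | succ m ih =>
    set N : Om L → ℝ := fun ω => ∑ s ∈ range m, eta w s ω * k s ω with hN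
    have hmN : Meas ![m, L, L] N := by
      refine Meas.sum (range m) (fun s hs => ?_)
      have hs' := mem_range.1 hs
      exact ((meas_eta w s).mono (mono3 hs' le_rfl le_rfl)).mul
        ((hk s).mono (mono3 hs'.le le_rfl le_rfl))
    have e : Ex w (fun ω => (∑ s ∈ range (m + 1), eta w s ω * k s ω) ^ 2) =
        Ex w (fun ω => N ω ^ 2) + 2 * Ex w (fun ω => eta w m ω * (N ω * k m ω))
        + Ex w (fun ω => (eta w m ω * k m ω) ^ 2) := by
      rw [← Ex_const_mul, ← Ex_add, ← Ex_add]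
      refine Ex_congr w (fun ω => ?_)
      rw [Finset.sum_range_succ]
      simp only [hN]; ring
    rw [e, eta_orth hw (hmN.mul (hk m)), Finset.sum_range_succ, mul_zero, add_zero]
    exact add_le_add ih (eta_sq_le hw (hk m))

/-- Bessel inequality for the `z`-innovations -/
lemma bessel_xi {w : Om L → ℝ} (hw : IsPr w) (k : ℕ → Om L → ℝ)
    (hk : ∀ t, Meas ![L, t, L] (k t)) (m : ℕ) :
    Ex w (fun ω => (∑ t ∈ range m, xi w t ω * k t ω) ^ 2) ≤
      ∑ t ∈ range m, Ex w (fun ω => k t ω ^ 2) := by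
  induction m with
  | zero => simp [Ex]
  | succ m ih =>
    set N : Om L → ℝ := fun ω => ∑ t ∈ range m, xi w t ω * k t ω with hN
    have hmN : Meas ![L, m, L] N := by
      refine Meas.sum (range m) (fun s hs => ?_)
      have hs' := mem_range.1 hs
      exact ((meas_xi w s).mono (mono3 le_rfl hs' le_rfl)).mul
        ((hk s).mono (mono3 le_rfl hs'.le le_rfl))
    have e : Ex w (fun ω => (∑ t ∈ range (m + 1), xi w t ω * k t ω) ^ 2) =
        Ex w (fun ω => N ω ^ 2) + 2 * Ex w (fun ω => xi w m ω * (N ω * k m ω))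
        + Ex w (fun ω => (xi w m ω * k m ω) ^ 2) := by
      rw [← Ex_const_mul, ← Ex_add, ← Ex_add]
      refine Ex_congr w (fun ω => ?_)
      rw [Finset.sum_range_succ]
      simp only [hN]; ring
    rw [e, xi_orth hw (hmN.mul (hk m)), Finset.sum_range_succ, mul_zero, add_zero]
    exact add_le_add ih (xi_sq_le hw (hk m))

lemma bessel_eta' {w : Om L → ℝ} (hw : IsPr w) (g : Om L → ℝ) (k : ℕ → Om L → ℝ)
    (hk : ∀ s, Meas ![s, L, L] (k s)) (m : ℕ) :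
    |∑ s ∈ range m, Ex w (fun ω => g ω * (eta w s ω * k s ω))| ≤
      Real.sqrt (Ex w (fun ω => g ω ^ 2)) *
        Real.sqrt (∑ s ∈ range m, Ex w (fun ω => k s ω ^ 2)) := by
  have e : ∑ s ∈ range m, Ex w (fun ω => g ω * (eta w s ω * k s ω)) =
      Ex w (fun ω => g ω * ∑ s ∈ range m, eta w s ω * k s ω) := by
    rw [← Ex_sum]
    exact Ex_congr w (fun ω => by rw [Finset.mul_sum])
  rw [e]
  refine (abs_Ex_mul_le hw.nonneg _ _).trans ?_
  exact mul_le_mul_of_nonneg_left (Real.sqrt_le_sqrt (bessel_eta hw k hk m)) (Real.sqrt_nonneg _)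

lemma bessel_xi' {w : Om L → ℝ} (hw : IsPr w) (g : Om L → ℝ) (k : ℕ → Om L → ℝ)
    (hk : ∀ t, Meas ![L, t, L] (k t)) (m : ℕ) :
    |∑ t ∈ range m, Ex w (fun ω => g ω * (xi w t ω * k t ω))| ≤
      Real.sqrt (Ex w (fun ω => g ω ^ 2)) *
        Real.sqrt (∑ t ∈ range m, Ex w (fun ω => k t ω ^ 2)) := by
  have e : ∑ t ∈ range m, Ex w (fun ω => g ω * (xi w t ω * k t ω)) =
      Ex w (fun ω => g ω * ∑ t ∈ range m, xi w t ω * k t ω) := by
    rw [← Ex_sum]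
    exact Ex_congr w (fun ω => by rw [Finset.mul_sum])
  rw [e]
  refine (abs_Ex_mul_le hw.nonneg _ _).trans ?_
  exact mul_le_mul_of_nonneg_left (Real.sqrt_le_sqrt (bessel_xi hw k hk m)) (Real.sqrt_nonneg _)

theorem crossC {w : Om L → ℝ} (hw : IsPr w) {s t : ℕ} {C : Om L → ℝ}
    (hC : Meas ![s, t, L] C) : Ex w (fun ω => C ω * phi w s t ω) = 0 := by
  have h := Ex_mul_CE hw.pos hC (fun ω => eta w s ω * xi w t ω)
  have e : Ex w (fun ω => C ω * phi w s t ω) =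
      Ex w (fun ω => C ω * (eta w s ω * xi w t ω)) -
      Ex w (fun ω => C ω * CE w ![s, t, L] (fun ω => eta w s ω * xi w t ω) ω) := by
    rw [← Ex_sub]; exact Ex_congr w (fun ω => by unfold phi cc; ring)
  rw [e, h, sub_self]

/-- `E[A η ξ] = - E[g_t η_s A]` -/
lemma Ex_eta_xi_A {w : Om L → ℝ} (hw : IsPr w) {s t : ℕ} (ht : t < L) {A : Om L → ℝ}
    (hA : Meas ![s, L, L] A) :
    Ex w (fun ω => A ω * (eta w s ω * xi w t ω)) =
      - Ex w (fun ω => bz w t ω * (eta w s ω * A ω)) := by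
  have h := eta_orth hw (hA.mul (meas_dg1 (s := s) (l := L) ht))
  have e : Ex w (fun ω => A ω * (eta w s ω * xi w t ω)) =
      Ex w (fun ω => eta w s ω * (A ω * dg 1 t ω))
      - Ex w (fun ω => bz w t ω * (eta w s ω * A ω)) := by
    rw [← Ex_sub]; exact Ex_congr w (fun ω => by unfold xi; ring)
  rw [e, h, zero_sub]

lemma Ex_eta_xi_B {w : Om L → ℝ} (hw : IsPr w) {s t : ℕ} (hs : s < L) {B : Om L → ℝ}
    (hB : Meas ![L, t, L] B) :
    Ex w (fun ω => B ω * (eta w s ω * xi w t ω)) =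
      - Ex w (fun ω => bx w s ω * (xi w t ω * B ω)) := by
  have h := xi_orth hw (hB.mul (meas_dg0 (t := t) (l := L) hs))
  have e : Ex w (fun ω => B ω * (eta w s ω * xi w t ω)) =
      Ex w (fun ω => xi w t ω * (B ω * dg 0 s ω))
      - Ex w (fun ω => bx w s ω * (xi w t ω * B ω)) := by
    rw [← Ex_sub]; exact Ex_congr w (fun ω => by unfold eta; ring)
  rw [e, h, zero_sub]

/-- `E c_{st}² = E[g_t η_s c_{st}]` -/
lemma Ex_cc_sq {w : Om L → ℝ} (hw : IsPr w) {s t : ℕ} (ht : t < L) :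
    Ex w (fun ω => cc w s t ω ^ 2) = Ex w (fun ω => bz w t ω * (eta w s ω * cc w s t ω)) := by
  have h1 := crossC hw (meas_cc w s t)
  have h2 := Ex_eta_xi_A hw ht
    ((meas_cc w s t).mono (mono3 le_rfl ht.le le_rfl) : Meas ![s, L, L] (cc w s t))
  have e : Ex w (fun ω => cc w s t ω * phi w s t ω) =
      Ex w (fun ω => cc w s t ω * (eta w s ω * xi w t ω)) + Ex w (fun ω => cc w s t ω ^ 2) := by
    rw [← Ex_add]; exact Ex_congr w (fun ω => by unfold phi; ring)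
  rw [e, h2] at h1
  linarith

lemma cc_col {w : Om L → ℝ} (hw : IsPr w) {t : ℕ} (ht : t < L) :
    ∑ s ∈ range L, Ex w (fun ω => cc w s t ω ^ 2) ≤ Ex w (fun ω => bz w t ω ^ 2) := by
  have h1 := bessel_eta' hw (bz w t) (fun s => cc w s t)
    (fun s => (meas_cc w s t).mono (mono3 le_rfl ht.le le_rfl)) L
  rw [← Finset.sum_congr rfl (fun s _ => Ex_cc_sq hw (s := s) ht)] at h1
  set S := ∑ s ∈ range L, Ex w (fun ω => cc w s t ω ^ 2) with hS
  have hS0 : 0 ≤ S := Finset.sum_nonneg (fun s _ => Ex_nonneg hw.nonneg (fun ω => sq_nonneg _))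
  have hb0 : 0 ≤ Ex w (fun ω => bz w t ω ^ 2) := Ex_nonneg hw.nonneg (fun ω => sq_nonneg _)
  rw [abs_of_nonneg hS0] at h1
  have h2 := Real.mul_self_sqrt hS0
  have h3 := Real.mul_self_sqrt hb0
  rcases eq_or_lt_of_le (Real.sqrt_nonneg S) with h4 | h4
  · rw [← h2, ← h4]; simpa using hb0
  · have h5 : Real.sqrt S ≤ Real.sqrt (Ex w (fun ω => bz w t ω ^ 2)) := by
      have : Real.sqrt S * Real.sqrt S ≤ Real.sqrt (Ex w (fun ω => bz w t ω ^ 2)) * Real.sqrt S := by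
        rw [h2]; exact h1
      exact le_of_mul_le_mul_right this h4
    nlinarith [Real.sqrt_nonneg S]

theorem ncc_le {w : Om L → ℝ} (hw : IsPr w) : Ex w (ncc w) ≤ Ex w (ng w) := by
  have e1 : Ex w (ncc w) = ∑ t ∈ range L, ∑ s ∈ range L, Ex w (fun ω => cc w s t ω ^ 2) := by
    rw [Finset.sum_comm]
    have : ncc w = fun ω => ∑ s ∈ range L, ∑ t ∈ range L, (cc w s t ω) ^ 2 := rfl
    rw [this, Ex_sum]
    exact Finset.sum_congr rfl (fun s _ => Ex_sum _ _ _)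
  have e2 : Ex w (ng w) = ∑ t ∈ range L, Ex w (fun ω => bz w t ω ^ 2) := by
    have : ng w = fun ω => ∑ t ∈ range L, (bz w t ω) ^ 2 := rfl
    rw [this, Ex_sum]
  rw [e1, e2]
  exact Finset.sum_le_sum (fun t ht => cc_col hw (mem_range.1 ht))

lemma sqrt_sum_cs {ι : Type*} (S : Finset ι) (p q : ι → ℝ) (hp : ∀ i ∈ S, 0 ≤ p i)
    (hq : ∀ i ∈ S, 0 ≤ q i) :
    ∑ i ∈ S, Real.sqrt (p i) * Real.sqrt (q i) ≤
      Real.sqrt (∑ i ∈ S, p i) * Real.sqrt (∑ i ∈ S, q i) := by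
  have h := Finset.sum_mul_sq_le_sq_mul_sq S (fun i => Real.sqrt (p i)) (fun i => Real.sqrt (q i))
  have e1 : ∑ i ∈ S, Real.sqrt (p i) ^ 2 = ∑ i ∈ S, p i :=
    Finset.sum_congr rfl (fun i hi => Real.sq_sqrt (hp i hi))
  have e2 : ∑ i ∈ S, Real.sqrt (q i) ^ 2 = ∑ i ∈ S, q i :=
    Finset.sum_congr rfl (fun i hi => Real.sq_sqrt (hq i hi))
  rw [e1, e2] at h
  rw [← Real.sqrt_mul (Finset.sum_nonneg hp)]
  exact Real.le_sqrt_of_sq_le h

lemma sum_cc_le {w : Om L → ℝ} (hw : IsPr w) (A : ℕ → ℕ → Om L → ℝ) :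
    |∑ s ∈ range L, ∑ t ∈ range L, Ex w (fun ω => A s t ω * cc w s t ω)| ≤
      Real.sqrt (Ex w (ng w)) *
        Real.sqrt (∑ s ∈ range L, ∑ t ∈ range L, Ex w (fun ω => A s t ω ^ 2)) := by
  have h1 : |∑ s ∈ range L, ∑ t ∈ range L, Ex w (fun ω => A s t ω * cc w s t ω)| ≤
      ∑ p ∈ range L ×ˢ range L, Real.sqrt (Ex w (fun ω => A p.1 p.2 ω ^ 2)) *
        Real.sqrt (Ex w (fun ω => cc w p.1 p.2 ω ^ 2)) := by
    rw [← Finset.sum_product' (range L) (range L) (fun s t => Ex w (fun ω => A s t ω * cc w s t ω))]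
    exact (Finset.abs_sum_le_sum_abs _ _).trans
      (Finset.sum_le_sum (fun p _ => abs_Ex_mul_le hw.nonneg _ _))
  refine h1.trans ((sqrt_sum_cs _ _ _ (fun p _ => Ex_nonneg hw.nonneg (fun ω => sq_nonneg _))
    (fun p _ => Ex_nonneg hw.nonneg (fun ω => sq_nonneg _))).trans ?_)
  rw [mul_comm]
  have e1 : ∑ p ∈ range L ×ˢ range L, Ex w (fun ω => A p.1 p.2 ω ^ 2) =
      ∑ s ∈ range L, ∑ t ∈ range L, Ex w (fun ω => A s t ω ^ 2) :=
    Finset.sum_product' (range L) (range L) (fun s t => Ex w (fun ω => A s t ω ^ 2))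
  have e2 : ∑ p ∈ range L ×ˢ range L, Ex w (fun ω => cc w p.1 p.2 ω ^ 2) = Ex w (ncc w) := by
    rw [Finset.sum_product' (range L) (range L) (fun s t => Ex w (fun ω => cc w s t ω ^ 2))]
    have : ncc w = fun ω => ∑ s ∈ range L, ∑ t ∈ range L, (cc w s t ω) ^ 2 := rfl
    rw [this, Ex_sum]
    exact Finset.sum_congr rfl (fun s _ => (Ex_sum _ _ _).symm)
  rw [e1, e2]
  exact mul_le_mul_of_nonneg_right (Real.sqrt_le_sqrt (ncc_le hw)) (Real.sqrt_nonneg _)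

theorem crossA {w : Om L → ℝ} (hw : IsPr w) (A : ℕ → ℕ → Om L → ℝ)
    (hA : ∀ s t, Meas ![s, L, L] (A s t)) :
    |∑ s ∈ range L, ∑ t ∈ range L, Ex w (fun ω => A s t ω * phi w s t ω)| ≤
      2 * Real.sqrt (Ex w (ng w)) *
        Real.sqrt (∑ s ∈ range L, ∑ t ∈ range L, Ex w (fun ω => A s t ω ^ 2)) := by
  have e : ∑ s ∈ range L, ∑ t ∈ range L, Ex w (fun ω => A s t ω * phi w s t ω) =
      - (∑ t ∈ range L, ∑ s ∈ range L, Ex w (fun ω => bz w t ω * (eta w s ω * A s t ω)))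
      + ∑ s ∈ range L, ∑ t ∈ range L, Ex w (fun ω => A s t ω * cc w s t ω) := by
    rw [Finset.sum_comm (s := range L) (t := range L)
      (f := fun t s => Ex w (fun ω => bz w t ω * (eta w s ω * A s t ω))),
      ← Finset.sum_neg_distrib, ← Finset.sum_add_distrib]
    refine Finset.sum_congr rfl (fun s _ => ?_)
    rw [← Finset.sum_neg_distrib, ← Finset.sum_add_distrib]
    refine Finset.sum_congr rfl (fun t ht => ?_)
    rw [← Ex_eta_xi_A hw (mem_range.1 ht) (hA s t), ← Ex_add]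
    exact Ex_congr w (fun ω => by unfold phi; ring)
  have h1 : |∑ t ∈ range L, ∑ s ∈ range L, Ex w (fun ω => bz w t ω * (eta w s ω * A s t ω))| ≤
      Real.sqrt (Ex w (ng w)) *
        Real.sqrt (∑ s ∈ range L, ∑ t ∈ range L, Ex w (fun ω => A s t ω ^ 2)) := by
    refine (Finset.abs_sum_le_sum_abs _ _).trans ((Finset.sum_le_sum (fun t _ =>
      bessel_eta' hw (bz w t) (fun s => A s t) (fun s => hA s t) L)).trans ?_)
    refine (sqrt_sum_cs _ _ _ (fun t _ => Ex_nonneg hw.nonneg (fun ω => sq_nonneg _))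
      (fun t _ => Finset.sum_nonneg (fun s _ => Ex_nonneg hw.nonneg (fun ω => sq_nonneg _)))).trans
      (le_of_eq ?_)
    have e2 : Ex w (ng w) = ∑ t ∈ range L, Ex w (fun ω => bz w t ω ^ 2) := by
      have : ng w = fun ω => ∑ t ∈ range L, (bz w t ω) ^ 2 := rfl
      rw [this, Ex_sum]
    rw [e2, Finset.sum_comm]
  rw [e]
  refine (abs_add_le _ _).trans ?_
  rw [abs_neg]
  have h2 := sum_cc_le hw A
  linarith

theorem crossB {w : Om L → ℝ} (hw : IsPr w) (B : ℕ → ℕ → Om L → ℝ)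
    (hB : ∀ s t, Meas ![L, t, L] (B s t)) :
    |∑ s ∈ range L, ∑ t ∈ range L, Ex w (fun ω => B s t ω * phi w s t ω)| ≤
      (Real.sqrt (Ex w (nb w)) + Real.sqrt (Ex w (ng w))) *
        Real.sqrt (∑ s ∈ range L, ∑ t ∈ range L, Ex w (fun ω => B s t ω ^ 2)) := by
  have e : ∑ s ∈ range L, ∑ t ∈ range L, Ex w (fun ω => B s t ω * phi w s t ω) =
      - (∑ s ∈ range L, ∑ t ∈ range L, Ex w (fun ω => bx w s ω * (xi w t ω * B s t ω)))
      + ∑ s ∈ range L, ∑ t ∈ range L, Ex w (fun ω => B s t ω * cc w s t ω) := by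
    rw [← Finset.sum_neg_distrib, ← Finset.sum_add_distrib]
    refine Finset.sum_congr rfl (fun s hs => ?_)
    rw [← Finset.sum_neg_distrib, ← Finset.sum_add_distrib]
    refine Finset.sum_congr rfl (fun t _ => ?_)
    rw [← Ex_eta_xi_B hw (mem_range.1 hs) (hB s t), ← Ex_add]
    exact Ex_congr w (fun ω => by unfold phi; ring)
  have h1 : |∑ s ∈ range L, ∑ t ∈ range L, Ex w (fun ω => bx w s ω * (xi w t ω * B s t ω))| ≤
      Real.sqrt (Ex w (nb w)) *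
        Real.sqrt (∑ s ∈ range L, ∑ t ∈ range L, Ex w (fun ω => B s t ω ^ 2)) := by
    refine (Finset.abs_sum_le_sum_abs _ _).trans ((Finset.sum_le_sum (fun s _ =>
      bessel_xi' hw (bx w s) (fun t => B s t) (fun t => hB s t) L)).trans ?_)
    refine (sqrt_sum_cs _ _ _ (fun t _ => Ex_nonneg hw.nonneg (fun ω => sq_nonneg _))
      (fun t _ => Finset.sum_nonneg (fun s _ => Ex_nonneg hw.nonneg (fun ω => sq_nonneg _)))).trans
      (le_of_eq ?_)
    have e2 : Ex w (nb w) = ∑ s ∈ range L, Ex w (fun ω => bx w s ω ^ 2) := by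
      have : nb w = fun ω => ∑ s ∈ range L, (bx w s ω) ^ 2 := rfl
      rw [this, Ex_sum]
    rw [e2]
  rw [e]
  refine (abs_add_le _ _).trans ?_
  rw [abs_neg]
  have h2 := sum_cc_le hw B
  linarith

end Disc3
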