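import Pool.Agent.Work.MP_d500f7_co.VBoundB

namespace Disc3

open Finset

variable {L : ℕ}

theorem V_split (w : Om L → ℝ) (a : ℕ → ℕ → Om L → ℝ) (n l : ℕ) (ω : Om L) :
    ∑ s ∈ range (n + 1 - l), a s (n - l - s) ω * phi w s (n - l - s) ω =
      V0 w a n l ω + V1 w a n l ω + V2 w a n l ω := by
  unfold V0 V1 V2
  rw [← sub_eq_add_neg, ← Finset.sum_sub_distrib, ← Finset.sum_add_distrib]
  refine Finset.sum_congr rfl (fun s _ => ?_)
  unfold phi eta
  ring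

/-- `(∑ x)² ≤ m ∑ x²` in the form used below -/
lemma sum_abs_le_sqrt {ι : Type*} (S : Finset ι) (x : ι → ℝ) {m : ℝ} (hm : (S.card : ℝ) ≤ m)
    {B : ℝ} (hB : ∑ i ∈ S, x i ^ 2 ≤ B) :
    ∑ i ∈ S, |x i| ≤ Real.sqrt m * Real.sqrt B := by
  have hm0 : 0 ≤ m := le_trans (Nat.cast_nonneg _) hm
  have h := Finset.sum_mul_sq_le_sq_mul_sq S (fun _ => (1 : ℝ)) (fun i => |x i|)
  simp only [one_mul, one_pow, sq_abs, Finset.sum_const, nsmul_eq_mul, mul_one] at h
  have h2 : (∑ i ∈ S, |x i|) ^ 2 ≤ m * B := by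
    refine h.trans ?_
    exact mul_le_mul hm hB (Finset.sum_nonneg (fun i _ => sq_nonneg _)) hm0
  rw [← Real.sqrt_mul hm0]
  exact Real.le_sqrt_of_sq_le h2

theorem V1_pt {w : Om L → ℝ} (hw : IsPr w) {n : ℕ} (hn : n < L) {a : ℕ → ℕ → Om L → ℝ}
    (ha : ∀ s t ω, |a s t ω| ≤ 1) (l : ℕ) (ω : Om L) :
    |V1 w a n l ω| ≤ 2 * Real.sqrt (n + 1) * Real.sqrt (nb w ω) := by
  have h1 : |V1 w a n l ω| ≤ ∑ s ∈ range (n + 1 - l), 2 * |bx w s ω| := by
    unfold V1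
    rw [abs_neg]
    refine (Finset.abs_sum_le_sum_abs _ _).trans (Finset.sum_le_sum (fun s _ => ?_))
    rw [abs_mul, abs_mul]
    have e1 := ha s (n - l - s) ω
    have e2 := abs_xi_le hw (n - l - s) ω
    have e3 := abs_nonneg (bx w s ω)
    have e4 := abs_nonneg (a s (n - l - s) ω)
    calc |a s (n - l - s) ω| * |bx w s ω| * |xi w (n - l - s) ω|
        ≤ 1 * |bx w s ω| * 2 := by gcongr
      _ = 2 * |bx w s ω| := by ring
  rw [← Finset.mul_sum] at h1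
  have h2 : ∑ s ∈ range (n + 1 - l), |bx w s ω| ≤ Real.sqrt (n + 1) * Real.sqrt (nb w ω) := by
    refine sum_abs_le_sqrt _ _ ?_ ?_
    · rw [card_range]
      have : n + 1 - l ≤ n + 1 := Nat.sub_le _ _
      exact_mod_cast this
    · unfold nb
      refine Finset.sum_le_sum_of_subset_of_nonneg ?_ (fun i _ _ => sq_nonneg _)
      intro i hi
      rw [mem_range] at hi ⊢
      omega
  calc |V1 w a n l ω| ≤ 2 * ∑ s ∈ range (n + 1 - l), |bx w s ω| := h1
    _ ≤ 2 * (Real.sqrt (n + 1) * Real.sqrt (nb w ω)) := by gcongr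
    _ = _ := by ring

/-- the squares of the corrections along the antidiagonals -/
lemma cc_anti_le (w : Om L → ℝ) {n : ℕ} (hn : n < L) (ω : Om L) :
    ∑ l ∈ range (n + 1), ∑ s ∈ range (n + 1 - l), cc w s (n - l - s) ω ^ 2 ≤ ncc w ω := by
  unfold ncc
  rw [← Finset.sum_product', Finset.sum_sigma']
  have hinj : Set.InjOn (fun p : (_ : ℕ) × ℕ => (p.2, n - p.1 - p.2))
      ((range (n + 1)).sigma (fun l => range (n + 1 - l)) : Finset ((_ : ℕ) × ℕ)) := by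
    rintro ⟨l, s⟩ h1 ⟨l', s'⟩ h2 h3
    simp only [coe_sigma, Set.mem_sigma_iff, Finset.mem_coe, mem_range, Prod.mk.injEq] at h1 h2 h3
    obtain ⟨h3, h4⟩ := h3
    subst h3
    have : l = l' := by omega
    subst this
    rfl
  have h1 : ∑ p ∈ (range (n + 1)).sigma (fun l => range (n + 1 - l)),
      cc w p.2 (n - p.1 - p.2) ω ^ 2 =
      ∑ q ∈ ((range (n + 1)).sigma (fun l => range (n + 1 - l))).image
        (fun p : (_ : ℕ) × ℕ => (p.2, n - p.1 - p.2)), cc w q.1 q.2 ω ^ 2 := by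
    rw [Finset.sum_image hinj]
  rw [h1]
  refine Finset.sum_le_sum_of_subset_of_nonneg ?_ (fun i _ _ => sq_nonneg _)
  intro q hq
  rw [mem_image] at hq
  obtain ⟨⟨l, s⟩, hp, rfl⟩ := hq
  simp only [mem_sigma, mem_range] at hp
  simp only [mem_product, mem_range]
  omega

theorem V2_pt {w : Om L → ℝ} {n : ℕ} (hn : n < L) {a : ℕ → ℕ → Om L → ℝ}
    (ha : ∀ s t ω, |a s t ω| ≤ 1) (l : ℕ) (ω : Om L) :
    |V2 w a n l ω| ≤ Real.sqrt (n + 1) * Real.sqrt (ncc w ω) := by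
  have h1 : |V2 w a n l ω| ≤ ∑ s ∈ range (n + 1 - l), |cc w s (n - l - s) ω| := by
    unfold V2
    refine (Finset.abs_sum_le_sum_abs _ _).trans (Finset.sum_le_sum (fun s _ => ?_))
    rw [abs_mul]
    have e1 := ha s (n - l - s) ω
    have e3 := abs_nonneg (cc w s (n - l - s) ω)
    calc |a s (n - l - s) ω| * |cc w s (n - l - s) ω| ≤ 1 * |cc w s (n - l - s) ω| := by gcongr
      _ = _ := one_mul _
  refine h1.trans (sum_abs_le_sqrt _ _ ?_ ?_)
  · rw [card_range]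
    have : n + 1 - l ≤ n + 1 := Nat.sub_le _ _
    exact_mod_cast this
  · by_cases hl : l ∈ range (n + 1)
    · refine le_trans ?_ (cc_anti_le w hn ω)
      exact Finset.single_le_sum
        (f := fun l => ∑ s ∈ range (n + 1 - l), cc w s (n - l - s) ω ^ 2)
        (fun i _ => Finset.sum_nonneg (fun s _ => sq_nonneg _)) hl
    · rw [mem_range, not_lt] at hl
      have : n + 1 - l = 0 := by omega
      rw [this, range_zero, Finset.sum_empty]
      unfold ncc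
      exact Finset.sum_nonneg (fun s _ => Finset.sum_nonneg (fun t _ => sq_nonneg _))

theorem V2_sum {w : Om L → ℝ} {n : ℕ} (hn : n < L) {a : ℕ → ℕ → Om L → ℝ}
    (ha : ∀ s t ω, |a s t ω| ≤ 1) (ω : Om L) :
    ∑ l ∈ range (n + 1), V2 w a n l ω ^ 2 ≤ (n + 1) * ncc w ω := by
  have h1 : ∀ l ∈ range (n + 1), V2 w a n l ω ^ 2 ≤
      (n + 1) * ∑ s ∈ range (n + 1 - l), cc w s (n - l - s) ω ^ 2 := by
    intro l _
    have e0 : |V2 w a n l ω| ≤ ∑ s ∈ range (n + 1 - l), |cc w s (n - l - s) ω| := by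
      unfold V2
      refine (Finset.abs_sum_le_sum_abs _ _).trans (Finset.sum_le_sum (fun s _ => ?_))
      rw [abs_mul]
      have e1 := ha s (n - l - s) ω
      have e3 := abs_nonneg (cc w s (n - l - s) ω)
      calc |a s (n - l - s) ω| * |cc w s (n - l - s) ω| ≤ 1 * |cc w s (n - l - s) ω| := by gcongr
        _ = _ := one_mul _
    have e1 : |V2 w a n l ω| ≤ Real.sqrt (n + 1) *
        Real.sqrt (∑ s ∈ range (n + 1 - l), cc w s (n - l - s) ω ^ 2) := by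
      refine e0.trans (sum_abs_le_sqrt _ _ ?_ le_rfl)
      rw [card_range]
      have : n + 1 - l ≤ n + 1 := Nat.sub_le _ _
      exact_mod_cast this
    have e2 : (0 : ℝ) ≤ ∑ s ∈ range (n + 1 - l), cc w s (n - l - s) ω ^ 2 :=
      Finset.sum_nonneg (fun s _ => sq_nonneg _)
    have e3 : (0 : ℝ) ≤ (n : ℝ) + 1 := by positivity
    calc V2 w a n l ω ^ 2 = |V2 w a n l ω| ^ 2 := (sq_abs _).symm
      _ ≤ (Real.sqrt (n + 1) *
        Real.sqrt (∑ s ∈ range (n + 1 - l), cc w s (n - l - s) ω ^ 2)) ^ 2 := by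
          gcongr
      _ = _ := by rw [mul_pow, Real.sq_sqrt e3, Real.sq_sqrt e2]
  calc ∑ l ∈ range (n + 1), V2 w a n l ω ^ 2
      ≤ ∑ l ∈ range (n + 1), (n + 1) * ∑ s ∈ range (n + 1 - l), cc w s (n - l - s) ω ^ 2 :=
        Finset.sum_le_sum h1
    _ = (n + 1) * ∑ l ∈ range (n + 1), ∑ s ∈ range (n + 1 - l), cc w s (n - l - s) ω ^ 2 := by
        rw [Finset.mul_sum]
    _ ≤ (n + 1) * ncc w ω := by
        have := cc_anti_le w hn ω
        gcongr

/-! ### the second moment of `V1` -/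

/-- the matrix `W_{sl}` -/
noncomputable def WW (w : Om L → ℝ) (a : ℕ → ℕ → Om L → ℝ) (n s l : ℕ) (ω : Om L) : ℝ :=
  if s + l ≤ n then a s (n - l - s) ω * xi w (n - l - s) ω else 0

lemma V1_eq_WW (w : Om L → ℝ) (a : ℕ → ℕ → Om L → ℝ) {n l : ℕ} (hl : l ≤ n) (ω : Om L) :
    V1 w a n l ω = - ∑ s ∈ range (n + 1), bx w s ω * WW w a n s l ω := by
  unfold V1
  congr 1
  have hsub : range (n + 1 - l) ⊆ range (n + 1) := by
    intro i hi
    rw [mem_range] at hi ⊢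
    omega
  rw [← Finset.sum_subset hsub]
  · refine Finset.sum_congr rfl (fun s hs => ?_)
    rw [mem_range] at hs
    unfold WW
    rw [if_pos (by omega)]
    ring
  · intro s _ hs
    rw [mem_range, not_lt] at hs
    unfold WW
    rw [if_neg (by omega), mul_zero]

lemma abs_WW_le {w : Om L → ℝ} (hw : IsPr w) {a : ℕ → ℕ → Om L → ℝ}
    (ha : ∀ s t ω, |a s t ω| ≤ 1) (n s l : ℕ) (ω : Om L) : |WW w a n s l ω| ≤ 2 := by
  unfold WW
  split_ifs
  · rw [abs_mul]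
    have e1 := ha s (n - l - s) ω
    have e2 := abs_xi_le hw (n - l - s) ω
    calc |a s (n - l - s) ω| * |xi w (n - l - s) ω| ≤ 1 * 2 := by
          gcongr
      _ = 2 := by norm_num
  · simp

lemma meas_WW (w : Om L → ℝ) {a : ℕ → ℕ → Om L → ℝ} (hm : ∀ s t, Meas ![s, t, L] (a s t))
    {n s l T : ℕ} (hn : n < L) (hT : s + l ≤ n → n - l - s < T) :
    Meas ![L, T, L] (WW w a n s l) := by
  by_cases h : s + l ≤ n
  · have e : WW w a n s l = fun ω => a s (n - l - s) ω * xi w (n - l - s) ω := by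
      funext ω; unfold WW; rw [if_pos h]
    rw [e]
    have h1 := hT h
    exact ((hm s (n - l - s)).mono (mono3 (by omega) (by omega) le_rfl)).mul
      ((meas_xi w (n - l - s)).mono (mono3 le_rfl (by omega) le_rfl))
  · have e : WW w a n s l = fun _ => 0 := by
      funext ω; unfold WW; rw [if_neg h]
    rw [e]
    exact meas_const _ _

lemma WW_orth {w : Om L → ℝ} (hw : IsPr w) {a : ℕ → ℕ → Om L → ℝ}
    (hm : ∀ s t, Meas ![s, t, L] (a s t)) {n s s' l l' : ℕ} (hn : n < L) (hs : s < s')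
    (hl : l < l') :
    Ex w (fun ω => (WW w a n s l ω * WW w a n s' l ω) * (WW w a n s l' ω * WW w a n s' l' ω)) = 0 := by
  by_cases h : s + l ≤ n
  · have e : ∀ ω, (WW w a n s l ω * WW w a n s' l ω) * (WW w a n s l' ω * WW w a n s' l' ω) =
        xi w (n - l - s) ω * (a s (n - l - s) ω *
          (WW w a n s' l ω * (WW w a n s l' ω * WW w a n s' l' ω))) := by
      intro ω
      have : WW w a n s l ω = a s (n - l - s) ω * xi w (n - l - s) ω := by
        unfold WW; rw [if_pos h]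
      rw [this]; ring
    rw [Ex_congr w e]
    refine xi_orth hw ?_
    refine Meas.mul ((hm s (n - l - s)).mono (mono3 (by omega) le_rfl le_rfl)) (Meas.mul ?_ (Meas.mul ?_ ?_))
    · exact meas_WW w hm hn (fun h' => by omega)
    · exact meas_WW w hm hn (fun h' => by omega)
    · exact meas_WW w hm hn (fun h' => by omega)
  · have e : ∀ ω, (WW w a n s l ω * WW w a n s' l ω) * (WW w a n s l' ω * WW w a n s' l' ω) = 0 := by
      intro ω
      have : WW w a n s l ω = 0 := by unfold WW; rw [if_neg h]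
      rw [this]; ring
    rw [Ex_congr w e, Ex_const hw.one]

lemma Ex_sum_sq_orth {ι : Type*} [DecidableEq ι] (w : Om L → ℝ) (S : Finset ι) (g : ι → Om L → ℝ)
    (h : ∀ i ∈ S, ∀ j ∈ S, i ≠ j → Ex w (fun ω => g i ω * g j ω) = 0) :
    Ex w (fun ω => (∑ i ∈ S, g i ω) ^ 2) = ∑ i ∈ S, Ex w (fun ω => g i ω ^ 2) := by
  have e : ∀ ω, (∑ i ∈ S, g i ω) ^ 2 = ∑ i ∈ S, ∑ j ∈ S, g i ω * g j ω := by
    intro ω; rw [sq, Finset.sum_mul_sum]
  rw [Ex_congr w e, Ex_sum]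
  refine Finset.sum_congr rfl (fun i hi => ?_)
  rw [Ex_sum, Finset.sum_eq_single i]
  · exact Ex_congr w (fun ω => (sq _).symm)
  · intro j hj hji
    exact h i hi j hj (Ne.symm hji)
  · intro h'; exact absurd hi h'

/-- the entries of `W Wᵀ` -/
noncomputable def MM (w : Om L → ℝ) (a : ℕ → ℕ → Om L → ℝ) (n s s' : ℕ) (ω : Om L) : ℝ :=
  ∑ l ∈ range (n + 1), WW w a n s l ω * WW w a n s' l ω

lemma WW_mul_sq_le {w : Om L → ℝ} (hw : IsPr w) {a : ℕ → ℕ → Om L → ℝ}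
    (ha : ∀ s t ω, |a s t ω| ≤ 1) (n s s' l : ℕ) (ω : Om L) :
    (WW w a n s l ω * WW w a n s' l ω) ^ 2 ≤ 16 := by
  have h1 := abs_WW_le hw ha n s l ω
  have h2 := abs_WW_le hw ha n s' l ω
  have h3 : |WW w a n s l ω * WW w a n s' l ω| ≤ 4 := by
    rw [abs_mul]
    calc |WW w a n s l ω| * |WW w a n s' l ω| ≤ 2 * 2 := by gcongr
      _ = 4 := by norm_num
  calc (WW w a n s l ω * WW w a n s' l ω) ^ 2 = |WW w a n s l ω * WW w a n s' l ω| ^ 2 :=
        (sq_abs _).symm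
    _ ≤ 4 ^ 2 := by gcongr
    _ = 16 := by norm_num

lemma MM_lt_le {w : Om L → ℝ} (hw : IsPr w) {a : ℕ → ℕ → Om L → ℝ}
    (ha : ∀ s t ω, |a s t ω| ≤ 1) (hm : ∀ s t, Meas ![s, t, L] (a s t)) {n s s' : ℕ}
    (hn : n < L) (hs : s < s') :
    Ex w (fun ω => MM w a n s s' ω ^ 2) ≤ 16 * (n + 1) := by
  unfold MM
  rw [Ex_sum_sq_orth]
  · calc ∑ i ∈ range (n + 1), Ex w (fun ω => (WW w a n s i ω * WW w a n s' i ω) ^ 2)
        ≤ ∑ i ∈ range (n + 1), (16 : ℝ) :=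
          Finset.sum_le_sum (fun i _ => Ex_le_of_le hw (fun ω => WW_mul_sq_le hw ha n s s' i ω))
      _ = 16 * (n + 1) := by
          rw [Finset.sum_const, card_range, nsmul_eq_mul]; push_cast; ring
  · intro i _ j _ hij
    rcases lt_or_gt_of_ne hij with h | h
    · exact WW_orth hw hm hn hs h
    · have := WW_orth hw hm hn hs h
      rw [← this]
      exact Ex_congr w (fun ω => by ring)

lemma MM_comm (w : Om L → ℝ) (a : ℕ → ℕ → Om L → ℝ) (n s s' : ℕ) (ω : Om L) :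
    MM w a n s s' ω = MM w a n s' s ω := by
  unfold MM
  exact Finset.sum_congr rfl (fun l _ => mul_comm _ _)

lemma MM_diag_le {w : Om L → ℝ} (hw : IsPr w) {a : ℕ → ℕ → Om L → ℝ}
    (ha : ∀ s t ω, |a s t ω| ≤ 1) (n s : ℕ) :
    Ex w (fun ω => MM w a n s s ω ^ 2) ≤ 16 * (n + 1) ^ 2 := by
  refine Ex_le_of_le hw (fun ω => ?_)
  have h1 : |MM w a n s s ω| ≤ 4 * (n + 1) := by
    unfold MM
    refine (Finset.abs_sum_le_sum_abs _ _).trans ?_
    calc ∑ i ∈ range (n + 1), |WW w a n s i ω * WW w a n s i ω|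
        ≤ ∑ i ∈ range (n + 1), (4 : ℝ) := by
          refine Finset.sum_le_sum (fun i _ => ?_)
          have h1 := abs_WW_le hw ha n s i ω
          rw [abs_mul]
          calc |WW w a n s i ω| * |WW w a n s i ω| ≤ 2 * 2 := by gcongr
            _ = 4 := by norm_num
      _ = 4 * (n + 1) := by
          rw [Finset.sum_const, card_range, nsmul_eq_mul]; push_cast; ring
  calc MM w a n s s ω ^ 2 = |MM w a n s s ω| ^ 2 := (sq_abs _).symm
    _ ≤ (4 * (n + 1)) ^ 2 := by gcongr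
    _ = 16 * (n + 1) ^ 2 := by ring

lemma MM_sum_le {w : Om L → ℝ} (hw : IsPr w) {a : ℕ → ℕ → Om L → ℝ}
    (ha : ∀ s t ω, |a s t ω| ≤ 1) (hm : ∀ s t, Meas ![s, t, L] (a s t)) {n : ℕ} (hn : n < L) :
    Ex w (fun ω => ∑ s ∈ range (n + 1), ∑ s' ∈ range (n + 1), MM w a n s s' ω ^ 2) ≤
      32 * (n + 1) ^ 3 := by
  rw [Ex_sum]
  have h1 : ∀ s ∈ range (n + 1), Ex w (fun ω => ∑ s' ∈ range (n + 1), MM w a n s s' ω ^ 2) ≤
      32 * (n + 1) ^ 2 := by
    intro s hs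
    rw [Ex_sum, ← Finset.add_sum_erase _ _ hs]
    have h2 := MM_diag_le hw ha n s
    have h3 : ∑ s' ∈ (range (n + 1)).erase s, Ex w (fun ω => MM w a n s s' ω ^ 2) ≤
        ∑ s' ∈ (range (n + 1)).erase s, (16 * (n + 1) : ℝ) := by
      refine Finset.sum_le_sum (fun s' hs' => ?_)
      have hne : s' ≠ s := (mem_erase.1 hs').1
      rcases lt_or_gt_of_ne hne with h | h
      · rw [Ex_congr w (fun ω => by rw [MM_comm])]
        exact MM_lt_le hw ha hm hn h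
      · exact MM_lt_le hw ha hm hn h
    rw [Finset.sum_const, Finset.card_erase_of_mem hs, card_range, nsmul_eq_mul] at h3
    have h4 : ((n + 1 - 1 : ℕ) : ℝ) = n := by simp
    rw [h4] at h3
    have h5 : (0 : ℝ) ≤ n := Nat.cast_nonneg n
    nlinarith
  calc ∑ s ∈ range (n + 1), Ex w (fun ω => ∑ s' ∈ range (n + 1), MM w a n s s' ω ^ 2)
      ≤ ∑ s ∈ range (n + 1), (32 * (n + 1) ^ 2 : ℝ) := Finset.sum_le_sum h1
    _ = 32 * (n + 1) ^ 3 := by
      rw [Finset.sum_const, card_range, nsmul_eq_mul]; push_cast; ring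

lemma V1_pointwise {w : Om L → ℝ} {n : ℕ} (hn : n < L) (a : ℕ → ℕ → Om L → ℝ) (ω : Om L) :
    ∑ l ∈ range (n + 1), V1 w a n l ω ^ 2 ≤ nb w ω *
      Real.sqrt (∑ s ∈ range (n + 1), ∑ s' ∈ range (n + 1), MM w a n s s' ω ^ 2) := by
  have e1 : ∑ l ∈ range (n + 1), V1 w a n l ω ^ 2 =
      ∑ s ∈ range (n + 1), ∑ s' ∈ range (n + 1), (bx w s ω * bx w s' ω) * MM w a n s s' ω := by
    have h1 : ∀ l ∈ range (n + 1), V1 w a n l ω ^ 2 =
        ∑ s ∈ range (n + 1), ∑ s' ∈ range (n + 1),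
          (bx w s ω * bx w s' ω) * (WW w a n s l ω * WW w a n s' l ω) := by
      intro l hl
      rw [V1_eq_WW w a (Nat.lt_succ_iff.1 (mem_range.1 hl)), neg_sq, sq, Finset.sum_mul_sum]
      exact Finset.sum_congr rfl (fun s _ => Finset.sum_congr rfl (fun s' _ => by ring))
    rw [Finset.sum_congr rfl h1, Finset.sum_comm]
    refine Finset.sum_congr rfl (fun s _ => ?_)
    rw [Finset.sum_comm]
    refine Finset.sum_congr rfl (fun s' _ => ?_)
    unfold MM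
    rw [Finset.mul_sum]
  rw [e1, ← Finset.sum_product', ← Finset.sum_product']
  have hnb : ∑ p ∈ range (n + 1) ×ˢ range (n + 1), (bx w p.1 ω * bx w p.2 ω) ^ 2 ≤ nb w ω ^ 2 := by
    have e2 : ∑ p ∈ range (n + 1) ×ˢ range (n + 1), (bx w p.1 ω * bx w p.2 ω) ^ 2 =
        (∑ s ∈ range (n + 1), bx w s ω ^ 2) * (∑ s ∈ range (n + 1), bx w s ω ^ 2) := by
      rw [Finset.sum_mul_sum, ← Finset.sum_product']
      exact Finset.sum_congr rfl (fun p _ => by ring)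
    have h0 : (0 : ℝ) ≤ ∑ s ∈ range (n + 1), bx w s ω ^ 2 :=
      Finset.sum_nonneg (fun s _ => sq_nonneg _)
    have h2 : ∑ s ∈ range (n + 1), bx w s ω ^ 2 ≤ nb w ω := by
      unfold nb
      refine Finset.sum_le_sum_of_subset_of_nonneg ?_ (fun i _ _ => sq_nonneg _)
      intro i hi
      rw [mem_range] at hi ⊢
      omega
    rw [e2, sq (nb w ω)]
    exact mul_le_mul h2 h2 h0 (h0.trans h2)
  have hnb0 : 0 ≤ nb w ω := by
    unfold nb; exact Finset.sum_nonneg (fun s _ => sq_nonneg _)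
  have hcs := Finset.sum_mul_sq_le_sq_mul_sq (range (n + 1) ×ˢ range (n + 1))
    (fun p => bx w p.1 ω * bx w p.2 ω) (fun p => MM w a n p.1 p.2 ω)
  have hM0 : (0 : ℝ) ≤ ∑ p ∈ range (n + 1) ×ˢ range (n + 1), MM w a n p.1 p.2 ω ^ 2 :=
    Finset.sum_nonneg (fun s _ => sq_nonneg _)
  refine le_trans (le_abs_self _) ?_
  have h3 : (∑ p ∈ range (n + 1) ×ˢ range (n + 1), bx w p.1 ω * bx w p.2 ω * MM w a n p.1 p.2 ω) ^ 2
      ≤ (nb w ω * Real.sqrt (∑ p ∈ range (n + 1) ×ˢ range (n + 1), MM w a n p.1 p.2 ω ^ 2)) ^ 2 := by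
    rw [mul_pow, Real.sq_sqrt hM0]
    exact hcs.trans (mul_le_mul_of_nonneg_right hnb hM0)
  exact abs_le_of_sq_le_sq h3 (mul_nonneg hnb0 (Real.sqrt_nonneg _))

theorem V1_sum {w : Om L → ℝ} (hw : IsPr w) {n : ℕ} (hn : n < L) {a : ℕ → ℕ → Om L → ℝ}
    (ha : ∀ s t ω, |a s t ω| ≤ 1) (hm : ∀ s t, Meas ![s, t, L] (a s t)) :
    Ex w (fun ω => ∑ l ∈ range (n + 1), V1 w a n l ω ^ 2) ≤
      Real.sqrt (Ex w (fun ω => nb w ω ^ 2)) * Real.sqrt (32 * (n + 1) ^ 3) := by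
  have h1 := Ex_mono hw.nonneg (fun ω => V1_pointwise (w := w) hn a ω)
  have h2 := abs_Ex_mul_le hw.nonneg (nb w)
    (fun ω => Real.sqrt (∑ s ∈ range (n + 1), ∑ s' ∈ range (n + 1), MM w a n s s' ω ^ 2))
  have h3 : Ex w (fun ω => Real.sqrt (∑ s ∈ range (n + 1), ∑ s' ∈ range (n + 1),
      MM w a n s s' ω ^ 2) ^ 2) ≤ 32 * (n + 1) ^ 3 := by
    refine le_trans (le_of_eq ?_) (MM_sum_le hw ha hm hn)
    exact Ex_congr w (fun ω => Real.sq_sqrt (Finset.sum_nonneg (fun s _ =>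
      Finset.sum_nonneg (fun s' _ => sq_nonneg _))))
  calc Ex w (fun ω => ∑ l ∈ range (n + 1), V1 w a n l ω ^ 2) ≤ _ := h1
    _ ≤ _ := le_abs_self _
    _ ≤ _ := h2
    _ ≤ _ := by
      gcongr

end Disc3
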