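import Pool.Agent.Work.MP_d500f7_co.Beta
import Pool.Agent.Work.MP_d500f7_co.VBound
import Pool.Agent.Work.MP_d500f7_co.Phi
import Pool.Agent.Work.MP_d500f7_co.Tilt2
import Pool.Agent.Work.MP_d500f7_co.Lower
import Pool.Agent.Work.MP_d500f7_co.Energy
import Pool.Agent.Work.MP_d500f7_co.Limit
import Pool.Agent.Work.MP_d500f7_co.Boxes
import Pool.Agent.Work.MP_d500f7_co.YId

namespace Disc3

open Finset

variable {L : ℕ}

/-! ### combinatorics of the index set -/

/-- the index pairs `(s,t)` -/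
def Sx (n j : ℕ) : Finset (ℕ × ℕ) :=
  (range (n + 2) ×ˢ range (n + 2)).filter (fun p => j ≤ p.1 ∧ p.1 + p.2 ≤ n)

lemma card_Sx {n j m : ℕ} (h : j + 2 * m ≤ n) : m ^ 2 ≤ (Sx n j).card := by
  have h1 : (range m ×ˢ range m).image (fun p : ℕ × ℕ => (p.1 + j, p.2)) ⊆ Sx n j := by
    intro p hp
    simp only [mem_image, mem_product, mem_range, Prod.exists] at hp
    obtain ⟨a, b, ⟨ha, hb⟩, rfl⟩ := hp
    simp only [Sx, mem_filter, mem_product, mem_range]
    omega
  have h2 : ((range m ×ˢ range m).image (fun p : ℕ × ℕ => (p.1 + j, p.2))).card = m ^ 2 := by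
    rw [Finset.card_image_of_injective, card_product, card_range, sq]
    intro p q hpq
    simp only [Prod.mk.injEq] at hpq
    exact Prod.ext (by omega) hpq.2
  rw [← h2]
  exact Finset.card_le_card h1

lemma reindex (n : ℕ) (F : ℕ → ℕ → ℕ → ℝ) :
    ∑ l ∈ range (n + 1), ∑ s ∈ range (n + 1 - l), F l s (n - l - s) =
      ∑ p ∈ (range (n + 2) ×ˢ range (n + 2)).filter (fun p => p.1 + p.2 ≤ n),
        F (n - p.1 - p.2) p.1 p.2 := by
  rw [Finset.sum_sigma']
  refine Finset.sum_nbij' (fun x => (x.2, n - x.1 - x.2)) (fun p => ⟨n - p.1 - p.2, p.1⟩) ?_ ?_ ?_ ?_ ?_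
  · intro x hx
    simp only [mem_sigma, mem_range] at hx
    simp only [mem_filter, mem_product, mem_range]
    omega
  · intro p hp
    simp only [mem_filter, mem_product, mem_range] at hp
    simp only [mem_sigma, mem_range]
    omega
  · intro x hx
    simp only [mem_sigma, mem_range] at hx
    have : n - x.2 - (n - x.1 - x.2) = x.1 := by omega
    simp only [this]
  · intro p hp
    simp only [mem_filter, mem_product, mem_range] at hp
    have : n - (n - p.1 - p.2) - p.1 = p.2 := by omega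
    simp only [this]
  · intro x hx
    simp only [mem_sigma, mem_range] at hx
    have : n - x.2 - (n - x.1 - x.2) = x.1 := by omega
    simp only [this]

lemma diag_le {n s : ℕ} {g : ℕ → ℝ} (hg : ∀ l, 0 ≤ g l) :
    ∑ t ∈ range (n + 2), (if s + t ≤ n then g (n - s - t) else 0) ≤
      if s ≤ n then ∑ l ∈ range (n + 2), g l else 0 := by
  split_ifs with hs
  · rw [← Finset.sum_filter]
    have h1 : (range (n + 2)).filter (fun t => s + t ≤ n) = range (n - s + 1) := by
      ext t; simp only [mem_filter, mem_range]; omega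
    rw [h1]
    have h2 : ∑ t ∈ range (n - s + 1), g (n - s - t) = ∑ t ∈ range (n - s + 1), g t := by
      have := Finset.sum_range_reflect g (n - s + 1)
      simpa using this
    rw [h2]
    exact Finset.sum_le_sum_of_subset_of_nonneg
      (fun t ht => by simp only [mem_range] at ht ⊢; omega) (fun l _ _ => hg l)
  · refine le_of_eq (Finset.sum_eq_zero (fun t _ => ?_))
    rw [if_neg (by omega)]

/-- windows: `∑_s ∑_{i ∈ [s-j, s)} b i ≤ j ∑ b i` -/
lemma window_sum {n j : ℕ} {b : ℕ → ℝ} (hb : ∀ i, 0 ≤ b i) :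
    ∑ s ∈ range (n + 1), ∑ i ∈ Ico (s - j) s, b i ≤ j * ∑ i ∈ range (n + 2), b i := by
  have h1 : ∑ s ∈ range (n + 1), ∑ i ∈ Ico (s - j) s, b i =
      ∑ i ∈ range (n + 2), ∑ s ∈ (range (n + 1)).filter (fun s => s - j ≤ i ∧ i < s), b i := by
    refine Finset.sum_comm' (fun s i => ?_)
    simp only [mem_range, mem_Ico, mem_filter]
    omega
  rw [h1, Finset.mul_sum]
  refine Finset.sum_le_sum (fun i _ => ?_)
  rw [Finset.sum_const, nsmul_eq_mul]
  refine mul_le_mul_of_nonneg_right ?_ (hb i)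
  have h2 : (range (n + 1)).filter (fun s => s - j ≤ i ∧ i < s) ⊆ Ioc i (i + j) := by
    intro s hs
    simp only [mem_filter, mem_range] at hs
    simp only [mem_Ioc]
    omega
  have h3 := Finset.card_le_card h2
  rw [Nat.card_Ioc] at h3
  exact_mod_cast (by omega : _ ≤ j)

/-! ### the sign weights -/

/-- `a_{st} = - e_{st}` on the index set -/
noncomputable def aw {N : ℕ} (u : Fin N → Fin 3 → ℝ) (n j s t : ℕ) (ω : Om (n + 2)) : ℝ :=
  if j ≤ s ∧ s + t ≤ n then - em u s t (n - s - t) ω else 0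

lemma em_cases {N : ℕ} (u : Fin N → Fin 3 → ℝ) (s t l : ℕ) (ω : Om L) :
    em u s t l ω = 0 ∨ (em u s t l ω = 1 ∧ ∀ i, ¬ inBox ![s, t, l] ω (u i)) := by
  classical
  unfold em
  by_cases h : ∃ i, inBox ![s, t, l] ω (u i)
  · left; rw [if_pos h]
  · right; rw [if_neg h]; exact ⟨rfl, fun i hi => h ⟨i, hi⟩⟩

lemma em_nonneg {N : ℕ} (u : Fin N → Fin 3 → ℝ) (s t l : ℕ) (ω : Om L) : 0 ≤ em u s t l ω := by
  rcases em_cases u s t l ω with h | h
  · rw [h]
  · rw [h.1]; norm_num

lemma em_le_one {N : ℕ} (u : Fin N → Fin 3 → ℝ) (s t l : ℕ) (ω : Om L) : em u s t l ω ≤ 1 := by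
  rcases em_cases u s t l ω with h | h
  · rw [h]; norm_num
  · rw [h.1]

lemma aw_abs {N : ℕ} (u : Fin N → Fin 3 → ℝ) (n j s t : ℕ) (ω : Om (n + 2)) :
    |aw u n j s t ω| ≤ 1 := by
  unfold aw
  split_ifs
  · rw [abs_neg, abs_of_nonneg (em_nonneg _ _ _ _ _)]; exact em_le_one _ _ _ _ _
  · simp

lemma aw_meas {N : ℕ} (u : Fin N → Fin 3 → ℝ) (n j s t : ℕ) :
    Meas ![s, t, n + 2] (aw u n j s t) := by
  unfold aw
  split_ifs with h
  · exact ((em_meas u s t (n - s - t)).mono (mono3 le_rfl le_rfl (by omega))).neg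
  · exact meas_const _ 0

end Disc3
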