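import Pool.Agent.Work.MP_d500f7_co.Asm1

namespace Disc3

open Finset

variable {N : ℕ} {u : Fin N → Fin 3 → ℝ} {n j : ℕ}

lemma piece_identity (hu : ∀ i c, 0 ≤ u i c ∧ u i c < 1) {s t : ℕ} (h : j ≤ s ∧ s + t ≤ n)
    (ω : Om (n + 2)) :
    Gd (fD u) (n + 2) (n + 2) (n - s - t) ω * aw u n j s t ω =
      Gd (fD u) s (n + 2) (n - s - t) ω * aw u n j s t ω
      + Gd (fD u) (n + 2) t (n - s - t) ω * aw u n j s t ω
      - Gd (fD u) s t (n - s - t) ω * aw u n j s t ω
      + (N * (1 / 2 : ℝ) ^ (n + 2)) * (em u s t (n - s - t) ω * uu 0 s ω * uu 1 t ω) := by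
  have ha : aw u n j s t ω = - em u s t (n - s - t) ω := by unfold aw; rw [if_pos h]
  rw [ha]
  rcases em_cases u s t (n - s - t) ω with h0 | ⟨h1, hb⟩
  · rw [h0]; ring
  · have hY := Y_identity hu (L := n + 2) (s := s) (t := t) (l := n - s - t) (by omega) (by omega)
      (by omega) ω hb
    have e : s + t + (n - s - t) + 2 = n + 2 := by omega
    rw [e] at hY
    rw [h1, hY]; ring

lemma total_eq (w f : Om (n + 2) → ℝ) :
    ∑ l ∈ range (n + 1), Ex w (fun ω => Gd f (n + 2) (n + 2) l ω *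
        (V0 w (aw u n j) n l ω + V1 w (aw u n j) n l ω + V2 w (aw u n j) n l ω)) =
      ∑ p ∈ Sx n j, Ex w (fun ω => Gd f (n + 2) (n + 2) (n - p.1 - p.2) ω *
        aw u n j p.1 p.2 ω * phi w p.1 p.2 ω) := by
  have h1 : ∀ l ∈ range (n + 1), Ex w (fun ω => Gd f (n + 2) (n + 2) l ω *
        (V0 w (aw u n j) n l ω + V1 w (aw u n j) n l ω + V2 w (aw u n j) n l ω)) =
      ∑ s ∈ range (n + 1 - l), Ex w (fun ω => Gd f (n + 2) (n + 2) l ω *
        aw u n j s (n - l - s) ω * phi w s (n - l - s) ω) := by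
    intro l _
    rw [← Ex_sum]
    refine Ex_congr w (fun ω => ?_)
    rw [← V_split, Finset.mul_sum]
    exact Finset.sum_congr rfl (fun s _ => by ring)
  rw [Finset.sum_congr rfl h1, reindex n (fun l s t => Ex w (fun ω => Gd f (n + 2) (n + 2) l ω *
        aw u n j s t ω * phi w s t ω))]
  symm
  refine Finset.sum_subset ?_ ?_
  · intro p hp
    simp only [Sx, mem_filter, mem_product, mem_range] at hp ⊢
    omega
  · intro p hp hp'
    have hz : ¬ (j ≤ p.1 ∧ p.1 + p.2 ≤ n) := by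
      intro hc
      apply hp'
      simp only [Sx, mem_filter, mem_product, mem_range] at hp ⊢
      omega
    have : ∀ ω, aw u n j p.1 p.2 ω = 0 := fun ω => by unfold aw; rw [if_neg hz]
    simp only [this, mul_zero, zero_mul]
    simp [Ex]

lemma sum_Sx_eq (F : ℕ → ℕ → ℝ) (hF : ∀ s t, ¬ (j ≤ s ∧ s + t ≤ n) → F s t = 0) :
    ∑ p ∈ Sx n j, F p.1 p.2 = ∑ s ∈ range (n + 2), ∑ t ∈ range (n + 2), F s t := by
  rw [← Finset.sum_product' (range (n + 2)) (range (n + 2)) F]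
  refine Finset.sum_subset (Finset.filter_subset _ _) ?_
  intro p hp hp'
  apply hF
  intro hc
  apply hp'
  simp only [Sx, mem_filter]
  exact ⟨hp, hc⟩

lemma sum_Sx_le (F : ℕ → ℕ → ℝ) (hF : ∀ s t, 0 ≤ F s t) :
    ∑ p ∈ Sx n j, F p.1 p.2 ≤ ∑ s ∈ range (n + 1), ∑ t ∈ range (n + 1), F s t := by
  rw [← Finset.sum_product' (range (n + 1)) (range (n + 1)) F]
  refine Finset.sum_le_sum_of_subset_of_nonneg ?_ (fun p _ _ => hF p.1 p.2)
  intro p hp
  simp only [Sx, mem_filter, mem_product, mem_range] at hp ⊢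
  omega

/-- the energy of the `A` terms -/
lemma energyA {M K : ℝ} (hM : 0 < M) {f : Om (n + 2) → ℝ} (hf : ∀ ω, |f ω| ≤ M)
    {w : Om (n + 2) → ℝ} (hw : IsPr w) (hK0 : 0 ≤ K)
    (hK : ∀ ω, w ω ≤ Real.exp K * Pw (n + 2) ω) :
    ∑ s ∈ range (n + 2), ∑ t ∈ range (n + 2),
      Ex w (fun ω => (Gd f s (n + 2) (n - s - t) ω * aw u n j s t ω) ^ 2) ≤
      (n + 1) * (2 * M ^ 2 * (K + 2)) := by
  have hE0 : 0 ≤ 2 * M ^ 2 * (K + 2) := by positivity
  have h1 : ∀ s ∈ range (n + 2), ∑ t ∈ range (n + 2),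
      Ex w (fun ω => (Gd f s (n + 2) (n - s - t) ω * aw u n j s t ω) ^ 2) ≤
      if s ≤ n then 2 * M ^ 2 * (K + 2) else 0 := by
    intro s _
    calc _ ≤ ∑ t ∈ range (n + 2), (if s + t ≤ n then
          (fun l => Ex w (fun ω => Gd f s (n + 2) l ω ^ 2)) (n - s - t) else 0) := by
          refine Finset.sum_le_sum (fun t _ => ?_)
          split_ifs with hst
          · refine Ex_mono hw.nonneg (fun ω => ?_)
            rw [mul_pow]
            have h2 : aw u n j s t ω ^ 2 ≤ 1 := by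
              rw [← sq_abs]; exact pow_le_one₀ (abs_nonneg _) (aw_abs u n j s t ω)
            nlinarith [sq_nonneg (Gd f s (n + 2) (n - s - t) ω)]
          · refine le_of_eq ?_
            have : ∀ ω, aw u n j s t ω = 0 := fun ω => by
              unfold aw; rw [if_neg (fun h => hst h.2)]
            simp [this, Ex]
      _ ≤ if s ≤ n then ∑ l ∈ range (n + 2), Ex w (fun ω => Gd f s (n + 2) l ω ^ 2) else 0 :=
          diag_le (fun l => Ex_nonneg hw.nonneg (fun ω => sq_nonneg _))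
      _ ≤ _ := by
          split_ifs
          · have := energy hM hf hw hK s (n + 2)
            rw [Ex_sum] at this
            exact this
          · exact le_rfl
  refine (Finset.sum_le_sum h1).trans (le_of_eq ?_)
  rw [← Finset.sum_filter, Finset.sum_const]
  have h3 : (range (n + 2)).filter (fun s => s ≤ n) = range (n + 1) := by
    ext s; simp only [mem_filter, mem_range]; omega
  rw [h3, card_range, nsmul_eq_mul]
  push_cast
  ring

/-- the energy of the `B` terms -/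
lemma energyB {M K : ℝ} (hM : 0 < M) {f : Om (n + 2) → ℝ} (hf : ∀ ω, |f ω| ≤ M)
    {w : Om (n + 2) → ℝ} (hw : IsPr w) (hK0 : 0 ≤ K)
    (hK : ∀ ω, w ω ≤ Real.exp K * Pw (n + 2) ω) :
    ∑ s ∈ range (n + 2), ∑ t ∈ range (n + 2),
      Ex w (fun ω => (Gd f (n + 2) t (n - s - t) ω * aw u n j s t ω) ^ 2) ≤
      (n + 1) * (2 * M ^ 2 * (K + 2)) := by
  rw [Finset.sum_comm]
  have hE0 : 0 ≤ 2 * M ^ 2 * (K + 2) := by positivity
  have h1 : ∀ t ∈ range (n + 2), ∑ s ∈ range (n + 2),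
      Ex w (fun ω => (Gd f (n + 2) t (n - s - t) ω * aw u n j s t ω) ^ 2) ≤
      if t ≤ n then 2 * M ^ 2 * (K + 2) else 0 := by
    intro t _
    calc _ ≤ ∑ s ∈ range (n + 2), (if t + s ≤ n then
          (fun l => Ex w (fun ω => Gd f (n + 2) t l ω ^ 2)) (n - t - s) else 0) := by
          refine Finset.sum_le_sum (fun s _ => ?_)
          have e : n - s - t = n - t - s := Nat.sub_right_comm n s t
          split_ifs with hst
          · refine Ex_mono hw.nonneg (fun ω => ?_)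
            rw [mul_pow, e]
            have h2 : aw u n j s t ω ^ 2 ≤ 1 := by
              rw [← sq_abs]; exact pow_le_one₀ (abs_nonneg _) (aw_abs u n j s t ω)
            nlinarith [sq_nonneg (Gd f (n + 2) t (n - t - s) ω)]
          · refine le_of_eq ?_
            have : ∀ ω, aw u n j s t ω = 0 := fun ω => by
              unfold aw; rw [if_neg (fun h => hst (by omega))]
            simp [this, Ex]
      _ ≤ if t ≤ n then ∑ l ∈ range (n + 2), Ex w (fun ω => Gd f (n + 2) t l ω ^ 2) else 0 :=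
          diag_le (fun l => Ex_nonneg hw.nonneg (fun ω => sq_nonneg _))
      _ ≤ _ := by
          split_ifs
          · have := energy hM hf hw hK (n + 2) t
            rw [Ex_sum] at this
            exact this
          · exact le_rfl
  refine (Finset.sum_le_sum h1).trans (le_of_eq ?_)
  rw [← Finset.sum_filter, Finset.sum_const]
  have h3 : (range (n + 2)).filter (fun s => s ≤ n) = range (n + 1) := by
    ext s; simp only [mem_filter, mem_range]; omega
  rw [h3, card_range, nsmul_eq_mul]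
  push_cast
  ring

/-- the decomposition of the total on the index set -/
lemma total_lower (hu : ∀ i c, 0 ≤ u i c ∧ u i c < 1) {M K B : ℝ} (hM : 0 < M)
    (hf : ∀ ω : Om (n + 2), |fD u ω| ≤ M)
    {w : Om (n + 2) → ℝ} (hw : IsPr w) (hK0 : 0 ≤ K)
    (hK : ∀ ω, w ω ≤ Real.exp K * Pw (n + 2) ω) (hB1 : Ex w (nb w) ≤ B) (hB2 : Ex w (ng w) ≤ B) :
    (N * (1 / 2 : ℝ) ^ (n + 2)) * ∑ p ∈ Sx n j,
        Ex w (fun ω => em u p.1 p.2 (n - p.1 - p.2) ω * uu 0 p.1 ω * uu 1 p.2 ω * phi w p.1 p.2 ω)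
      - 4 * Real.sqrt B * Real.sqrt ((n + 1) * (2 * M ^ 2 * (K + 2))) ≤
    ∑ p ∈ Sx n j, Ex w (fun ω => Gd (fD u) (n + 2) (n + 2) (n - p.1 - p.2) ω *
        aw u n j p.1 p.2 ω * phi w p.1 p.2 ω) := by
  set f : Om (n + 2) → ℝ := fD u with hfdef
  have hzero : ∀ s t, ¬ (j ≤ s ∧ s + t ≤ n) → ∀ ω, aw u n j s t ω = 0 :=
    fun s t h ω => by unfold aw; rw [if_neg h]
  have hdec : ∀ p ∈ Sx n j, Ex w (fun ω => Gd f (n + 2) (n + 2) (n - p.1 - p.2) ω *
        aw u n j p.1 p.2 ω * phi w p.1 p.2 ω) =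
      Ex w (fun ω => Gd f p.1 (n + 2) (n - p.1 - p.2) ω * aw u n j p.1 p.2 ω * phi w p.1 p.2 ω)
      + Ex w (fun ω => Gd f (n + 2) p.2 (n - p.1 - p.2) ω * aw u n j p.1 p.2 ω * phi w p.1 p.2 ω)
      + (N * (1 / 2 : ℝ) ^ (n + 2)) *
        Ex w (fun ω => em u p.1 p.2 (n - p.1 - p.2) ω * uu 0 p.1 ω * uu 1 p.2 ω
          * phi w p.1 p.2 ω) := by
    intro p hp
    have hp' : j ≤ p.1 ∧ p.1 + p.2 ≤ n := by
      simp only [Sx, mem_filter] at hp; exact hp.2
    have hC : Ex w (fun ω => Gd f p.1 p.2 (n - p.1 - p.2) ω * aw u n j p.1 p.2 ω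
        * phi w p.1 p.2 ω) = 0 :=
      crossC hw (((meas_Gd f p.1 p.2 (n - p.1 - p.2)).mono (mono3 le_rfl le_rfl (by omega))).mul
        (aw_meas u n j p.1 p.2))
    rw [← Ex_const_mul]
    have e : Ex w (fun ω => Gd f (n + 2) (n + 2) (n - p.1 - p.2) ω *
        aw u n j p.1 p.2 ω * phi w p.1 p.2 ω) =
      Ex w (fun ω => Gd f p.1 (n + 2) (n - p.1 - p.2) ω * aw u n j p.1 p.2 ω * phi w p.1 p.2 ω)
      + Ex w (fun ω => Gd f (n + 2) p.2 (n - p.1 - p.2) ω * aw u n j p.1 p.2 ω * phi w p.1 p.2 ω)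
      + Ex w (fun ω => (N * (1 / 2 : ℝ) ^ (n + 2)) *
        (em u p.1 p.2 (n - p.1 - p.2) ω * uu 0 p.1 ω * uu 1 p.2 ω * phi w p.1 p.2 ω))
      - Ex w (fun ω => Gd f p.1 p.2 (n - p.1 - p.2) ω * aw u n j p.1 p.2 ω
        * phi w p.1 p.2 ω) := by
      rw [← Ex_add, ← Ex_add, ← Ex_sub]
      refine Ex_congr w (fun ω => ?_)
      rw [piece_identity hu hp' ω]; ring
    rw [e, hC, sub_zero]
  rw [Finset.sum_congr rfl hdec, Finset.sum_add_distrib, Finset.sum_add_distrib, ← Finset.mul_sum]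
  have eA := sum_Sx_eq (n := n) (j := j) (fun s t => Ex w (fun ω =>
    Gd f s (n + 2) (n - s - t) ω * aw u n j s t ω * phi w s t ω))
    (fun s t h => by simp [hzero s t h, Ex])
  have eB := sum_Sx_eq (n := n) (j := j) (fun s t => Ex w (fun ω =>
    Gd f (n + 2) t (n - s - t) ω * aw u n j s t ω * phi w s t ω))
    (fun s t h => by simp [hzero s t h, Ex])
  have mA : ∀ s t, Meas ![s, n + 2, n + 2]
      (fun ω => Gd f s (n + 2) (n - s - t) ω * aw u n j s t ω) := by
    intro s t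
    by_cases h : j ≤ s ∧ s + t ≤ n
    · exact ((meas_Gd f s (n + 2) (n - s - t)).mono (mono3 le_rfl le_rfl (by omega))).mul
        ((aw_meas u n j s t).mono (mono3 le_rfl (by omega) le_rfl))
    · simp only [hzero s t h, mul_zero]; exact meas_const _ 0
  have mB : ∀ s t, Meas ![n + 2, t, n + 2]
      (fun ω => Gd f (n + 2) t (n - s - t) ω * aw u n j s t ω) := by
    intro s t
    by_cases h : j ≤ s ∧ s + t ≤ n
    · exact ((meas_Gd f (n + 2) t (n - s - t)).mono (mono3 le_rfl le_rfl (by omega))).mul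
        ((aw_meas u n j s t).mono (mono3 (by omega) le_rfl le_rfl))
    · simp only [hzero s t h, mul_zero]; exact meas_const _ 0
  have cA := crossA hw (fun s t ω => Gd f s (n + 2) (n - s - t) ω * aw u n j s t ω) mA
  have cB := crossB hw (fun s t ω => Gd f (n + 2) t (n - s - t) ω * aw u n j s t ω) mB
  have EA := energyA (u := u) (j := j) hM hf hw hK0 hK
  have EB := energyB (u := u) (j := j) hM hf hw hK0 hK
  rw [eA, eB]
  set XA := ∑ s ∈ range (n + 2), ∑ t ∈ range (n + 2),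
    Ex w (fun ω => Gd f s (n + 2) (n - s - t) ω * aw u n j s t ω * phi w s t ω)
  set XB := ∑ s ∈ range (n + 2), ∑ t ∈ range (n + 2),
    Ex w (fun ω => Gd f (n + 2) t (n - s - t) ω * aw u n j s t ω * phi w s t ω)
  have sB1 := Real.sqrt_le_sqrt hB1
  have sB2 := Real.sqrt_le_sqrt hB2
  have sEA := Real.sqrt_le_sqrt EA
  have sEB := Real.sqrt_le_sqrt EB
  have pB := Real.sqrt_nonneg B
  have bA : |XA| ≤ 2 * Real.sqrt B * Real.sqrt ((n + 1) * (2 * M ^ 2 * (K + 2))) :=
    cA.trans (mul_le_mul (by linarith) sEA (Real.sqrt_nonneg _) (by positivity))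
  have bB : |XB| ≤ 2 * Real.sqrt B * Real.sqrt ((n + 1) * (2 * M ^ 2 * (K + 2))) :=
    cB.trans (mul_le_mul (by linarith) sEB (Real.sqrt_nonneg _) (by positivity))
  have h1 := (abs_le.1 bA).1
  have h2 := (abs_le.1 bB).1
  linarith

end Disc3
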