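import Pool.Agent.Work.MP_d500f7_co.Asm2

/-!
# The main term summed over the index set (module K1)
-/

namespace Disc3

open Finset

variable {N : ℕ} {u : Fin N → Fin 3 → ℝ} {n j : ℕ}

lemma Ex_abs_sq_le {L : ℕ} {w : Om L → ℝ} (hw : IsPr w) (g : Om L → ℝ) :
    (Ex w (fun ω => |g ω|)) ^ 2 ≤ Ex w (fun ω => g ω ^ 2) := by
  have h := Ex_mul_sq_le hw.nonneg (fun ω => |g ω|) (fun _ => 1)
  simpa only [mul_one, sq_abs, one_pow, Ex_const hw.one] using h

lemma sum_Ex_abs_le {L : ℕ} {w : Om L → ℝ} (hw : IsPr w) {ι : Type*} (S : Finset ι)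
    (g : ι → Om L → ℝ) {B : ℝ} (hB : ∑ i ∈ S, Ex w (fun ω => g i ω ^ 2) ≤ B) :
    ∑ i ∈ S, Ex w (fun ω => |g i ω|) ≤ Real.sqrt (S.card * B) := by
  refine Real.le_sqrt_of_sq_le ?_
  refine (sq_sum_le_card_mul_sum_sq (s := S) (f := fun i => Ex w (fun ω => |g i ω|))).trans ?_
  refine mul_le_mul_of_nonneg_left ?_ (Nat.cast_nonneg _)
  exact (Finset.sum_le_sum (fun i _ => Ex_abs_sq_le hw (g i))).trans hB

/-- most boxes are empty -/
lemma Ex_em_ge (hu : ∀ i c, 0 ≤ u i c ∧ u i c < 1) {M : ℝ}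
    (hD : ∀ α : Fin 3 → ℝ, (∀ c, 0 ≤ α c ∧ α c ≤ 1) → |Dm u α| ≤ M)
    (hn : (16 : ℝ) * N ≤ 2 ^ n) (hj : 128 * M ≤ 2 ^ j)
    {w : Om (n + 2) → ℝ} (hw : IsPr w) {s t : ℕ} (hst : j ≤ s ∧ s + t ≤ n) :
    7 / 8 - ∑ i ∈ Ico (s - j) s, Ex w (fun ω => |bx w i ω|) ≤
      Ex w (em u s t (n - s - t)) := by
  classical
  set l := n - s - t with hl
  have hm : Meas ![s, n + 2, n + 2] (fun ω : Om (n + 2) => 1 - em u s t l ω) :=
    (meas_const _ 1).sub ((em_meas u s t l).mono (mono3 le_rfl (by omega) (by omega)))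
  have h1 := telescoping hw (s := s) (j := j) hst.1 (by omega)
    (h := fun ω : Om (n + 2) => 1 - em u s t l ω)
    (fun ω => by have := em_le_one u s t l ω; linarith)
    (fun ω => by have := em_nonneg u s t l ω; linarith) hm
  have h2 : Ex w (fun ω : Om (n + 2) => 1 - em u s t l ω) = 1 - Ex w (em u s t l) := by
    rw [Ex_sub, Ex_const hw.one]
  have h3 : ∀ ω : Om (n + 2), CE (Pw (n + 2)) ![s - j, n + 2, n + 2]
      (fun ω => 1 - em u s t l ω) ω ≤ 1 / 8 := by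
    intro ω
    have e1 := em_avg hu (L := n + 2) (s := s) (t := t) (l := l) (j := j) hst.1 (by omega) ω
    have e2 := box_count hD (![s - j, t, l] : Fin 3 → ℕ) (L := n + 2)
      (by intro c; fin_cases c <;> (simp; omega)) ω
    have e3 : ∏ c, (1 / 2 : ℝ) ^ ((![s - j, t, l] : Fin 3 → ℕ) c) =
        (1 / 2 : ℝ) ^ (n - j) := by
      rw [Fin.prod_univ_three]
      simp only [Matrix.cons_val_zero, Matrix.cons_val_one, Matrix.cons_val]
      rw [← pow_add, ← pow_add]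
      congr 1
      omega
    rw [e3] at e2
    refine e1.trans ?_
    have p1 : (0 : ℝ) < (1 / 2 : ℝ) ^ j := by positivity
    refine (mul_le_mul_of_nonneg_left e2 p1.le).trans ?_
    have p2 : (1 / 2 : ℝ) ^ j * (1 / 2 : ℝ) ^ (n - j) = (1 / 2 : ℝ) ^ n := by
      rw [← pow_add]; congr 1; omega
    have p3 : (1 / 2 : ℝ) ^ n * (2 : ℝ) ^ n = 1 := by rw [← mul_pow]; norm_num
    have p4 : (1 / 2 : ℝ) ^ j * (2 : ℝ) ^ j = 1 := by rw [← mul_pow]; norm_num
    have p5 : (1 / 2 : ℝ) ^ n * (16 * N) ≤ 1 :=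
      (mul_le_mul_of_nonneg_left hn (by positivity)).trans_eq p3
    have p6 : (1 / 2 : ℝ) ^ j * (128 * M) ≤ 1 :=
      (mul_le_mul_of_nonneg_left hj p1.le).trans_eq p4
    have p7 : (1 / 2 : ℝ) ^ j * (N * (1 / 2 : ℝ) ^ (n - j) + 8 * M) =
        ((1 / 2 : ℝ) ^ j * (1 / 2 : ℝ) ^ (n - j)) * N + (1 / 2 : ℝ) ^ j * (8 * M) := by ring
    rw [p7, p2]
    linarith
  have h4 := Ex_le_of_le hw h3
  rw [h2] at h1
  linarith

theorem lower_sum (hu : ∀ i c, 0 ≤ u i c ∧ u i c < 1) {M B : ℝ} (hM : 0 < M)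
    (hD : ∀ α : Fin 3 → ℝ, (∀ c, 0 ≤ α c ∧ α c ≤ 1) → |Dm u α| ≤ M)
    (hn : (16 : ℝ) * N ≤ 2 ^ n) (hj : 128 * M ≤ 2 ^ j)
    {w : Om (n + 2) → ℝ} (hw : IsPr w) (hB1 : Ex w (nb w) ≤ B) (hB2 : Ex w (ng w) ≤ B) :
    7 / 512 * ((Sx n j).card : ℝ) - (n + 2) * (j + 2) * Real.sqrt ((n + 2) * B) ≤
      ∑ p ∈ Sx n j,
        Ex w (fun ω => em u p.1 p.2 (n - p.1 - p.2) ω * uu 0 p.1 ω * uu 1 p.2 ω
          * phi w p.1 p.2 ω) := by
  have hB0 : 0 ≤ B := (Ex_nonneg hw.nonneg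
    (fun ω => Finset.sum_nonneg (fun _ _ => sq_nonneg _))).trans hB2
  set b : ℕ → ℝ := fun i => Ex w (fun ω => |bx w i ω|) with hb
  set g : ℕ → ℝ := fun i => Ex w (fun ω => |bz w i ω|) with hg
  set c : ℕ → ℕ → ℝ := fun s t => Ex w (fun ω => |cc w s t ω|) with hc
  have b0 : ∀ i, 0 ≤ b i := fun i => Ex_nonneg hw.nonneg (fun ω => abs_nonneg _)
  have g0 : ∀ i, 0 ≤ g i := fun i => Ex_nonneg hw.nonneg (fun ω => abs_nonneg _)
  have c0 : ∀ s t, 0 ≤ c s t := fun s t => Ex_nonneg hw.nonneg (fun ω => abs_nonneg _)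
  set R := Real.sqrt ((n + 2) * B) with hR
  have R0 : 0 ≤ R := Real.sqrt_nonneg _
  -- the three sums of biases
  have hX : ∑ i ∈ range (n + 2), b i ≤ R := by
    have h1 : ∑ i ∈ range (n + 2), Ex w (fun ω => bx w i ω ^ 2) ≤ B := by
      rw [← Ex_sum]; exact hB1
    have h2 := sum_Ex_abs_le hw (range (n + 2)) (bx w) h1
    rw [card_range] at h2
    push_cast at h2
    exact h2
  have hZ : ∑ i ∈ range (n + 2), g i ≤ R := by
    have h1 : ∑ i ∈ range (n + 2), Ex w (fun ω => bz w i ω ^ 2) ≤ B := by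
      rw [← Ex_sum]; exact hB2
    have h2 := sum_Ex_abs_le hw (range (n + 2)) (bz w) h1
    rw [card_range] at h2
    push_cast at h2
    exact h2
  have hY : ∑ s ∈ range (n + 2), ∑ t ∈ range (n + 2), c s t ≤ (n + 2) * R := by
    have h0 : Ex w (ncc w) ≤ B := (ncc_le hw).trans hB2
    have h1 : ∑ p ∈ range (n + 2) ×ˢ range (n + 2), Ex w (fun ω => cc w p.1 p.2 ω ^ 2) ≤ B := by
      refine le_trans (le_of_eq ?_) h0
      rw [Finset.sum_product' (range (n + 2)) (range (n + 2))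
        (fun s t => Ex w (fun ω => cc w s t ω ^ 2))]
      unfold ncc
      rw [Ex_sum]
      exact Finset.sum_congr rfl (fun s _ => (Ex_sum w _ _).symm)
    have h2 := sum_Ex_abs_le hw (range (n + 2) ×ˢ range (n + 2))
      (fun (p : ℕ × ℕ) => cc w p.1 p.2) h1
    have h3 : ∑ p ∈ range (n + 2) ×ˢ range (n + 2), Ex w (fun ω => |cc w p.1 p.2 ω|) =
        ∑ s ∈ range (n + 2), ∑ t ∈ range (n + 2), c s t :=
      Finset.sum_product' (range (n + 2)) (range (n + 2)) c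
    rw [h3, card_product, card_range] at h2
    refine h2.trans ?_
    have h4 : (((n + 2) * (n + 2) : ℕ) : ℝ) * B ≤ ((n + 2) * R) ^ 2 := by
      rw [mul_pow, hR, Real.sq_sqrt (by positivity)]
      push_cast
      have : (n + 2 : ℝ) * (n + 2) * B ≤ (n + 2 : ℝ) ^ 2 * ((n + 2) * B) := by
        have q1 : (1 : ℝ) ≤ (n + 2 : ℝ) := by
          have : (0 : ℝ) ≤ n := Nat.cast_nonneg n
          linarith
        have q2 : B ≤ (n + 2) * B := le_mul_of_one_le_left hB0 q1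
        rw [sq]
        exact mul_le_mul_of_nonneg_left q2 (by positivity)
      exact this
    calc Real.sqrt ((((n + 2) * (n + 2) : ℕ) : ℝ) * B) ≤ Real.sqrt (((n + 2) * R) ^ 2) :=
          Real.sqrt_le_sqrt h4
      _ = (n + 2) * R := Real.sqrt_sq (by positivity)
  -- the bound for one pair
  have hone : ∀ p ∈ Sx n j, 7 / 512 - (1 / 64 * (∑ i ∈ Ico (p.1 - j) p.1, b i)
      + 1 / 64 * b (p.1 + 1) + 1 / 32 * g (p.2 + 1) + 1 / 2 * b p.1 + 1 / 4 * g p.2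
      + 1 / 4 * c p.1 p.2) ≤
      Ex w (fun ω => em u p.1 p.2 (n - p.1 - p.2) ω * uu 0 p.1 ω * uu 1 p.2 ω
          * phi w p.1 p.2 ω) := by
    intro p hp
    have hst : j ≤ p.1 ∧ p.1 + p.2 ≤ n := by
      simp only [Sx, mem_filter] at hp; exact hp.2
    have h1 := main_lower hw (L := n + 2) (s := p.1) (t := p.2) (by omega) (by omega)
      (e := em u p.1 p.2 (n - p.1 - p.2)) (em_nonneg _ _ _ _) (em_le_one _ _ _ _)
      ((em_meas u p.1 p.2 _).mono (mono3 le_rfl le_rfl (by omega)))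
    have h2 := Ex_em_ge hu hD hn hj hw hst
    refine le_trans ?_ h1
    simp only [hb, hg, hc]
    linarith
  refine le_trans ?_ (Finset.sum_le_sum hone)
  rw [Finset.sum_sub_distrib, Finset.sum_const, nsmul_eq_mul]
  have hnn : (0 : ℝ) ≤ n := Nat.cast_nonneg n
  have hjj : (0 : ℝ) ≤ j := Nat.cast_nonneg j
  -- sums over the square
  have S1 : ∑ p ∈ Sx n j, (∑ i ∈ Ico (p.1 - j) p.1, b i) ≤ (n + 1) * (j * R) := by
    refine (sum_Sx_le (fun s _ => ∑ i ∈ Ico (s - j) s, b i)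
      (fun s _ => Finset.sum_nonneg (fun i _ => b0 i))).trans ?_
    have h1 : ∑ s ∈ range (n + 1), ∑ _t ∈ range (n + 1), (∑ i ∈ Ico (s - j) s, b i) =
        (n + 1) * ∑ s ∈ range (n + 1), ∑ i ∈ Ico (s - j) s, b i := by
      rw [Finset.mul_sum]
      refine Finset.sum_congr rfl (fun s _ => ?_)
      rw [Finset.sum_const, card_range, nsmul_eq_mul]
      push_cast
      ring
    rw [h1]
    refine mul_le_mul_of_nonneg_left ((window_sum b0).trans ?_) (by positivity)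
    exact mul_le_mul_of_nonneg_left hX hjj
  have sh : ∀ f : ℕ → ℝ, (∀ i, 0 ≤ f i) → ∑ i ∈ range (n + 2), f i ≤ R →
      ∑ i ∈ range (n + 1), f i ≤ R ∧ ∑ i ∈ range (n + 1), f (i + 1) ≤ R := by
    intro f hf hfR
    constructor
    · rw [Finset.sum_range_succ] at hfR
      have := hf (n + 1)
      linarith
    · rw [Finset.sum_range_succ'] at hfR
      have := hf 0
      linarith
  have Q1 : ∀ f : ℕ → ℝ, (∀ i, 0 ≤ f i) → ∑ i ∈ range (n + 1), f i ≤ R →
      ∑ p ∈ Sx n j, f p.1 ≤ (n + 1) * R := by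
    intro f hf hfR
    refine (sum_Sx_le (fun s _ => f s) (fun s _ => hf s)).trans ?_
    have h1 : ∑ s ∈ range (n + 1), ∑ _t ∈ range (n + 1), f s =
        (n + 1) * ∑ s ∈ range (n + 1), f s := by
      rw [Finset.mul_sum]
      refine Finset.sum_congr rfl (fun s _ => ?_)
      rw [Finset.sum_const, card_range, nsmul_eq_mul]
      push_cast
      ring
    rw [h1]
    exact mul_le_mul_of_nonneg_left hfR (by positivity)
  have Q2 : ∀ f : ℕ → ℝ, (∀ i, 0 ≤ f i) → ∑ i ∈ range (n + 1), f i ≤ R →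
      ∑ p ∈ Sx n j, f p.2 ≤ (n + 1) * R := by
    intro f hf hfR
    refine (sum_Sx_le (fun _ t => f t) (fun _ t => hf t)).trans ?_
    rw [Finset.sum_const, card_range, nsmul_eq_mul]
    push_cast
    exact mul_le_mul_of_nonneg_left hfR (by positivity)
  have S2 := Q1 (fun i => b (i + 1)) (fun i => b0 _) (sh b b0 hX).2
  have S3 := Q2 (fun i => g (i + 1)) (fun i => g0 _) (sh g g0 hZ).2
  have S4 := Q1 b b0 (sh b b0 hX).1
  have S5 := Q2 g g0 (sh g g0 hZ).1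
  have S6 : ∑ p ∈ Sx n j, c p.1 p.2 ≤ (n + 2) * R := by
    refine le_trans ?_ hY
    rw [← Finset.sum_product' (range (n + 2)) (range (n + 2)) c]
    exact Finset.sum_le_sum_of_subset_of_nonneg (Finset.filter_subset _ _)
      (fun p _ _ => c0 p.1 p.2)
  simp only [Finset.sum_add_distrib, ← Finset.mul_sum]
  have hfin : 1 / 64 * ((n + 1 : ℝ) * (j * R)) + 1 / 64 * ((n + 1) * R) + 1 / 32 * ((n + 1) * R)
      + 1 / 2 * ((n + 1) * R) + 1 / 4 * ((n + 1) * R) + 1 / 4 * ((n + 2) * R) ≤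
      (n + 2) * (j + 2) * R := by
    have k1 : (n + 1 : ℝ) * R ≤ (n + 2) * R := mul_le_mul_of_nonneg_right (by linarith) R0
    have k2 : (n + 1 : ℝ) * (j * R) ≤ (n + 2) * (j * R) :=
      mul_le_mul_of_nonneg_right (by linarith) (by positivity)
    have k3 : (0 : ℝ) ≤ (n + 2) * (j * R) := by positivity
    have k4 : (0 : ℝ) ≤ (n + 2) * R := by positivity
    have k5 : (n + 2 : ℝ) * (j + 2) * R = (n + 2) * (j * R) + 2 * ((n + 2) * R) := by ring
    rw [k5]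
    linarith
  linarith

end Disc3
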