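import Pool.Agent.Work.MP_d500f7_co.Asm2

/-! K2: the upper bound of the total. -/

namespace Disc3

open Finset

variable {N : ℕ} {u : Fin N → Fin 3 → ℝ} {n j : ℕ}

lemma abs_Gd_le {L : ℕ} {f : Om L → ℝ} {M : ℝ} (hf : ∀ ω, |f ω| ≤ M) (s t l : ℕ) (ω : Om L) :
    |Gd f s t l ω| ≤ M := by
  unfold Gd
  apply abs_CE_le Pw_pos
  intro ω'
  rw [abs_mul, abs_dg, one_mul]
  exact hf ω'

lemma TG_le {L : ℕ} {f : Om L → ℝ} {M lam : ℝ} (hf : ∀ ω, |f ω| ≤ M) (l : ℕ) (ω : Om L) :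
    Tt lam f l ω * Gd f L L l ω ≤ M := by
  have h1 := abs_Gd_le hf L L l ω
  have h2 : |Tt lam f l ω| < 1 := tanh_abs_lt _
  calc Tt lam f l ω * Gd f L L l ω ≤ |Tt lam f l ω * Gd f L L l ω| := le_abs_self _
    _ = |Tt lam f l ω| * |Gd f L L l ω| := abs_mul _ _
    _ ≤ 1 * M := mul_le_mul h2.le h1 (abs_nonneg _) zero_le_one
    _ = M := one_mul M

lemma abs_le_four {d V : ℝ} (hd : 0 < d) : |V| ≤ d + V ^ 4 / d ^ 3 := by
  have h0 : 0 ≤ V ^ 4 / d ^ 3 := by positivity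
  by_cases h : |V| ≤ d
  · linarith
  · push Not at h
    have h1 : |V| ≤ V ^ 4 / d ^ 3 := by
      rw [le_div_iff₀ (by positivity)]
      have h2 : d ^ 3 ≤ |V| ^ 3 := pow_le_pow_left₀ hd.le h.le 3
      have h3 : V ^ 4 = |V| * |V| ^ 3 := by
        rw [← pow_succ']
        exact (Even.pow_abs (by decide) V).symm
      rw [h3]
      exact mul_le_mul_of_nonneg_left h2 (abs_nonneg _)
    linarith

lemma nb_nonneg {L : ℕ} (w : Om L → ℝ) (ω : Om L) : 0 ≤ nb w ω :=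
  Finset.sum_nonneg (fun _ _ => sq_nonneg _)

lemma ncc_nonneg {L : ℕ} (w : Om L → ℝ) (ω : Om L) : 0 ≤ ncc w ω :=
  Finset.sum_nonneg (fun _ _ => Finset.sum_nonneg (fun _ _ => sq_nonneg _))

lemma sqrt_mul_S {L : ℕ} {w : Om L → ℝ} (hw : IsPr w) {q S : Om L → ℝ} (hq : ∀ ω, 0 ≤ q ω)
    {B E : ℝ} (hB : Ex w q ≤ B) (hE : Ex w (fun ω => S ω ^ 2) ≤ E) :
    Ex w (fun ω => Real.sqrt (q ω) * S ω) ≤ Real.sqrt B * Real.sqrt E := by
  have h1 := abs_Ex_mul_le hw.nonneg (fun ω => Real.sqrt (q ω)) S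
  have h2 : Ex w (fun ω => Real.sqrt (q ω) ^ 2) = Ex w q := Ex_congr w (fun ω => Real.sq_sqrt (hq ω))
  simp only [h2] at h1
  refine (le_abs_self _).trans (h1.trans ?_)
  exact mul_le_mul (Real.sqrt_le_sqrt hB) (Real.sqrt_le_sqrt hE) (Real.sqrt_nonneg _)
    (Real.sqrt_nonneg _)

theorem upper_sum {f : Om (n + 2) → ℝ} {M lam B th d : ℝ} (hM : 0 < M) (hf : ∀ ω, |f ω| ≤ M)
    (hlam : 0 < lam) (hth : 0 < th) (hd : 0 < d)
    (hB1 : Ex (Psi lam f) (nb (Psi lam f)) ≤ B) (hB2 : Ex (Psi lam f) (ng (Psi lam f)) ≤ B)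
    (hB3 : Ex (Psi lam f) (fun ω => nb (Psi lam f) ω ^ 2) ≤ 32 * (2 * lam * M) ^ 2 + 1024) :
    ∑ l ∈ range (n + 1), Ex (Psi lam f) (fun ω => Gd f (n + 2) (n + 2) l ω *
        (V0 (Psi lam f) (aw u n j) n l ω + V1 (Psi lam f) (aw u n j) n l ω
          + V2 (Psi lam f) (aw u n j) n l ω)) ≤
      6 * th * M
      + (4 * (n + 1) ^ 2 + Real.sqrt (32 * (2 * lam * M) ^ 2 + 1024) * Real.sqrt (32 * (n + 1) ^ 3)
          + (n + 1) * B) / (2 * th * lam)
      + 2 * (2 * M * d + 112 * M * (n + 1) ^ 3 / d ^ 3)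
      + 6 * Real.sqrt (n + 1) * Real.sqrt B * Real.sqrt (8 * M ^ 2 + 4 * M / lam) := by
  have hw := Psi_isPr lam f
  set w := Psi lam f with hwdef
  set a := aw u n j with ha_def
  have ha : ∀ s t ω, |a s t ω| ≤ 1 := fun s t ω => aw_abs u n j s t ω
  have hm : ∀ s t, Meas ![s, t, n + 2] (a s t) := fun s t => aw_meas u n j s t
  have hn : n < n + 2 := by omega
  set TG : ℕ → Om (n + 2) → ℝ := fun l ω => Tt lam f l ω * Gd f (n + 2) (n + 2) l ω with hTG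
  have hTG0 : ∀ l ω, 0 ≤ TG l ω := fun l ω => tilt_nonneg hlam.le f l ω
  have hTGM : ∀ l ω, TG l ω ≤ M := fun l ω => TG_le hf l ω
  set S : Om (n + 2) → ℝ := fun ω => ∑ l ∈ range (n + 2), TG l ω with hS
  have hS0 : ∀ ω, 0 ≤ S ω := fun ω => Finset.sum_nonneg (fun l _ => hTG0 l ω)
  have hsub : ∀ ω, ∑ l ∈ range (n + 1), TG l ω ≤ S ω := fun ω =>
    Finset.sum_le_sum_of_subset_of_nonneg
      (fun l hl => by simp only [mem_range] at hl ⊢; omega) (fun l _ _ => hTG0 l ω)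
  have h1 : Ex w S ≤ 2 * M := tilt1 hf
  have h2 : Ex w (fun ω => S ω ^ 2) ≤ 8 * M ^ 2 + 4 * M / lam := tilt2 hf hlam
  -- pointwise estimate
  have hpt : ∀ ω, ∑ l ∈ range (n + 1), Gd f (n + 2) (n + 2) l ω *
        (V0 w a n l ω + V1 w a n l ω + V2 w a n l ω) ≤
      3 * th * S ω
      + (∑ l ∈ range (n + 1), V0 w a n l ω ^ 2 + ∑ l ∈ range (n + 1), V1 w a n l ω ^ 2
          + ∑ l ∈ range (n + 1), V2 w a n l ω ^ 2) * (1 / (2 * th * lam))
      + (2 * d * S ω + 2 * M / d ^ 3 * ∑ l ∈ range (n + 1), V0 w a n l ω ^ 4)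
      + 4 * Real.sqrt (n + 1) * (Real.sqrt (nb w ω) * S ω)
      + 2 * Real.sqrt (n + 1) * (Real.sqrt (ncc w ω) * S ω) := by
    intro ω
    have hstep : ∀ l ∈ range (n + 1), Gd f (n + 2) (n + 2) l ω *
        (V0 w a n l ω + V1 w a n l ω + V2 w a n l ω) ≤
        3 * th * TG l ω
        + (V0 w a n l ω ^ 2 + V1 w a n l ω ^ 2 + V2 w a n l ω ^ 2) * (1 / (2 * th * lam))
        + (2 * d * TG l ω + 2 * M / d ^ 3 * V0 w a n l ω ^ 4)
        + 4 * Real.sqrt (n + 1) * (Real.sqrt (nb w ω) * TG l ω)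
        + 2 * Real.sqrt (n + 1) * (Real.sqrt (ncc w ω) * TG l ω) := by
      intro l _
      set G := Gd f (n + 2) (n + 2) l ω with hG
      have y0 := young hlam hth G (V0 w a n l ω)
      have y1 := young hlam hth G (V1 w a n l ω)
      have y2 := young hlam hth G (V2 w a n l ω)
      have eT : Real.tanh (lam * G) * G = TG l ω := rfl
      rw [eT] at y0 y1 y2
      have t0 := hTG0 l ω
      have tM := hTGM l ω
      have b0 : |V0 w a n l ω| * TG l ω ≤ d * TG l ω + M / d ^ 3 * V0 w a n l ω ^ 4 := by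
        have h3 := abs_le_four (V := V0 w a n l ω) hd
        have h4 : 0 ≤ V0 w a n l ω ^ 4 / d ^ 3 := by positivity
        calc |V0 w a n l ω| * TG l ω ≤ (d + V0 w a n l ω ^ 4 / d ^ 3) * TG l ω :=
              mul_le_mul_of_nonneg_right h3 t0
          _ = d * TG l ω + V0 w a n l ω ^ 4 / d ^ 3 * TG l ω := by ring
          _ ≤ d * TG l ω + V0 w a n l ω ^ 4 / d ^ 3 * M := by
              have := mul_le_mul_of_nonneg_left tM h4
              linarith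
          _ = _ := by ring
      have b1 : |V1 w a n l ω| * TG l ω ≤ 2 * Real.sqrt (n + 1) * (Real.sqrt (nb w ω) * TG l ω) := by
        have := mul_le_mul_of_nonneg_right (V1_pt hw hn ha l ω) t0
        linarith
      have b2 : |V2 w a n l ω| * TG l ω ≤ Real.sqrt (n + 1) * (Real.sqrt (ncc w ω) * TG l ω) := by
        have := mul_le_mul_of_nonneg_right (V2_pt (w := w) hn ha l ω) t0
        linarith
      have c0 : G * V0 w a n l ω ≤ |G| * |V0 w a n l ω| := by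
        rw [← abs_mul]; exact le_abs_self _
      have c1 : G * V1 w a n l ω ≤ |G| * |V1 w a n l ω| := by
        rw [← abs_mul]; exact le_abs_self _
      have c2 : G * V2 w a n l ω ≤ |G| * |V2 w a n l ω| := by
        rw [← abs_mul]; exact le_abs_self _
      have e0 : ∀ V : ℝ, V ^ 2 / (2 * th * lam) = V ^ 2 * (1 / (2 * th * lam)) := fun V => by ring
      rw [e0] at y0 y1 y2
      have d0 : 2 * |V0 w a n l ω| * TG l ω ≤ 2 * (d * TG l ω + M / d ^ 3 * V0 w a n l ω ^ 4) := by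
        linarith
      have d1 : 2 * |V1 w a n l ω| * TG l ω ≤
          2 * (2 * Real.sqrt (n + 1) * (Real.sqrt (nb w ω) * TG l ω)) := by linarith
      have d2 : 2 * |V2 w a n l ω| * TG l ω ≤
          2 * (Real.sqrt (n + 1) * (Real.sqrt (ncc w ω) * TG l ω)) := by linarith
      have e1 : 2 * M / d ^ 3 * V0 w a n l ω ^ 4 = 2 * (M / d ^ 3 * V0 w a n l ω ^ 4) := by ring
      rw [e1]
      linarith
    refine (Finset.sum_le_sum hstep).trans ?_
    simp only [Finset.sum_add_distrib, ← Finset.mul_sum, ← Finset.sum_mul]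
    have s1 := hsub ω
    have p1 : 0 ≤ Real.sqrt (nb w ω) := Real.sqrt_nonneg _
    have p2 : 0 ≤ Real.sqrt (ncc w ω) := Real.sqrt_nonneg _
    have p3 : 0 ≤ Real.sqrt ((n : ℝ) + 1) := Real.sqrt_nonneg _
    gcongr
  -- take expectations
  rw [← Ex_sum]
  refine (Ex_mono hw.nonneg hpt).trans ?_
  rw [Ex_add, Ex_add, Ex_add, Ex_add, Ex_add, Ex_const_mul, Ex_mul_const, Ex_add, Ex_add,
    Ex_const_mul, Ex_const_mul, Ex_const_mul, Ex_const_mul]
  have q0 : Ex w (fun ω => ∑ l ∈ range (n + 1), V0 w a n l ω ^ 2) ≤ 4 * (n + 1) ^ 2 := by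
    rw [Ex_sum]
    calc _ ≤ ∑ l ∈ range (n + 1), (4 * ((n : ℝ) + 1)) :=
          Finset.sum_le_sum (fun l _ => V0_sq hw hn ha hm l)
      _ = _ := by
          rw [Finset.sum_const, card_range, nsmul_eq_mul]
          push_cast
          ring
  have q4 : Ex w (fun ω => ∑ l ∈ range (n + 1), V0 w a n l ω ^ 4) ≤ 112 * (n + 1) ^ 3 := by
    rw [Ex_sum]
    calc _ ≤ ∑ l ∈ range (n + 1), (112 * ((n : ℝ) + 1) ^ 2) :=
          Finset.sum_le_sum (fun l _ => V0_four hw hn ha hm l)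
      _ = _ := by
          rw [Finset.sum_const, card_range, nsmul_eq_mul]
          push_cast
          ring
  have q1 : Ex w (fun ω => ∑ l ∈ range (n + 1), V1 w a n l ω ^ 2) ≤
      Real.sqrt (32 * (2 * lam * M) ^ 2 + 1024) * Real.sqrt (32 * (n + 1) ^ 3) :=
    (V1_sum hw hn ha hm).trans
      (mul_le_mul_of_nonneg_right (Real.sqrt_le_sqrt hB3) (Real.sqrt_nonneg _))
  have hncc : Ex w (ncc w) ≤ B := (ncc_le hw).trans hB2
  have q2 : Ex w (fun ω => ∑ l ∈ range (n + 1), V2 w a n l ω ^ 2) ≤ (n + 1) * B := by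
    calc _ ≤ Ex w (fun ω => ((n : ℝ) + 1) * ncc w ω) :=
          Ex_mono hw.nonneg (fun ω => V2_sum (w := w) hn ha ω)
      _ = (n + 1) * Ex w (ncc w) := Ex_const_mul _ _ _
      _ ≤ _ := mul_le_mul_of_nonneg_left hncc (by positivity)
  have r1 := sqrt_mul_S hw (nb_nonneg w) hB1 h2
  have r2 := sqrt_mul_S hw (ncc_nonneg w) hncc h2
  have p3 : 0 ≤ Real.sqrt ((n : ℝ) + 1) := Real.sqrt_nonneg _
  have z1 : 3 * th * Ex w S ≤ 6 * th * M := by nlinarith
  have z2 : (Ex w (fun ω => ∑ l ∈ range (n + 1), V0 w a n l ω ^ 2)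
      + Ex w (fun ω => ∑ l ∈ range (n + 1), V1 w a n l ω ^ 2)
      + Ex w (fun ω => ∑ l ∈ range (n + 1), V2 w a n l ω ^ 2)) * (1 / (2 * th * lam)) ≤
      (4 * (n + 1) ^ 2 + Real.sqrt (32 * (2 * lam * M) ^ 2 + 1024) * Real.sqrt (32 * (n + 1) ^ 3)
          + (n + 1) * B) / (2 * th * lam) := by
    calc _ ≤ (4 * (n + 1) ^ 2 + Real.sqrt (32 * (2 * lam * M) ^ 2 + 1024)
            * Real.sqrt (32 * (n + 1) ^ 3) + (n + 1) * B) * (1 / (2 * th * lam)) :=
          mul_le_mul_of_nonneg_right (add_le_add (add_le_add q0 q1) q2) (by positivity)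
      _ = _ := by ring
  have z3 : 2 * d * Ex w S ≤ 2 * (2 * M * d) := by nlinarith
  have z4 : 2 * M / d ^ 3 * Ex w (fun ω => ∑ l ∈ range (n + 1), V0 w a n l ω ^ 4) ≤
      2 * (112 * M * (n + 1) ^ 3 / d ^ 3) := by
    calc _ ≤ 2 * M / d ^ 3 * (112 * (n + 1) ^ 3) := mul_le_mul_of_nonneg_left q4 (by positivity)
      _ = _ := by ring
  have z5 : 4 * Real.sqrt (n + 1) * Ex w (fun ω => Real.sqrt (nb w ω) * S ω) ≤
      4 * Real.sqrt (n + 1) * (Real.sqrt B * Real.sqrt (8 * M ^ 2 + 4 * M / lam)) :=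
    mul_le_mul_of_nonneg_left r1 (by positivity)
  have z6 : 2 * Real.sqrt (n + 1) * Ex w (fun ω => Real.sqrt (ncc w ω) * S ω) ≤
      2 * Real.sqrt (n + 1) * (Real.sqrt B * Real.sqrt (8 * M ^ 2 + 4 * M / lam)) :=
    mul_le_mul_of_nonneg_left r2 (by positivity)
  linarith

end Disc3
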