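import Mathlib

/-! # K3: pure numerics -/

namespace Disc3

open Finset

theorem two_pow_ge {m : ℝ} {j : ℕ} (hm : 1 ≤ m) (hj : m ≤ j) :
    128 * (m ^ 7 / 10 ^ 14) ≤ 2 ^ j := by
  have h1 : (2 : ℝ) ^ j = Real.exp (j * Real.log 2) := by
    rw [Real.exp_nat_mul, Real.exp_log (by norm_num)]
  have hl : (1 : ℝ) / 2 ≤ Real.log 2 := by
    have := Real.log_two_gt_d9
    linarith
  have h2 : m / 2 ≤ j * Real.log 2 := by
    have h3 : (j : ℝ) * (1 / 2) ≤ j * Real.log 2 := mul_le_mul_of_nonneg_left hl (Nat.cast_nonneg j)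
    linarith
  have h3 : (m / 2) ^ 7 / (Nat.factorial 7 : ℝ) ≤ Real.exp (m / 2) :=
    Real.pow_div_factorial_le_exp (m / 2) (by linarith) 7
  have h4 : Real.exp (m / 2) ≤ Real.exp (j * Real.log 2) := Real.exp_le_exp.2 h2
  have h5 : (Nat.factorial 7 : ℝ) = 5040 := by norm_num [Nat.factorial]
  rw [h5] at h3
  rw [h1]
  refine le_trans ?_ (h3.trans h4)
  have h6 : 0 ≤ m ^ 7 := by positivity
  have h7 : (m / 2) ^ 7 / 5040 = m ^ 7 / 645120 := by ring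
  rw [h7]
  linarith

theorem numerics {n j : ℕ} {m q S : ℝ} (hm : (10 : ℝ) ^ 9 ≤ m) (hn : (n : ℝ) = m ^ 6)
    (hj1 : m ≤ j) (hj2 : (j : ℝ) ≤ m + 1)
    (hq : 1 / 128 ≤ q) (hS : m ^ 12 / 25 ≤ S)
    (hfin : q * (7 / 512 * S - (n + 2) * (j + 2) *
          Real.sqrt ((n + 2) * (4 * (2 * (m ^ 5)⁻¹ * (m ^ 7 / 10 ^ 14)) + 16)))
        - 4 * Real.sqrt (4 * (2 * (m ^ 5)⁻¹ * (m ^ 7 / 10 ^ 14)) + 16) *
          Real.sqrt ((n + 1) * (2 * (m ^ 7 / 10 ^ 14) ^ 2 *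
            (2 * (m ^ 5)⁻¹ * (m ^ 7 / 10 ^ 14) + 2))) ≤
      6 * (10 ^ 7 * m ^ 5) * (m ^ 7 / 10 ^ 14)
      + (4 * (n + 1) ^ 2 + Real.sqrt (32 * (2 * (m ^ 5)⁻¹ * (m ^ 7 / 10 ^ 14)) ^ 2 + 1024)
            * Real.sqrt (32 * (n + 1) ^ 3)
          + (n + 1) * (4 * (2 * (m ^ 5)⁻¹ * (m ^ 7 / 10 ^ 14)) + 16))
          / (2 * (10 ^ 7 * m ^ 5) * (m ^ 5)⁻¹)
      + 2 * (2 * (m ^ 7 / 10 ^ 14) * m ^ 5 + 112 * (m ^ 7 / 10 ^ 14) * (n + 1) ^ 3 / (m ^ 5) ^ 3)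
      + 6 * Real.sqrt (n + 1) * Real.sqrt (4 * (2 * (m ^ 5)⁻¹ * (m ^ 7 / 10 ^ 14)) + 16)
          * Real.sqrt (8 * (m ^ 7 / 10 ^ 14) ^ 2 + 4 * (m ^ 7 / 10 ^ 14) / (m ^ 5)⁻¹)) :
    False := by
  have hm0 : 0 < m := lt_of_lt_of_le (by norm_num) hm
  have hm1 : 1 ≤ m := le_trans (by norm_num) hm
  have hK : 2 * (m ^ 5)⁻¹ * (m ^ 7 / 10 ^ 14) = 2 * m ^ 2 / 10 ^ 14 := by
    field_simp
  have hden : 2 * (10 ^ 7 * m ^ 5) * (m ^ 5)⁻¹ = 2 * 10 ^ 7 := by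
    field_simp
  have hM5 : 4 * (m ^ 7 / 10 ^ 14) / (m ^ 5)⁻¹ = 4 * m ^ 12 / 10 ^ 14 := by
    field_simp
  rw [hK, hden, hM5, hn] at hfin
  -- powers
  have hm2 : (10 : ℝ) ^ 18 ≤ m ^ 2 := by
    calc (10 : ℝ) ^ 18 = (10 ^ 9) ^ 2 := by norm_num
      _ ≤ m ^ 2 := pow_le_pow_left₀ (by norm_num) hm 2
  have hm6 : (10 : ℝ) ^ 54 ≤ m ^ 6 := by
    calc (10 : ℝ) ^ 54 = (10 ^ 9) ^ 6 := by norm_num
      _ ≤ m ^ 6 := pow_le_pow_left₀ (by norm_num) hm 6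
  have hm4 : (10 : ℝ) ^ 36 ≤ m ^ 4 := by
    calc (10 : ℝ) ^ 36 = (10 ^ 9) ^ 4 := by norm_num
      _ ≤ m ^ 4 := pow_le_pow_left₀ (by norm_num) hm 4
  have h12 : 0 < m ^ 12 := by positivity
  -- the basic quantities
  set B : ℝ := 4 * (2 * m ^ 2 / 10 ^ 14) + 16 with hB
  have hB0 : 0 ≤ B := by positivity
  have hB1 : B ≤ m ^ 2 / 10 ^ 12 := by rw [hB]; linarith
  have hsB : Real.sqrt B ≤ m / 10 ^ 6 := by
    refine Real.sqrt_le_iff.2 ⟨by positivity, ?_⟩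
    calc B ≤ m ^ 2 / 10 ^ 12 := hB1
      _ = (m / 10 ^ 6) ^ 2 := by ring
  have hn1 : m ^ 6 + 1 ≤ 11 / 10 * m ^ 6 := by linarith
  have hn2 : m ^ 6 + 2 ≤ 2 * m ^ 6 := by linarith
  -- T0
  have hT0 : (m ^ 6 + 2) * (j + 2) * Real.sqrt ((m ^ 6 + 2) * B) ≤ m ^ 12 / 10 ^ 8 := by
    have h1 : Real.sqrt ((m ^ 6 + 2) * B) ≤ 2 * m ^ 4 / 10 ^ 6 := by
      refine Real.sqrt_le_iff.2 ⟨by positivity, ?_⟩
      calc (m ^ 6 + 2) * B ≤ (2 * m ^ 6) * (m ^ 2 / 10 ^ 12) :=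
            mul_le_mul hn2 hB1 hB0 (by positivity)
        _ ≤ (2 * m ^ 4 / 10 ^ 6) ^ 2 := by
            have : 0 ≤ m ^ 8 := by positivity
            nlinarith
    have h2 : (j : ℝ) + 2 ≤ 2 * m := by linarith
    calc (m ^ 6 + 2) * (j + 2) * Real.sqrt ((m ^ 6 + 2) * B)
        ≤ (2 * m ^ 6) * (2 * m) * (2 * m ^ 4 / 10 ^ 6) := by
          refine mul_le_mul (mul_le_mul hn2 h2 (by positivity) (by positivity)) h1
            (Real.sqrt_nonneg _) (by positivity)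
      _ = 8 * m ^ 11 / 10 ^ 6 := by ring
      _ ≤ m ^ 12 / 10 ^ 8 := by
          have h3 : m ^ 12 = m * m ^ 11 := by ring
          have h4 : 0 ≤ m ^ 11 := by positivity
          have h5 : 10 ^ 9 * m ^ 11 ≤ m * m ^ 11 := mul_le_mul_of_nonneg_right hm h4
          rw [h3]
          linarith
  -- T1
  have hT1 : 4 * Real.sqrt B * Real.sqrt ((m ^ 6 + 1) * (2 * (m ^ 7 / 10 ^ 14) ^ 2 *
            (2 * m ^ 2 / 10 ^ 14 + 2))) ≤ m ^ 12 / 10 ^ 8 := by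
    have h1 : Real.sqrt ((m ^ 6 + 1) * (2 * (m ^ 7 / 10 ^ 14) ^ 2 *
            (2 * m ^ 2 / 10 ^ 14 + 2))) ≤ 2 * m ^ 11 / 10 ^ 20 := by
      refine Real.sqrt_le_iff.2 ⟨by positivity, ?_⟩
      have h2 : 2 * m ^ 2 / 10 ^ 14 + 2 ≤ m ^ 2 / 10 ^ 12 := by linarith
      calc (m ^ 6 + 1) * (2 * (m ^ 7 / 10 ^ 14) ^ 2 * (2 * m ^ 2 / 10 ^ 14 + 2))
          ≤ (2 * m ^ 6) * (2 * (m ^ 7 / 10 ^ 14) ^ 2 * (m ^ 2 / 10 ^ 12)) := by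
            refine mul_le_mul (by linarith) (mul_le_mul_of_nonneg_left h2 (by positivity))
              (by positivity) (by positivity)
        _ = (2 * m ^ 11 / 10 ^ 20) ^ 2 := by ring
    calc 4 * Real.sqrt B * Real.sqrt ((m ^ 6 + 1) * (2 * (m ^ 7 / 10 ^ 14) ^ 2 *
            (2 * m ^ 2 / 10 ^ 14 + 2))) ≤ (4 * (m / 10 ^ 6)) * (2 * m ^ 11 / 10 ^ 20) :=
          mul_le_mul (mul_le_mul_of_nonneg_left hsB (by norm_num)) h1 (Real.sqrt_nonneg _)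
            (by positivity)
      _ = 8 * m ^ 12 / 10 ^ 26 := by ring
      _ ≤ m ^ 12 / 10 ^ 8 := by linarith
  -- R1
  have hR1 : 6 * (10 ^ 7 * m ^ 5) * (m ^ 7 / 10 ^ 14) = 6 * m ^ 12 / 10 ^ 7 := by ring
  -- R2
  have hR2 : (4 * (m ^ 6 + 1) ^ 2 + Real.sqrt (32 * (2 * m ^ 2 / 10 ^ 14) ^ 2 + 1024)
            * Real.sqrt (32 * (m ^ 6 + 1) ^ 3) + (m ^ 6 + 1) * B) / (2 * 10 ^ 7) ≤
      3 * m ^ 12 / 10 ^ 7 := by
    have h1 : (m ^ 6 + 1) ^ 2 ≤ (11 / 10 * m ^ 6) ^ 2 :=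
      pow_le_pow_left₀ (by positivity) hn1 2
    have h1' : (11 / 10 * m ^ 6) ^ 2 = 121 / 100 * m ^ 12 := by ring
    have h2 : Real.sqrt (32 * (2 * m ^ 2 / 10 ^ 14) ^ 2 + 1024) ≤ m ^ 2 / 10 ^ 11 := by
      refine Real.sqrt_le_iff.2 ⟨by positivity, ?_⟩
      have e1 : 32 * (2 * m ^ 2 / 10 ^ 14) ^ 2 = 128 * m ^ 4 / 10 ^ 28 := by ring
      have e2 : (m ^ 2 / 10 ^ 11) ^ 2 = m ^ 4 / 10 ^ 22 := by ring
      rw [e1, e2]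
      linarith
    have h3 : Real.sqrt (32 * (m ^ 6 + 1) ^ 3) ≤ 16 * m ^ 9 := by
      refine Real.sqrt_le_iff.2 ⟨by positivity, ?_⟩
      calc 32 * (m ^ 6 + 1) ^ 3 ≤ 32 * (2 * m ^ 6) ^ 3 :=
            mul_le_mul_of_nonneg_left (pow_le_pow_left₀ (by positivity) (by linarith) 3)
              (by norm_num)
        _ = (16 * m ^ 9) ^ 2 := by ring
    have h4 : Real.sqrt (32 * (2 * m ^ 2 / 10 ^ 14) ^ 2 + 1024) * Real.sqrt (32 * (m ^ 6 + 1) ^ 3)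
        ≤ m ^ 12 / 100 := by
      calc Real.sqrt (32 * (2 * m ^ 2 / 10 ^ 14) ^ 2 + 1024) * Real.sqrt (32 * (m ^ 6 + 1) ^ 3)
          ≤ (m ^ 2 / 10 ^ 11) * (16 * m ^ 9) :=
            mul_le_mul h2 h3 (Real.sqrt_nonneg _) (by positivity)
        _ = 16 * m ^ 11 / 10 ^ 11 := by ring
        _ ≤ m ^ 12 / 100 := by
            have h3 : m ^ 12 = m * m ^ 11 := by ring
            have h4 : 0 ≤ m ^ 11 := by positivity
            have h5 : 10 ^ 9 * m ^ 11 ≤ m * m ^ 11 := mul_le_mul_of_nonneg_right hm h4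
            rw [h3]
            linarith
    have h5 : (m ^ 6 + 1) * B ≤ m ^ 12 / 100 := by
      calc (m ^ 6 + 1) * B ≤ (2 * m ^ 6) * (m ^ 2 / 10 ^ 12) :=
            mul_le_mul (by linarith) hB1 hB0 (by positivity)
        _ = 2 * m ^ 8 / 10 ^ 12 := by ring
        _ ≤ m ^ 12 / 100 := by
            have h3 : m ^ 12 = m ^ 4 * m ^ 8 := by ring
            have h4 : 0 ≤ m ^ 8 := by positivity
            have h5 : 10 ^ 36 * m ^ 8 ≤ m ^ 4 * m ^ 8 := mul_le_mul_of_nonneg_right hm4 h4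
            rw [h3]
            linarith
    rw [div_le_iff₀ (by norm_num)]
    rw [h1'] at h1
    linarith
  -- R3
  have hR3 : 2 * (2 * (m ^ 7 / 10 ^ 14) * m ^ 5 +
      112 * (m ^ 7 / 10 ^ 14) * (m ^ 6 + 1) ^ 3 / (m ^ 5) ^ 3) ≤ m ^ 12 / 10 ^ 8 := by
    have h1 : (m ^ 6 + 1) ^ 3 ≤ 8 * m ^ 18 := by
      calc (m ^ 6 + 1) ^ 3 ≤ (2 * m ^ 6) ^ 3 := pow_le_pow_left₀ (by positivity) (by linarith) 3
        _ = 8 * m ^ 18 := by ring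
    have h2 : 112 * (m ^ 7 / 10 ^ 14) * (m ^ 6 + 1) ^ 3 / (m ^ 5) ^ 3 ≤ 896 * m ^ 10 / 10 ^ 14 := by
      rw [div_le_iff₀ (by positivity)]
      calc 112 * (m ^ 7 / 10 ^ 14) * (m ^ 6 + 1) ^ 3
          ≤ 112 * (m ^ 7 / 10 ^ 14) * (8 * m ^ 18) :=
            mul_le_mul_of_nonneg_left h1 (by positivity)
        _ = 896 * m ^ 10 / 10 ^ 14 * (m ^ 5) ^ 3 := by ring
    have h3 : 2 * (m ^ 7 / 10 ^ 14) * m ^ 5 = 2 * m ^ 12 / 10 ^ 14 := by ring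
    have h4 : m ^ 12 = m ^ 2 * m ^ 10 := by ring
    have h5 : 0 ≤ m ^ 10 := by positivity
    have h6 : 10 ^ 18 * m ^ 10 ≤ m ^ 2 * m ^ 10 := mul_le_mul_of_nonneg_right hm2 h5
    rw [h3]
    rw [← h4] at h6
    linarith
  -- R4
  have hR4 : 6 * Real.sqrt (m ^ 6 + 1) * Real.sqrt B
          * Real.sqrt (8 * (m ^ 7 / 10 ^ 14) ^ 2 + 4 * m ^ 12 / 10 ^ 14) ≤ m ^ 12 / 10 ^ 8 := by
    have h1 : Real.sqrt (m ^ 6 + 1) ≤ 2 * m ^ 3 := by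
      refine Real.sqrt_le_iff.2 ⟨by positivity, ?_⟩
      have : (2 * m ^ 3) ^ 2 = 4 * m ^ 6 := by ring
      rw [this]
      linarith
    have h2 : Real.sqrt (8 * (m ^ 7 / 10 ^ 14) ^ 2 + 4 * m ^ 12 / 10 ^ 14) ≤ m ^ 7 / 10 ^ 13 := by
      refine Real.sqrt_le_iff.2 ⟨by positivity, ?_⟩
      have e1 : 8 * (m ^ 7 / 10 ^ 14) ^ 2 = 8 * m ^ 14 / 10 ^ 28 := by ring
      have e2 : (m ^ 7 / 10 ^ 13) ^ 2 = m ^ 14 / 10 ^ 26 := by ring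
      have e3 : m ^ 14 = m ^ 2 * m ^ 12 := by ring
      have h6 : 10 ^ 18 * m ^ 12 ≤ m ^ 2 * m ^ 12 := mul_le_mul_of_nonneg_right hm2 h12.le
      rw [e1, e2, e3]
      linarith
    calc 6 * Real.sqrt (m ^ 6 + 1) * Real.sqrt B
          * Real.sqrt (8 * (m ^ 7 / 10 ^ 14) ^ 2 + 4 * m ^ 12 / 10 ^ 14)
        ≤ 6 * (2 * m ^ 3) * (m / 10 ^ 6) * (m ^ 7 / 10 ^ 13) := by
          refine mul_le_mul (mul_le_mul (mul_le_mul_of_nonneg_left h1 (by norm_num)) hsB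
            (Real.sqrt_nonneg _) (by positivity)) h2 (Real.sqrt_nonneg _) (by positivity)
      _ = 12 * m ^ 11 / 10 ^ 19 := by ring
      _ ≤ m ^ 12 / 10 ^ 8 := by
          have h3 : m ^ 12 = m * m ^ 11 := by ring
          have h4 : 0 ≤ m ^ 11 := by positivity
          have h5 : 10 ^ 9 * m ^ 11 ≤ m * m ^ 11 := mul_le_mul_of_nonneg_right hm h4
          rw [h3]
          linarith
  -- the lower side
  have hlow : 42 * m ^ 12 / 10 ^ 7 ≤ q * (7 / 512 * S - (m ^ 6 + 2) * (j + 2) *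
      Real.sqrt ((m ^ 6 + 2) * B)) := by
    have h1 : 54 * m ^ 12 / 10 ^ 5 ≤ 7 / 512 * S - (m ^ 6 + 2) * (j + 2) *
        Real.sqrt ((m ^ 6 + 2) * B) := by linarith
    have h2 : 0 ≤ 7 / 512 * S - (m ^ 6 + 2) * (j + 2) * Real.sqrt ((m ^ 6 + 2) * B) :=
      le_trans (by positivity) h1
    have h3 := mul_le_mul_of_nonneg_right hq h2
    linarith
  linarith

end Disc3
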