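import Pool.Agent.Work.MP_d500f7_co.Defs

namespace Disc3

open Finset

variable {L : ℕ}

/-! ### `rel` and `Meas` -/

lemma rel_refl (v : Fin 3 → ℕ) (ω : Om L) : rel v ω ω := fun _ _ _ => rfl
lemma rel_symm {v : Fin 3 → ℕ} {ω ω' : Om L} (h : rel v ω ω') : rel v ω' ω :=
  fun c i hi => (h c i hi).symm
lemma rel_trans {v : Fin 3 → ℕ} {a b c : Om L} (h : rel v a b) (h' : rel v b c) : rel v a c :=
  fun d i hi => (h d i hi).trans (h' d i hi)
lemma rel_mono {v v' : Fin 3 → ℕ} (hv : ∀ c, v c ≤ v' c) {a b : Om L} (h : rel v' a b) :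
    rel v a b := fun d i hi => h d i (lt_of_lt_of_le hi (hv d))

lemma rel_eq_of_full {v : Fin 3 → ℕ} (hv : ∀ c, L ≤ v c) {a b : Om L} (h : rel v a b) : a = b := by
  funext c i
  exact h c i (lt_of_lt_of_le i.2 (hv c))

lemma Meas.mono {v v' : Fin 3 → ℕ} {g : Om L → ℝ} (h : Meas v g) (hv : ∀ c, v c ≤ v' c) :
    Meas v' g := fun a b hab => h a b (rel_mono hv hab)

lemma meas_full {v : Fin 3 → ℕ} (hv : ∀ c, L ≤ v c) (g : Om L → ℝ) : Meas v g :=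
  fun a b hab => by rw [rel_eq_of_full hv hab]

lemma meas_const (v : Fin 3 → ℕ) (a : ℝ) : Meas v (fun _ : Om L => a) := fun _ _ _ => rfl

lemma Meas.mul {v : Fin 3 → ℕ} {g h : Om L → ℝ} (hg : Meas v g) (hh : Meas v h) :
    Meas v (fun ω => g ω * h ω) := fun a b hab => by simp only [hg a b hab, hh a b hab]
lemma Meas.add {v : Fin 3 → ℕ} {g h : Om L → ℝ} (hg : Meas v g) (hh : Meas v h) :
    Meas v (fun ω => g ω + h ω) := fun a b hab => by simp only [hg a b hab, hh a b hab]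
lemma Meas.sub {v : Fin 3 → ℕ} {g h : Om L → ℝ} (hg : Meas v g) (hh : Meas v h) :
    Meas v (fun ω => g ω - h ω) := fun a b hab => by simp only [hg a b hab, hh a b hab]
lemma Meas.comp {v : Fin 3 → ℕ} {g : Om L → ℝ} (hg : Meas v g) (F : ℝ → ℝ) :
    Meas v (fun ω => F (g ω)) := fun a b hab => by simp only [hg a b hab]
lemma Meas.neg {v : Fin 3 → ℕ} {g : Om L → ℝ} (hg : Meas v g) :
    Meas v (fun ω => - g ω) := hg.comp (fun x => -x)
lemma Meas.pow {v : Fin 3 → ℕ} {g : Om L → ℝ} (hg : Meas v g) (k : ℕ) :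
    Meas v (fun ω => g ω ^ k) := hg.comp (fun x => x ^ k)
lemma Meas.comp₂ {v : Fin 3 → ℕ} {g h : Om L → ℝ} (hg : Meas v g) (hh : Meas v h)
    (F : ℝ → ℝ → ℝ) :
    Meas v (fun ω => F (g ω) (h ω)) := fun a b hab => by simp only [hg a b hab, hh a b hab]
lemma Meas.sum {ι : Type*} {v : Fin 3 → ℕ} (s : Finset ι) {g : ι → Om L → ℝ}
    (hg : ∀ i ∈ s, Meas v (g i)) : Meas v (fun ω => ∑ i ∈ s, g i ω) :=
  fun a b hab => Finset.sum_congr rfl (fun i hi => hg i hi a b hab)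
lemma Meas.prod {ι : Type*} {v : Fin 3 → ℕ} (s : Finset ι) {g : ι → Om L → ℝ}
    (hg : ∀ i ∈ s, Meas v (g i)) : Meas v (fun ω => ∏ i ∈ s, g i ω) :=
  fun a b hab => Finset.prod_congr rfl (fun i hi => hg i hi a b hab)

lemma meas_dg {v : Fin 3 → ℕ} {c : Fin 3} {i : ℕ} (h : i < v c) : Meas v (dg (L := L) c i) := by
  intro a b hab
  unfold dg
  split_ifs with h1 h2 h3 h3
  · rfl
  · exact absurd (hab c ⟨i, h1⟩ h ▸ h2) h3
  · exact absurd ((hab c ⟨i, h1⟩ h).symm ▸ h3) h2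
  · rfl
  · rfl

lemma dg_sq (c : Fin 3) (i : ℕ) (ω : Om L) : dg c i ω ^ 2 = 1 := by
  unfold dg; split_ifs <;> norm_num

lemma dg_mul_self (c : Fin 3) (i : ℕ) (ω : Om L) : dg c i ω * dg c i ω = 1 := by
  have := dg_sq c i ω; rwa [sq] at this

lemma abs_dg (c : Fin 3) (i : ℕ) (ω : Om L) : |dg c i ω| = 1 := by
  unfold dg; split_ifs <;> norm_num

lemma dg_eq_or (c : Fin 3) (i : ℕ) (ω : Om L) : dg c i ω = 1 ∨ dg c i ω = -1 := by
  unfold dg; split_ifs <;> norm_num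

/-! ### `Ex` -/

lemma Ex_add (w g h : Om L → ℝ) : Ex w (fun ω => g ω + h ω) = Ex w g + Ex w h := by
  simp only [Ex, mul_add, Finset.sum_add_distrib]
lemma Ex_sub (w g h : Om L → ℝ) : Ex w (fun ω => g ω - h ω) = Ex w g - Ex w h := by
  simp only [Ex, mul_sub, Finset.sum_sub_distrib]
lemma Ex_neg (w g : Om L → ℝ) : Ex w (fun ω => - g ω) = - Ex w g := by
  simp only [Ex, mul_neg, Finset.sum_neg_distrib]
lemma Ex_const_mul (w : Om L → ℝ) (a : ℝ) (g : Om L → ℝ) :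
    Ex w (fun ω => a * g ω) = a * Ex w g := by
  simp only [Ex, Finset.mul_sum]
  exact Finset.sum_congr rfl (fun _ _ => by ring)
lemma Ex_mul_const (w : Om L → ℝ) (a : ℝ) (g : Om L → ℝ) :
    Ex w (fun ω => g ω * a) = Ex w g * a := by
  simp only [Ex, Finset.sum_mul]
  exact Finset.sum_congr rfl (fun _ _ => by ring)
lemma Ex_sum {ι : Type*} (w : Om L → ℝ) (s : Finset ι) (g : ι → Om L → ℝ) :
    Ex w (fun ω => ∑ i ∈ s, g i ω) = ∑ i ∈ s, Ex w (g i) := by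
  simp only [Ex, Finset.mul_sum]
  exact Finset.sum_comm
lemma Ex_congr (w : Om L → ℝ) {g h : Om L → ℝ} (hgh : ∀ ω, g ω = h ω) : Ex w g = Ex w h := by
  have : g = h := funext hgh
  rw [this]
lemma Ex_mono {w g h : Om L → ℝ} (hw : ∀ ω, 0 ≤ w ω) (hgh : ∀ ω, g ω ≤ h ω) : Ex w g ≤ Ex w h :=
  Finset.sum_le_sum (fun ω _ => mul_le_mul_of_nonneg_left (hgh ω) (hw ω))
lemma Ex_nonneg {w g : Om L → ℝ} (hw : ∀ ω, 0 ≤ w ω) (hg : ∀ ω, 0 ≤ g ω) : 0 ≤ Ex w g :=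
  Finset.sum_nonneg (fun ω _ => mul_nonneg (hw ω) (hg ω))
lemma Ex_const {w : Om L → ℝ} (hw : ∑ ω, w ω = 1) (a : ℝ) : Ex w (fun _ => a) = a := by
  simp only [Ex, ← Finset.sum_mul, hw, one_mul]
lemma abs_Ex_le {w g : Om L → ℝ} (hw : ∀ ω, 0 ≤ w ω) : |Ex w g| ≤ Ex w (fun ω => |g ω|) := by
  unfold Ex
  refine (Finset.abs_sum_le_sum_abs _ _).trans (le_of_eq ?_)
  exact Finset.sum_congr rfl (fun ω _ => by rw [abs_mul, abs_of_nonneg (hw ω)])

lemma IsPr.nonneg {w : Om L → ℝ} (h : IsPr w) : ∀ ω, 0 ≤ w ω := fun ω => (h.pos ω).le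

lemma Ex_le_of_le {w g : Om L → ℝ} (hw : IsPr w) {B : ℝ} (hg : ∀ ω, g ω ≤ B) : Ex w g ≤ B := by
  calc Ex w g ≤ Ex w (fun _ => B) := Ex_mono hw.nonneg hg
    _ = B := Ex_const hw.one B

/-- Cauchy–Schwarz -/
lemma Ex_mul_sq_le {w : Om L → ℝ} (hw : ∀ ω, 0 ≤ w ω) (g h : Om L → ℝ) :
    (Ex w (fun ω => g ω * h ω)) ^ 2 ≤ Ex w (fun ω => g ω ^ 2) * Ex w (fun ω => h ω ^ 2) := by
  have := Finset.sum_mul_sq_le_sq_mul_sq univ (fun ω => Real.sqrt (w ω) * g ω)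
    (fun ω => Real.sqrt (w ω) * h ω)
  have e1 : ∀ ω, Real.sqrt (w ω) * g ω * (Real.sqrt (w ω) * h ω) = w ω * (g ω * h ω) := by
    intro ω
    have := Real.mul_self_sqrt (hw ω)
    linear_combination (g ω * h ω) * this
  have e2 : ∀ g : Om L → ℝ, ∀ ω, (Real.sqrt (w ω) * g ω) ^ 2 = w ω * g ω ^ 2 := by
    intro g ω
    rw [mul_pow, Real.sq_sqrt (hw ω)]
  simp only [e1, e2] at this
  exact this

lemma abs_Ex_mul_le {w : Om L → ℝ} (hw : ∀ ω, 0 ≤ w ω) (g h : Om L → ℝ) :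
    |Ex w (fun ω => g ω * h ω)| ≤
      Real.sqrt (Ex w (fun ω => g ω ^ 2)) * Real.sqrt (Ex w (fun ω => h ω ^ 2)) := by
  rw [← Real.sqrt_mul (Ex_nonneg hw (fun ω => sq_nonneg _))]
  exact Real.abs_le_sqrt (Ex_mul_sq_le hw g h)

lemma Ex_abs_le_sqrt {w : Om L → ℝ} (hw : IsPr w) (g : Om L → ℝ) :
    Ex w (fun ω => |g ω|) ≤ Real.sqrt (Ex w (fun ω => g ω ^ 2)) := by
  have := abs_Ex_mul_le hw.nonneg (fun ω => |g ω|) (fun _ => 1)
  simp only [mul_one, sq_abs, one_pow, Ex_const hw.one, Real.sqrt_one] at this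
  exact (le_abs_self _).trans this

/-! ### `CE` -/

lemma CE_den_pos {w : Om L → ℝ} (hw : ∀ ω, 0 < w ω) (v : Fin 3 → ℕ) (ω : Om L) :
    0 < ∑ ω' ∈ univ.filter (fun ω' => rel v ω ω'), w ω' :=
  Finset.sum_pos (fun ω' _ => hw ω') ⟨ω, by simp [rel_refl]⟩

lemma filter_rel_congr {v : Fin 3 → ℕ} {ω ω' : Om L} (h : rel v ω ω') :
    univ.filter (fun a => rel v ω a) = univ.filter (fun a => rel v ω' a) := by
  ext a
  simp only [mem_filter, mem_univ, true_and]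
  exact ⟨fun h1 => rel_trans (rel_symm h) h1, fun h1 => rel_trans h h1⟩

lemma meas_CE (w : Om L → ℝ) (v : Fin 3 → ℕ) (g : Om L → ℝ) : Meas v (CE w v g) := by
  intro a b hab
  unfold CE
  rw [filter_rel_congr hab]

lemma Ex_mul_CE {w : Om L → ℝ} (hw : ∀ ω, 0 < w ω) {v : Fin 3 → ℕ} {h : Om L → ℝ}
    (hh : Meas v h) (g : Om L → ℝ) :
    Ex w (fun ω => h ω * CE w v g ω) = Ex w (fun ω => h ω * g ω) := by
  unfold Ex CE
  set W : Om L → ℝ := fun ω => ∑ ω' ∈ univ.filter (fun ω' => rel v ω ω'), w ω' with hW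
  have h1 : ∀ ω, w ω * (h ω * ((∑ ω' ∈ univ.filter (fun ω' => rel v ω ω'), w ω' * g ω') /
      (∑ ω' ∈ univ.filter (fun ω' => rel v ω ω'), w ω'))) =
      ∑ ω', if rel v ω ω' then w ω * h ω / W ω * (w ω' * g ω') else 0 := by
    intro ω
    rw [← Finset.sum_filter, ← Finset.mul_sum]
    ring
  rw [Finset.sum_congr rfl (fun ω _ => h1 ω), Finset.sum_comm]
  refine Finset.sum_congr rfl (fun ω' _ => ?_)
  have h2 : ∀ ω, (if rel v ω ω' then w ω * h ω / W ω * (w ω' * g ω') else 0) =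
      if rel v ω' ω then w ω * (h ω' / W ω' * (w ω' * g ω')) else 0 := by
    intro ω
    by_cases hr : rel v ω ω'
    · rw [if_pos hr, if_pos (rel_symm hr), hh ω ω' hr]
      have : W ω = W ω' := by simp only [hW, filter_rel_congr hr]
      rw [this]; ring
    · rw [if_neg hr, if_neg (fun h' => hr (rel_symm h'))]
  rw [Finset.sum_congr rfl (fun ω _ => h2 ω), ← Finset.sum_filter, ← Finset.sum_mul]
  have h3 : W ω' ≠ 0 := (CE_den_pos hw v ω').ne'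
  change W ω' * _ = _
  field_simp

/-- uniqueness of the conditional expectation -/
lemma CE_unique {w : Om L → ℝ} (hw : ∀ ω, 0 < w ω) {v : Fin 3 → ℕ} {k g : Om L → ℝ}
    (hk : Meas v k)
    (h : ∀ h : Om L → ℝ, Meas v h → Ex w (fun ω => h ω * k ω) = Ex w (fun ω => h ω * g ω)) :
    ∀ ω, CE w v g ω = k ω := by
  have hm : Meas v (fun ω => CE w v g ω - k ω) := (meas_CE w v g).sub hk
  have h0 : Ex w (fun ω => (CE w v g ω - k ω) * (CE w v g ω - k ω)) = 0 := by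
    have e1 := Ex_mul_CE hw hm g
    have e2 := h _ hm
    have : Ex w (fun ω => (CE w v g ω - k ω) * (CE w v g ω - k ω)) =
      Ex w (fun ω => (CE w v g ω - k ω) * CE w v g ω) - Ex w (fun ω => (CE w v g ω - k ω) * k ω) := by
      rw [← Ex_sub]; exact Ex_congr w (fun ω => by ring)
    rw [this, e1, e2, sub_self]
  intro ω
  unfold Ex at h0
  rw [Finset.sum_eq_zero_iff_of_nonneg
    (fun ω _ => mul_nonneg (hw ω).le (mul_self_nonneg _))] at h0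
  have := h0 ω (mem_univ _)
  rcases mul_eq_zero.1 this with h1 | h1
  · exact absurd h1 (hw ω).ne'
  · exact sub_eq_zero.1 (mul_self_eq_zero.1 h1)

lemma CE_of_meas {w : Om L → ℝ} (hw : ∀ ω, 0 < w ω) {v : Fin 3 → ℕ} {g : Om L → ℝ}
    (hg : Meas v g) (ω : Om L) : CE w v g ω = g ω :=
  CE_unique hw hg (fun _ _ => rfl) ω

lemma CE_tower {w : Om L → ℝ} (hw : ∀ ω, 0 < w ω) {v v' : Fin 3 → ℕ} (hv : ∀ c, v c ≤ v' c)
    (g : Om L → ℝ) (ω : Om L) : CE w v (CE w v' g) ω = CE w v g ω := by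
  refine CE_unique hw (meas_CE w v g) (fun h hh => ?_) ω
  rw [Ex_mul_CE hw hh, Ex_mul_CE hw (hh.mono hv)]

lemma CE_mul_left {w : Om L → ℝ} (hw : ∀ ω, 0 < w ω) {v : Fin 3 → ℕ} {h : Om L → ℝ}
    (hh : Meas v h) (g : Om L → ℝ) (ω : Om L) :
    CE w v (fun ω => h ω * g ω) ω = h ω * CE w v g ω := by
  refine CE_unique hw (hh.mul (meas_CE w v g)) (fun k hk => ?_) ω
  have := Ex_mul_CE hw (hk.mul hh) g
  simp only [mul_assoc] at this
  exact this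

lemma CE_add (w : Om L → ℝ) (v : Fin 3 → ℕ) (g h : Om L → ℝ) (ω : Om L) :
    CE w v (fun ω => g ω + h ω) ω = CE w v g ω + CE w v h ω := by
  simp only [CE, mul_add, Finset.sum_add_distrib, add_div]
lemma CE_sub (w : Om L → ℝ) (v : Fin 3 → ℕ) (g h : Om L → ℝ) (ω : Om L) :
    CE w v (fun ω => g ω - h ω) ω = CE w v g ω - CE w v h ω := by
  simp only [CE, mul_sub, Finset.sum_sub_distrib, sub_div]
lemma CE_neg (w : Om L → ℝ) (v : Fin 3 → ℕ) (g : Om L → ℝ) (ω : Om L) :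
    CE w v (fun ω => - g ω) ω = - CE w v g ω := by
  simp only [CE, mul_neg, Finset.sum_neg_distrib, neg_div]
lemma CE_const_mul (w : Om L → ℝ) (v : Fin 3 → ℕ) (a : ℝ) (g : Om L → ℝ) (ω : Om L) :
    CE w v (fun ω => a * g ω) ω = a * CE w v g ω := by
  simp only [CE, mul_left_comm _ a, ← Finset.mul_sum, mul_div_assoc]
lemma CE_sum {ι : Type*} (w : Om L → ℝ) (v : Fin 3 → ℕ) (s : Finset ι) (g : ι → Om L → ℝ)
    (ω : Om L) : CE w v (fun ω => ∑ i ∈ s, g i ω) ω = ∑ i ∈ s, CE w v (g i) ω := by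
  simp only [CE, Finset.mul_sum, Finset.sum_div]
  rw [Finset.sum_comm]
lemma CE_congr (w : Om L → ℝ) (v : Fin 3 → ℕ) {g h : Om L → ℝ} (hgh : ∀ ω, g ω = h ω)
    (ω : Om L) : CE w v g ω = CE w v h ω := by
  have : g = h := funext hgh
  rw [this]
lemma CE_mono {w : Om L → ℝ} (hw : ∀ ω, 0 < w ω) (v : Fin 3 → ℕ) {g h : Om L → ℝ}
    (hgh : ∀ ω, g ω ≤ h ω) (ω : Om L) : CE w v g ω ≤ CE w v h ω := by
  unfold CE
  gcongr with ω' _
  · exact (CE_den_pos hw v ω).le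
  · exact (hw ω').le
  · exact hgh ω'
lemma CE_const {w : Om L → ℝ} (hw : ∀ ω, 0 < w ω) (v : Fin 3 → ℕ) (a : ℝ) (ω : Om L) :
    CE w v (fun _ => a) ω = a := CE_of_meas hw (meas_const v a) ω
lemma CE_pos {w : Om L → ℝ} (hw : ∀ ω, 0 < w ω) (v : Fin 3 → ℕ) {g : Om L → ℝ}
    (hg : ∀ ω, 0 < g ω) (ω : Om L) : 0 < CE w v g ω := by
  unfold CE
  exact div_pos (Finset.sum_pos (fun ω' _ => mul_pos (hw ω') (hg ω')) ⟨ω, by simp [rel_refl]⟩)
    (CE_den_pos hw v ω)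
lemma abs_CE_le {w : Om L → ℝ} (hw : ∀ ω, 0 < w ω) (v : Fin 3 → ℕ) {g : Om L → ℝ} {B : ℝ}
    (hg : ∀ ω, |g ω| ≤ B) (ω : Om L) : |CE w v g ω| ≤ B := by
  rw [abs_le]
  constructor
  · have := CE_mono hw v (g := fun _ => -B) (h := g) (fun ω => (abs_le.1 (hg ω)).1) ω
    rwa [CE_const hw] at this
  · have := CE_mono hw v (g := g) (h := fun _ => B) (fun ω => (abs_le.1 (hg ω)).2) ω
    rwa [CE_const hw] at this

lemma Ex_CE {w : Om L → ℝ} (hw : ∀ ω, 0 < w ω) (v : Fin 3 → ℕ) (g : Om L → ℝ) :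
    Ex w (CE w v g) = Ex w g := by
  have := Ex_mul_CE hw (meas_const v 1) g
  simpa only [one_mul] using this

lemma Ex_CE_sq_le {w : Om L → ℝ} (hw : ∀ ω, 0 < w ω) (v : Fin 3 → ℕ) (g : Om L → ℝ) :
    Ex w (fun ω => CE w v g ω ^ 2) ≤ Ex w (fun ω => g ω ^ 2) := by
  have h1 : 0 ≤ Ex w (fun ω => (g ω - CE w v g ω) ^ 2) :=
    Ex_nonneg (fun ω => (hw ω).le) (fun ω => sq_nonneg _)
  have h2 : Ex w (fun ω => (g ω - CE w v g ω) ^ 2) =
      Ex w (fun ω => g ω ^ 2) - 2 * Ex w (fun ω => CE w v g ω * g ω)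
        + Ex w (fun ω => CE w v g ω * CE w v g ω) := by
    rw [← Ex_const_mul, ← Ex_sub, ← Ex_add]; exact Ex_congr w (fun ω => by ring)
  have h3 := Ex_mul_CE hw (meas_CE w v g) g
  have h4 : Ex w (fun ω => CE w v g ω ^ 2) = Ex w (fun ω => CE w v g ω * CE w v g ω) :=
    Ex_congr w (fun ω => by ring)
  rw [h2, h3] at h1
  rw [h4, h3]; linarith

end Disc3
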