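import Pool.Agent.Work.MP_d500f7_co.Flip

namespace Disc3

open Finset

variable {L : ℕ}

/-- level vector: full in all coordinates but `c`, where it is `s` -/
def vc (L : ℕ) (c : Fin 3) (s : ℕ) : Fin 3 → ℕ := Function.update (fun _ => L) c s

lemma vc_self (c : Fin 3) (s : ℕ) : vc L c s c = s := by simp [vc]

lemma vc_mono (c : Fin 3) {s s' : ℕ} (h : s ≤ s') : ∀ d, vc L c s d ≤ vc L c s' d := by
  intro d
  unfold vc
  by_cases hd : d = c
  · subst hd; simpa using h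
  · simp [Function.update_of_ne hd]

lemma vc_succ (c : Fin 3) (s : ℕ) :
    Function.update (vc L c s) c (vc L c s c + 1) = vc L c (s + 1) := by
  unfold vc; simp

lemma vc_full (c : Fin 3) : ∀ d, L ≤ vc L c L d := by
  intro d
  unfold vc
  by_cases hd : d = c
  · subst hd; simp
  · simp [Function.update_of_ne hd]

lemma vc_zero_eq (s : ℕ) : vc L 0 s = ![s, L, L] := by
  funext d; unfold vc; fin_cases d <;> rfl

lemma vc_one_eq (t : ℕ) : vc L 1 t = ![L, t, L] := by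
  funext d; unfold vc; fin_cases d <;> rfl

/-- bias of digit `s` of coordinate `c` -/
noncomputable def bb (c : Fin 3) (w : Om L → ℝ) (s : ℕ) (ω : Om L) : ℝ :=
  CE w (vc L c s) (dg c s) ω

/-- sum of the squares of the biases -/
noncomputable def nbb (c : Fin 3) (w : Om L → ℝ) (ω : Om L) : ℝ :=
  ∑ s ∈ range L, (bb c w s ω) ^ 2

lemma bb_zero (w : Om L → ℝ) (s : ℕ) (ω : Om L) : bb 0 w s ω = bx w s ω := by
  unfold bb bx; rw [vc_zero_eq]

lemma bb_one (w : Om L → ℝ) (t : ℕ) (ω : Om L) : bb 1 w t ω = bz w t ω := by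
  unfold bb bz; rw [vc_one_eq]

lemma nbb_zero (w : Om L → ℝ) : nbb 0 w = nb w := by
  funext ω; unfold nbb nb; simp only [bb_zero]

lemma nbb_one (w : Om L → ℝ) : nbb 1 w = ng w := by
  funext ω; unfold nbb ng; simp only [bb_one]

lemma meas_bb (c : Fin 3) (w : Om L → ℝ) (s : ℕ) : Meas (vc L c s) (bb c w s) := meas_CE _ _ _

lemma abs_bb_le {w : Om L → ℝ} (hw : IsPr w) (c : Fin 3) (s : ℕ) (ω : Om L) :
    |bb c w s ω| ≤ 1 := abs_CE_le hw.pos _ (fun ω => (abs_dg c s ω).le) ω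

/-- density with respect to the uniform weight -/
noncomputable def dens (w : Om L → ℝ) (ω : Om L) : ℝ := w ω / Pw L ω

lemma Pw_mul_dens (w : Om L → ℝ) (ω : Om L) : Pw L ω * dens w ω = w ω :=
  mul_div_cancel₀ _ (Pw_pos ω).ne'

lemma Ex_eq_dens (w g : Om L → ℝ) : Ex w g = Ex (Pw L) (fun ω => dens w ω * g ω) := by
  unfold Ex
  refine Finset.sum_congr rfl (fun ω _ => ?_)
  rw [← mul_assoc, Pw_mul_dens]

lemma dens_pos {w : Om L → ℝ} (hw : IsPr w) (ω : Om L) : 0 < dens w ω :=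
  div_pos (hw.pos ω) (Pw_pos ω)

lemma dens_le {w : Om L → ℝ} {K : ℝ} (hK : ∀ ω, w ω ≤ Real.exp K * Pw L ω) (ω : Om L) :
    dens w ω ≤ Real.exp K := by
  unfold dens
  rw [div_le_iff₀ (Pw_pos ω)]
  exact hK ω

lemma Ex_dens {w : Om L → ℝ} (hw : IsPr w) : Ex (Pw L) (dens w) = 1 := by
  have h := Ex_eq_dens w (fun _ => (1 : ℝ))
  rw [Ex_const hw.one] at h
  simpa using h.symm

/-- the martingale of densities -/
noncomputable def rr (c : Fin 3) (w : Om L → ℝ) (s : ℕ) (ω : Om L) : ℝ :=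
  CE (Pw L) (vc L c s) (dens w) ω

lemma rr_pos {w : Om L → ℝ} (hw : IsPr w) (c : Fin 3) (s : ℕ) (ω : Om L) : 0 < rr c w s ω :=
  CE_pos Pw_pos _ (dens_pos hw) ω

lemma meas_rr (c : Fin 3) (w : Om L → ℝ) (s : ℕ) : Meas (vc L c s) (rr c w s) := meas_CE _ _ _

lemma rr_full (c : Fin 3) (w : Om L → ℝ) (ω : Om L) : rr c w L ω = dens w ω :=
  CE_of_meas Pw_pos (meas_full (vc_full c) _) ω

lemma Ex_rr {w : Om L → ℝ} (hw : IsPr w) (c : Fin 3) (s : ℕ) : Ex (Pw L) (rr c w s) = 1 := by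
  unfold rr
  have := Ex_CE (w := Pw L) Pw_pos (vc L c s) (dens w)
  rw [this, Ex_dens hw]

lemma CE_dens {w : Om L → ℝ} (hw : IsPr w) (v : Fin 3 → ℕ) (g : Om L → ℝ) (ω : Om L) :
    CE (Pw L) v (fun ω => g ω * dens w ω) ω = CE w v g ω * CE (Pw L) v (dens w) ω := by
  refine CE_unique (w := Pw L) Pw_pos (v := v)
    (k := fun ω => CE w v g ω * CE (Pw L) v (dens w) ω)
    ((meas_CE _ _ _).mul (meas_CE _ _ _)) (fun h hh => ?_) ω
  have e1 := Ex_mul_CE (w := Pw L) Pw_pos (hh.mul (meas_CE w v g)) (dens w)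
  have e2 := Ex_mul_CE hw.pos hh g
  rw [Ex_eq_dens, Ex_eq_dens w] at e2
  calc Ex (Pw L) (fun ω => h ω * (CE w v g ω * CE (Pw L) v (dens w) ω))
      = Ex (Pw L) (fun ω => h ω * CE w v g ω * CE (Pw L) v (dens w) ω) :=
        Ex_congr _ (fun ω => by ring)
    _ = Ex (Pw L) (fun ω => h ω * CE w v g ω * dens w ω) := e1
    _ = Ex (Pw L) (fun ω => dens w ω * (h ω * CE w v g ω)) := Ex_congr _ (fun ω => by ring)
    _ = Ex (Pw L) (fun ω => dens w ω * (h ω * g ω)) := e2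
    _ = Ex (Pw L) (fun ω => h ω * (g ω * dens w ω)) := Ex_congr _ (fun ω => by ring)

lemma rr_succ {w : Om L → ℝ} (hw : IsPr w) (c : Fin 3) {s : ℕ} (hs : s < L) (ω : Om L) :
    rr c w (s + 1) ω = rr c w s ω * (1 + dg c s ω * bb c w s ω) := by
  have h := haar_step (v := vc L c s) (c := c) (by rw [vc_self]; exact hs) (dens w) ω
  rw [vc_succ, vc_self] at h
  have h2 := CE_dens hw (vc L c s) (dg c s) ω
  unfold rr bb
  rw [h, h2]
  ring

/-- `(√(1+b) + √(1-b))/2 ≤ exp(-b²/8)` -/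
lemma sqrt_avg_le {b : ℝ} (hb : |b| ≤ 1) :
    (Real.sqrt (1 + b) + Real.sqrt (1 - b)) / 2 ≤ Real.exp (-(b ^ 2 / 8)) := by
  obtain ⟨h1, h2⟩ := abs_le.1 hb
  have hp : 0 ≤ 1 + b := by linarith
  have hm : 0 ≤ 1 - b := by linarith
  have e1 := Real.sq_sqrt hp
  have e2 := Real.sq_sqrt hm
  have n1 := Real.sqrt_nonneg (1 + b)
  have n2 := Real.sqrt_nonneg (1 - b)
  set p := Real.sqrt (1 + b)
  set q := Real.sqrt (1 - b)
  have hpq : p * q ≤ 1 - b ^ 2 / 2 := by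
    have hpq2 : (p * q) ^ 2 = 1 - b ^ 2 := by rw [mul_pow, e1, e2]; ring
    have hb2 : b ^ 2 ≤ 1 := by nlinarith
    have hnn : 0 ≤ 1 - b ^ 2 / 2 := by linarith
    refine le_of_pow_le_pow_left₀ two_ne_zero hnn ?_
    rw [hpq2]; nlinarith [sq_nonneg (b ^ 2)]
  have hsq : ((p + q) / 2) ^ 2 ≤ Real.exp (-(b ^ 2 / 8)) ^ 2 := by
    have e3 : ((p + q) / 2) ^ 2 = (1 + p * q) / 2 := by
      have : ((p + q) / 2) ^ 2 = (p ^ 2 + q ^ 2 + 2 * (p * q)) / 4 := by ring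
      rw [this, e1, e2]; ring
    have e4 : Real.exp (-(b ^ 2 / 8)) ^ 2 = Real.exp (-(b ^ 2 / 4)) := by
      rw [← Real.exp_nat_mul]; congr 1; push_cast; ring
    rw [e3, e4]
    have := Real.add_one_le_exp (-(b ^ 2 / 4))
    linarith
  exact le_of_pow_le_pow_left₀ two_ne_zero (Real.exp_pos _).le hsq


/-- the supermartingale -/
noncomputable def ZZ (c : Fin 3) (w : Om L → ℝ) (s : ℕ) (ω : Om L) : ℝ :=
  Real.exp (∑ i ∈ range s, (bb c w i ω) ^ 2 / 8) * Real.sqrt (rr c w s ω) *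
    Real.sqrt (rr c w 0 ω)

lemma sqrt_split {y b : ℝ} (hy : y = 1 ∨ y = -1) :
    Real.sqrt (1 + y * b) = (Real.sqrt (1 + b) + Real.sqrt (1 - b)) / 2 +
      y * ((Real.sqrt (1 + b) - Real.sqrt (1 - b)) / 2) := by
  rcases hy with rfl | rfl
  · rw [one_mul, one_mul]; ring
  · rw [neg_one_mul, ← sub_eq_add_neg]; ring

lemma meas_expsum (c : Fin 3) (w : Om L → ℝ) (s : ℕ) :
    Meas (vc L c s) (fun ω => Real.exp (∑ i ∈ range s, (bb c w i ω) ^ 2 / 8)) := by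
  refine Meas.comp (g := fun ω => ∑ i ∈ range s, (bb c w i ω) ^ 2 / 8) ?_ Real.exp
  refine Meas.sum (range s) (fun i hi => ?_)
  exact ((meas_bb c w i).mono (vc_mono c (mem_range.1 hi).le)).comp (fun x => x ^ 2 / 8)

lemma ZZ_step {w : Om L → ℝ} (hw : IsPr w) (c : Fin 3) {s : ℕ} (hs : s < L) :
    Ex (Pw L) (ZZ c w (s + 1)) ≤ Ex (Pw L) (ZZ c w s) := by
  set E : Om L → ℝ := fun ω => Real.exp (∑ i ∈ range s, (bb c w i ω) ^ 2 / 8) with hE
  set H : Om L → ℝ := fun ω => E ω * Real.exp ((bb c w s ω) ^ 2 / 8) *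
    Real.sqrt (rr c w s ω) * Real.sqrt (rr c w 0 ω) with hH
  set p : Om L → ℝ := fun ω => (Real.sqrt (1 + bb c w s ω) + Real.sqrt (1 - bb c w s ω)) / 2
    with hp
  set q : Om L → ℝ := fun ω => (Real.sqrt (1 + bb c w s ω) - Real.sqrt (1 - bb c w s ω)) / 2
    with hq
  have mE : Meas (vc L c s) E := meas_expsum c w s
  have mH : Meas (vc L c s) H :=
    ((mE.mul ((meas_bb c w s).comp (fun x => Real.exp (x ^ 2 / 8)))).mul
      ((meas_rr c w s).comp Real.sqrt)).mul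
      (((meas_rr c w 0).mono (vc_mono c (Nat.zero_le s))).comp Real.sqrt)
  have mq : Meas (vc L c s) q :=
    (meas_bb c w s).comp (fun x => (Real.sqrt (1 + x) - Real.sqrt (1 - x)) / 2)
  have e1 : Ex (Pw L) (ZZ c w (s + 1)) =
      Ex (Pw L) (fun ω => H ω * p ω) + Ex (Pw L) (fun ω => dg c s ω * (H ω * q ω)) := by
    rw [← Ex_add]
    refine Ex_congr _ (fun ω => ?_)
    have h1 : ZZ c w (s + 1) ω = H ω * Real.sqrt (1 + dg c s ω * bb c w s ω) := by
      unfold ZZ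
      rw [rr_succ hw c hs, Real.sqrt_mul (rr_pos hw c s ω).le, Finset.sum_range_succ, Real.exp_add]
      simp only [hH, hE]
      ring
    rw [h1, sqrt_split (dg_eq_or c s ω)]
    simp only [hp, hq]
    ring
  have hz : Ex (Pw L) (fun ω => dg c s ω * (H ω * q ω)) = 0 :=
    Ex_dg_mul_eq_zero (v := vc L c s) (c := c) hs (by rw [vc_self]) (mH.mul mq)
  rw [e1, hz, add_zero]
  refine Ex_mono (fun ω => (Pw_pos ω).le) (fun ω => ?_)
  have hb := sqrt_avg_le (abs_bb_le hw c s ω)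
  have hHnn : 0 ≤ H ω := by
    simp only [hH, hE]; positivity
  calc H ω * p ω ≤ H ω * Real.exp (-((bb c w s ω) ^ 2 / 8)) :=
        mul_le_mul_of_nonneg_left hb hHnn
    _ = ZZ c w s ω := by
        simp only [hH, hE, ZZ]
        rw [Real.exp_neg]
        have : Real.exp ((bb c w s ω) ^ 2 / 8) ≠ 0 := (Real.exp_pos _).ne'
        field_simp

lemma ZZ_le_one {w : Om L → ℝ} (hw : IsPr w) (c : Fin 3) (s : ℕ) (hs : s ≤ L) :
    Ex (Pw L) (ZZ c w s) ≤ 1 := by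
  induction s with
  | zero =>
    have : Ex (Pw L) (ZZ c w 0) = Ex (Pw L) (rr c w 0) := by
      refine Ex_congr _ (fun ω => ?_)
      unfold ZZ
      rw [Finset.sum_range_zero, Real.exp_zero, one_mul,
        Real.mul_self_sqrt (rr_pos hw c 0 ω).le]
    rw [this, Ex_rr hw]
  | succ s ih => exact (ZZ_step hw c (by omega)).trans (ih (by omega))

lemma sum_div_eight (c : Fin 3) (w : Om L → ℝ) (ω : Om L) :
    ∑ i ∈ range L, (bb c w i ω) ^ 2 / 8 = nbb c w ω / 8 := by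
  unfold nbb; rw [Finset.sum_div]

theorem nbb_exp (c : Fin 3) {w : Om L → ℝ} (hw : IsPr w) {K : ℝ}
    (hK : ∀ ω, w ω ≤ Real.exp K * Pw L ω) :
    Ex w (fun ω => Real.exp (nbb c w ω / 16)) ≤ Real.exp (K / 4) := by
  set p : Om L → ℝ := fun ω => Real.sqrt (dens w ω) with hp
  set q : Om L → ℝ := fun ω => Real.sqrt (rr c w 0 ω) with hq
  have pp : ∀ ω, 0 < p ω := fun ω => Real.sqrt_pos.2 (dens_pos hw ω)
  have qp : ∀ ω, 0 < q ω := fun ω => Real.sqrt_pos.2 (rr_pos hw c 0 ω)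
  have p2 : ∀ ω, p ω ^ 2 = dens w ω := fun ω => Real.sq_sqrt (dens_pos hw ω).le
  have q2 : ∀ ω, q ω ^ 2 = rr c w 0 ω := fun ω => Real.sq_sqrt (rr_pos hw c 0 ω).le
  have mq : Meas (vc L c 0) q := (meas_rr c w 0).comp Real.sqrt
  have ple : ∀ ω, p ω ≤ Real.exp (K / 2) := by
    intro ω
    rw [hp]
    apply Real.sqrt_le_iff.2
    refine ⟨(Real.exp_pos _).le, ?_⟩
    rw [← Real.exp_nat_mul]
    have : ((2 : ℕ) : ℝ) * (K / 2) = K := by push_cast; ring
    rw [this]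
    exact dens_le hK ω
  -- first factor
  set g : Om L → ℝ := fun ω => Real.sqrt (Real.exp (nbb c w ω / 8) * p ω * q ω) with hg
  set h : Om L → ℝ := fun ω => Real.sqrt (p ω ^ 3 / q ω) with hh
  have hgsq : Ex (Pw L) (fun ω => g ω ^ 2) ≤ 1 := by
    have e : Ex (Pw L) (fun ω => g ω ^ 2) = Ex (Pw L) (ZZ c w L) := by
      refine Ex_congr _ (fun ω => ?_)
      have hnn : 0 ≤ Real.exp (nbb c w ω / 8) * p ω * q ω :=
        mul_nonneg (mul_nonneg (Real.exp_pos _).le (pp ω).le) (qp ω).le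
      simp only [hg]
      rw [Real.sq_sqrt hnn]
      unfold ZZ
      rw [sum_div_eight, rr_full]
    rw [e]; exact ZZ_le_one hw c L le_rfl
  have hhsq : Ex (Pw L) (fun ω => h ω ^ 2) ≤ Real.exp (K / 2) := by
    have e : ∀ ω, h ω ^ 2 ≤ Real.exp (K / 2) * (1 / q ω * dens w ω) := by
      intro ω
      simp only [hh]
      rw [Real.sq_sqrt (div_nonneg (pow_nonneg (pp ω).le 3) (qp ω).le)]
      have e1 : p ω ^ 3 / q ω = p ω * (1 / q ω * dens w ω) := by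
        rw [← p2 ω]; ring
      rw [e1]
      refine mul_le_mul_of_nonneg_right (ple ω) ?_
      exact mul_nonneg (one_div_nonneg.2 (qp ω).le) (dens_pos hw ω).le
    have m1 : Meas (vc L c 0) (fun ω => 1 / q ω) := mq.comp (fun x => 1 / x)
    have e2 := Ex_mul_CE (w := Pw L) Pw_pos m1 (dens w)
    have e3 : Ex (Pw L) (fun ω => 1 / q ω * CE (Pw L) (vc L c 0) (dens w) ω) = Ex (Pw L) q := by
      refine Ex_congr _ (fun ω => ?_)
      have : CE (Pw L) (vc L c 0) (dens w) ω = q ω ^ 2 := (q2 ω).symm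
      rw [this]
      have := (qp ω).ne'
      field_simp
    have e4 : Ex (Pw L) q ≤ 1 := by
      have h1 := Ex_abs_le_sqrt (isPr_Pw (L := L)) q
      have h2 : Ex (Pw L) (fun ω => q ω ^ 2) = 1 := by
        rw [← Ex_rr hw c 0]; exact Ex_congr _ q2
      rw [h2, Real.sqrt_one] at h1
      exact (Ex_mono (fun ω => (Pw_pos ω).le) (fun ω => le_abs_self _)).trans h1
    calc Ex (Pw L) (fun ω => h ω ^ 2)
        ≤ Ex (Pw L) (fun ω => Real.exp (K / 2) * (1 / q ω * dens w ω)) :=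
          Ex_mono (fun ω => (Pw_pos ω).le) e
      _ = Real.exp (K / 2) * Ex (Pw L) q := by rw [Ex_const_mul, ← e2, e3]
      _ ≤ Real.exp (K / 2) * 1 := mul_le_mul_of_nonneg_left e4 (Real.exp_pos _).le
      _ = Real.exp (K / 2) := mul_one _
  have hcs := Ex_mul_sq_le (w := Pw L) (fun ω => (Pw_pos ω).le) g h
  have hprod : Ex (Pw L) (fun ω => g ω * h ω) = Ex w (fun ω => Real.exp (nbb c w ω / 16)) := by
    rw [Ex_eq_dens w]
    refine Ex_congr _ (fun ω => ?_)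
    have hnn : 0 ≤ Real.exp (nbb c w ω / 8) * p ω * q ω :=
      mul_nonneg (mul_nonneg (Real.exp_pos _).le (pp ω).le) (qp ω).le
    simp only [hg, hh]
    rw [← Real.sqrt_mul hnn]
    have e1 : Real.exp (nbb c w ω / 8) * p ω * q ω * (p ω ^ 3 / q ω) =
        (dens w ω * Real.exp (nbb c w ω / 16)) ^ 2 := by
      have e2 : Real.exp (nbb c w ω / 8) = Real.exp (nbb c w ω / 16) ^ 2 := by
        rw [← Real.exp_nat_mul]; congr 1; push_cast; ring
      rw [e2, ← p2 ω]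
      have := (qp ω).ne'
      field_simp
    rw [e1, Real.sqrt_sq]
    exact mul_nonneg (dens_pos hw ω).le (Real.exp_pos _).le
  rw [hprod] at hcs
  have hnn : 0 ≤ Ex w (fun ω => Real.exp (nbb c w ω / 16)) :=
    Ex_nonneg hw.nonneg (fun ω => (Real.exp_pos _).le)
  have h1 : (Ex w (fun ω => Real.exp (nbb c w ω / 16))) ^ 2 ≤ Real.exp (K / 4) ^ 2 := by
    have e : Real.exp (K / 4) ^ 2 = Real.exp (K / 2) := by
      rw [← Real.exp_nat_mul]; congr 1; push_cast; ring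
    rw [e]
    calc _ ≤ _ := hcs
      _ ≤ 1 * Real.exp (K / 2) :=
        mul_le_mul hgsq hhsq (Ex_nonneg (fun ω => (Pw_pos ω).le) (fun ω => sq_nonneg _))
          zero_le_one
      _ = Real.exp (K / 2) := one_mul _
  exact le_of_pow_le_pow_left₀ two_ne_zero (Real.exp_pos _).le h1

theorem nbb_le (c : Fin 3) {w : Om L → ℝ} (hw : IsPr w) {K : ℝ}
    (hK : ∀ ω, w ω ≤ Real.exp K * Pw L ω) : Ex w (nbb c w) ≤ 4 * K + 16 := by
  have h1 := nbb_exp c hw hK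
  have h2 : ∀ ω, nbb c w ω ≤
      16 * (K / 4) + 16 * Real.exp (-(K / 4)) * Real.exp (nbb c w ω / 16) := by
    intro ω
    have := Real.add_one_le_exp (nbb c w ω / 16 - K / 4)
    have e : Real.exp (nbb c w ω / 16 - K / 4) =
        Real.exp (-(K / 4)) * Real.exp (nbb c w ω / 16) := by
      rw [← Real.exp_add]; congr 1; ring
    rw [e] at this
    nlinarith
  calc Ex w (nbb c w)
      ≤ Ex w (fun ω => 16 * (K / 4) + 16 * Real.exp (-(K / 4)) * Real.exp (nbb c w ω / 16)) :=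
        Ex_mono hw.nonneg h2
    _ = 16 * (K / 4) + 16 * Real.exp (-(K / 4)) * Ex w (fun ω => Real.exp (nbb c w ω / 16)) := by
        rw [Ex_add, Ex_const hw.one, Ex_const_mul]
    _ ≤ 16 * (K / 4) + 16 * Real.exp (-(K / 4)) * Real.exp (K / 4) := by gcongr
    _ = 4 * K + 16 := by
        rw [mul_assoc, ← Real.exp_add, neg_add_cancel, Real.exp_zero]; ring

lemma sq_le_exp_bound {X Q : ℝ} (hX : 0 ≤ X) (hQ : 0 ≤ Q) :
    X ^ 2 ≤ 2 * Q ^ 2 + 4 * Real.exp (X - Q) := by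
  rcases le_total X Q with h | h
  · have := Real.exp_pos (X - Q)
    nlinarith
  · have h1 := Real.quadratic_le_exp_of_nonneg (sub_nonneg.2 h)
    nlinarith [sq_nonneg (X - 2 * Q)]

theorem nbb_sq_le (c : Fin 3) {w : Om L → ℝ} (hw : IsPr w) {K : ℝ} (hK0 : 0 ≤ K)
    (hK : ∀ ω, w ω ≤ Real.exp K * Pw L ω) :
    Ex w (fun ω => nbb c w ω ^ 2) ≤ 32 * K ^ 2 + 1024 := by
  have h1 := nbb_exp c hw hK
  have h2 : ∀ ω, nbb c w ω ^ 2 ≤
      32 * K ^ 2 + 1024 * Real.exp (-(K / 4)) * Real.exp (nbb c w ω / 16) := by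
    intro ω
    have hn : 0 ≤ nbb c w ω := Finset.sum_nonneg (fun _ _ => sq_nonneg _)
    have := sq_le_exp_bound (X := nbb c w ω / 16) (Q := K / 4) (by positivity) (by positivity)
    have e : Real.exp (nbb c w ω / 16 - K / 4) =
        Real.exp (-(K / 4)) * Real.exp (nbb c w ω / 16) := by
      rw [← Real.exp_add]; congr 1; ring
    rw [e] at this
    nlinarith
  calc Ex w (fun ω => nbb c w ω ^ 2)
      ≤ Ex w (fun ω => 32 * K ^ 2 +
          1024 * Real.exp (-(K / 4)) * Real.exp (nbb c w ω / 16)) := Ex_mono hw.nonneg h2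
    _ = 32 * K ^ 2 + 1024 * Real.exp (-(K / 4)) *
          Ex w (fun ω => Real.exp (nbb c w ω / 16)) := by
        rw [Ex_add, Ex_const hw.one, Ex_const_mul]
    _ ≤ 32 * K ^ 2 + 1024 * Real.exp (-(K / 4)) * Real.exp (K / 4) := by gcongr
    _ = 32 * K ^ 2 + 1024 := by
        rw [mul_assoc, ← Real.exp_add, neg_add_cancel, Real.exp_zero]; ring

theorem nb_exp {w : Om L → ℝ} (hw : IsPr w) {K : ℝ} (_hK0 : 0 ≤ K)
    (hK : ∀ ω, w ω ≤ Real.exp K * Pw L ω) :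
    Ex w (fun ω => Real.exp (nb w ω / 16)) ≤ Real.exp (K / 4) := by
  have := nbb_exp 0 hw hK
  rwa [nbb_zero] at this

theorem ng_exp {w : Om L → ℝ} (hw : IsPr w) {K : ℝ} (_hK0 : 0 ≤ K)
    (hK : ∀ ω, w ω ≤ Real.exp K * Pw L ω) :
    Ex w (fun ω => Real.exp (ng w ω / 16)) ≤ Real.exp (K / 4) := by
  have := nbb_exp 1 hw hK
  rwa [nbb_one] at this

theorem nb_le {w : Om L → ℝ} (hw : IsPr w) {K : ℝ} (_hK0 : 0 ≤ K)
    (hK : ∀ ω, w ω ≤ Real.exp K * Pw L ω) : Ex w (nb w) ≤ 4 * K + 16 := by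
  have := nbb_le 0 hw hK
  rwa [nbb_zero] at this

theorem nb_sq_le {w : Om L → ℝ} (hw : IsPr w) {K : ℝ} (hK0 : 0 ≤ K)
    (hK : ∀ ω, w ω ≤ Real.exp K * Pw L ω) :
    Ex w (fun ω => nb w ω ^ 2) ≤ 32 * K ^ 2 + 1024 := by
  have := nbb_sq_le 0 hw hK0 hK
  rwa [nbb_zero] at this

theorem ng_le {w : Om L → ℝ} (hw : IsPr w) {K : ℝ} (_hK0 : 0 ≤ K)
    (hK : ∀ ω, w ω ≤ Real.exp K * Pw L ω) : Ex w (ng w) ≤ 4 * K + 16 := by
  have := nbb_le 1 hw hK
  rwa [nbb_one] at this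

end Disc3
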