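import Mathlib

/-!
# Three-dimensional box discrepancy: definitions and the basic calculus

`Om L = Fin 3 → Fin L → Bool` : digits of the three coordinates (0 = x, 1 = z, 2 = y).
`rel v` : agreement of the first `v c` digits in coordinate `c`.
`Ex w` : expectation for the weight `w`;  `CE w v` : conditional expectation given the first digits.
-/

namespace Disc3

open Finset

/-- the digit cube -/
abbrev Om (L : ℕ) := Fin 3 → Fin L → Bool

variable {L : ℕ}

/-- the sign of digit `i` of coordinate `c` (value `1` when `i ≥ L`) -/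
def dg (c : Fin 3) (i : ℕ) (ω : Om L) : ℝ :=
  if h : i < L then (if ω c ⟨i, h⟩ then 1 else -1) else 1

/-- agreement of the first `v c` digits in coordinate `c`, for all `c` -/
def rel (v : Fin 3 → ℕ) (ω ω' : Om L) : Prop :=
  ∀ c, ∀ i : Fin L, (i : ℕ) < v c → ω c i = ω' c i

instance (v : Fin 3 → ℕ) (ω ω' : Om L) : Decidable (rel v ω ω') := by
  unfold rel; infer_instance

/-- `g` depends only on the first `v c` digits of coordinate `c` -/
def Meas (v : Fin 3 → ℕ) (g : Om L → ℝ) : Prop := ∀ ω ω', rel v ω ω' → g ω = g ω'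

/-- expectation -/
def Ex (w g : Om L → ℝ) : ℝ := ∑ ω, w ω * g ω

/-- conditional expectation -/
noncomputable def CE (w : Om L → ℝ) (v : Fin 3 → ℕ) (g : Om L → ℝ) (ω : Om L) : ℝ :=
  (∑ ω' ∈ univ.filter (fun ω' => rel v ω ω'), w ω' * g ω') /
    (∑ ω' ∈ univ.filter (fun ω' => rel v ω ω'), w ω')

/-- the uniform weight -/
noncomputable def Pw (L : ℕ) : Om L → ℝ := fun _ => ((8 : ℝ) ^ L)⁻¹

/-- a positive probability weight -/
structure IsPr (w : Om L → ℝ) : Prop where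
  pos : ∀ ω, 0 < w ω
  one : ∑ ω, w ω = 1

/-- `x`-bias of the weight `w` given `x_{<s}, z, y` -/
noncomputable def bx (w : Om L → ℝ) (s : ℕ) (ω : Om L) : ℝ := CE w ![s, L, L] (dg 0 s) ω
/-- `z`-bias of the weight `w` given `x, z_{<t}, y` -/
noncomputable def bz (w : Om L → ℝ) (t : ℕ) (ω : Om L) : ℝ := CE w ![L, t, L] (dg 1 t) ω
noncomputable def eta (w : Om L → ℝ) (s : ℕ) (ω : Om L) : ℝ := dg 0 s ω - bx w s ω
noncomputable def xi (w : Om L → ℝ) (t : ℕ) (ω : Om L) : ℝ := dg 1 t ω - bz w t ω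
noncomputable def cc (w : Om L → ℝ) (s t : ℕ) (ω : Om L) : ℝ :=
  - CE w ![s, t, L] (fun ω => eta w s ω * xi w t ω) ω
noncomputable def phi (w : Om L → ℝ) (s t : ℕ) (ω : Om L) : ℝ :=
  eta w s ω * xi w t ω + cc w s t ω
/-- `|b|²` -/
noncomputable def nb (w : Om L → ℝ) (ω : Om L) : ℝ := ∑ s ∈ range L, (bx w s ω) ^ 2
/-- `|g|²` -/
noncomputable def ng (w : Om L → ℝ) (ω : Om L) : ℝ := ∑ t ∈ range L, (bz w t ω) ^ 2
/-- `∑ c_{st}²` -/
noncomputable def ncc (w : Om L → ℝ) (ω : Om L) : ℝ :=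
  ∑ s ∈ range L, ∑ t ∈ range L, (cc w s t ω) ^ 2

/-- `G^{s,t}_l = E_P[y_l f | x_{<s}, z_{<t}, y_{<l}]` -/
noncomputable def Gd (f : Om L → ℝ) (s t l : ℕ) (ω : Om L) : ℝ :=
  CE (Pw L) ![s, t, l] (fun ω' => dg 2 l ω' * f ω') ω

/-- `T_l = tanh(λ G_l)` -/
noncomputable def Tt (lam : ℝ) (f : Om L → ℝ) (l : ℕ) (ω : Om L) : ℝ :=
  Real.tanh (lam * Gd f L L l ω)

/-- partial products of the density -/
noncomputable def rho (lam : ℝ) (f : Om L → ℝ) (k : ℕ) (ω : Om L) : ℝ :=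
  ∏ l ∈ range k, (1 + Tt lam f l ω * dg 2 l ω)

/-- the tilted probability weight -/
noncomputable def Psi (lam : ℝ) (f : Om L → ℝ) (ω : Om L) : ℝ := Pw L ω * rho lam f L ω

/-- `u_s` (for `c = 0`) and `v_t` (for `c = 1`) -/
noncomputable def uu (c : Fin 3) (s : ℕ) (ω : Om L) : ℝ :=
  ∑ i ∈ Ico s L, dg c i ω * (1 / 2 : ℝ) ^ (i - s + 2)

/-- value of the first `s` digits of coordinate `c` (as a number in `[0,1)`) -/
noncomputable def av (c : Fin 3) (s : ℕ) (ω : Om L) : ℝ :=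
  ∑ i ∈ range s, (1 + dg c i ω) * (1 / 2 : ℝ) ^ (i + 2)

/-- the point `p` lies in the dyadic box of `ω` at level `v` -/
def inBox (v : Fin 3 → ℕ) (ω : Om L) (p : Fin 3 → ℝ) : Prop :=
  ∀ c, av c (v c) ω ≤ p c ∧ p c < av c (v c) ω + (1 / 2 : ℝ) ^ (v c)

/-- half open discrepancy at `α` -/
noncomputable def Dm {N : ℕ} (u : Fin N → Fin 3 → ℝ) (α : Fin 3 → ℝ) : ℝ :=
  ((univ.filter (fun i : Fin N => ∀ c, u i c < α c)).card : ℝ) - N * ∏ c, α c

/-- the discrepancy at the left endpoints -/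
noncomputable def fD {N : ℕ} (u : Fin N → Fin 3 → ℝ) (ω : Om L) : ℝ :=
  Dm u (fun c => av c L ω)

/-- indicator that the box of `ω` at level `(s,t,l)` contains no point -/
noncomputable def em {N : ℕ} (u : Fin N → Fin 3 → ℝ) (s t l : ℕ) (ω : Om L) : ℝ :=
  open Classical in if ∃ i, inBox ![s, t, l] ω (u i) then 0 else 1

/-- the martingale part of `V_l` (pieces `(s, t)` with `s + t = n - l`) -/
noncomputable def V0 (w : Om L → ℝ) (a : ℕ → ℕ → Om L → ℝ) (n l : ℕ) (ω : Om L) : ℝ :=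
  ∑ s ∈ range (n + 1 - l), a s (n - l - s) ω * dg 0 s ω * xi w (n - l - s) ω
/-- the part of `V_l` with the `x`-biases -/
noncomputable def V1 (w : Om L → ℝ) (a : ℕ → ℕ → Om L → ℝ) (n l : ℕ) (ω : Om L) : ℝ :=
  - ∑ s ∈ range (n + 1 - l), a s (n - l - s) ω * bx w s ω * xi w (n - l - s) ω
/-- the part of `V_l` with the corrections -/
noncomputable def V2 (w : Om L → ℝ) (a : ℕ → ℕ → Om L → ℝ) (n l : ℕ) (ω : Om L) : ℝ :=
  ∑ s ∈ range (n + 1 - l), a s (n - l - s) ω * cc w s (n - l - s) ω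

end Disc3
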