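import Pool.Agent.Work.MP_d500f7_co.Asm3
import Pool.Agent.Work.MP_d500f7_co.Asm4
import Pool.Agent.Work.MP_d500f7_co.Asm5

namespace Disc3

open Finset

theorem core {N : ℕ} {u : Fin N → Fin 3 → ℝ} (hu : ∀ i c, 0 ≤ u i c ∧ u i c < 1)
    {n : ℕ} (h1 : (16 : ℝ) * N ≤ 2 ^ n) (h2 : (2 : ℝ) ^ n ≤ 32 * N) {m : ℝ}
    (hm : (10 : ℝ) ^ 9 ≤ m) (hn : (n : ℝ) = m ^ 6)
    (hall : ∀ α : Fin 3 → ℝ, (∀ c, 0 ≤ α c ∧ α c < 1) →
      |((univ.filter (fun i : Fin N => ∀ c, u i c ≤ α c)).card : ℝ) - N * ∏ c, α c| ≤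
        m ^ 7 / 10 ^ 14) : False := by
  have hm0 : (0 : ℝ) < m := lt_of_lt_of_le (by norm_num) hm
  have hm1 : (1 : ℝ) ≤ m := le_trans (by norm_num) hm
  set M : ℝ := m ^ 7 / 10 ^ 14 with hMdef
  set lam : ℝ := (m ^ 5)⁻¹ with hlamdef
  have hM : 0 < M := by positivity
  have hlam : 0 < lam := by positivity
  have hD := Dm_bound hu hall
  set f : Om (n + 2) → ℝ := fD u with hfdef
  have hf : ∀ ω, |f ω| ≤ M := fun ω => fD_bound hD ω
  set w : Om (n + 2) → ℝ := Psi lam f with hwdef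
  have hw : IsPr w := Psi_isPr lam f
  set K : ℝ := 2 * lam * M with hKdef
  have hK0 : 0 ≤ K := by positivity
  have hK : ∀ ω, w ω ≤ Real.exp K * Pw (n + 2) ω := fun ω => Psi_le hf hlam.le ω
  have hB1 := nb_le hw hK0 hK
  have hB2 := ng_le hw hK0 hK
  have hB3 := nb_sq_le hw hK0 hK
  set j : ℕ := ⌈m⌉₊ with hjdef
  have hj1 : m ≤ j := Nat.le_ceil m
  have hj2 : (j : ℝ) ≤ m + 1 := (Nat.ceil_lt_add_one hm0.le).le
  have hj := two_pow_ge hm1 hj1
  have L1 := lower_sum (j := j) hu hM hD h1 hj hw hB1 hB2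
  have L2 := total_lower (j := j) hu hM hf hw hK0 hK hB1 hB2
  have L3 := total_eq (u := u) (j := j) w f
  have L4 := upper_sum (u := u) (n := n) (j := j) (th := 10 ^ 7 * m ^ 5) (d := m ^ 5) hM hf hlam
    (by positivity) (by positivity) hB1 hB2 hB3
  rw [L3] at L4
  have hq0 : (0 : ℝ) ≤ N * (1 / 2 : ℝ) ^ (n + 2) := by positivity
  have hq : (1 : ℝ) / 128 ≤ N * (1 / 2 : ℝ) ^ (n + 2) := by
    have h3 : (1 / 2 : ℝ) ^ (n + 2) = 1 / (2 ^ n * 4) := by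
      rw [one_div_pow, pow_add]; norm_num
    rw [h3, mul_one_div, le_div_iff₀ (by positivity)]
    linarith
  have L5 := mul_le_mul_of_nonneg_left L1 hq0
  have hS : m ^ 12 / 25 ≤ ((Sx n j).card : ℝ) := by
    have hdiv : ((n / 4 : ℕ) : ℝ) ≥ m ^ 6 / 4 - 1 := by
      have := Nat.lt_div_mul_add (a := n) (b := 4) (by norm_num)
      have h5 : n < n / 4 * 4 + 4 := this
      have h6 : (n : ℝ) < ((n / 4 : ℕ) : ℝ) * 4 + 4 := by exact_mod_cast h5
      rw [hn] at h6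
      linarith
    have h6m : (10 : ℝ) ^ 9 * m ≤ m ^ 6 := by
      have : (10 : ℝ) ^ 9 ≤ m ^ 5 := le_trans hm (by
        calc m = m ^ 1 := (pow_one m).symm
          _ ≤ m ^ 5 := pow_le_pow_right₀ hm1 (by norm_num))
      calc (10 : ℝ) ^ 9 * m ≤ m ^ 5 * m := mul_le_mul_of_nonneg_right this hm0.le
        _ = m ^ 6 := by ring
    have hle : j + 2 * (n / 4) ≤ n := by
      have h7 : (j : ℝ) + 2 * ((n / 4 : ℕ) : ℝ) ≤ n := by
        have h8 : ((n / 4 : ℕ) : ℝ) ≤ (n : ℝ) / 4 := by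
          have := Nat.div_mul_le_self n 4
          have h9 : ((n / 4 : ℕ) : ℝ) * 4 ≤ n := by exact_mod_cast this
          linarith
        have h10 : m + 1 ≤ (n : ℝ) / 2 := by
          rw [hn]; nlinarith
        linarith
      exact_mod_cast h7
    have h11 := card_Sx hle
    have h12 : (((n / 4 : ℕ) : ℝ)) ^ 2 ≤ ((Sx n j).card : ℝ) := by exact_mod_cast h11
    have h13 : m ^ 6 / 5 ≤ ((n / 4 : ℕ) : ℝ) := by
      have : (20 : ℝ) ≤ m ^ 6 := by nlinarith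
      linarith
    calc m ^ 12 / 25 = (m ^ 6 / 5) ^ 2 := by ring
      _ ≤ (((n / 4 : ℕ) : ℝ)) ^ 2 := pow_le_pow_left₀ (by positivity) h13 2
      _ ≤ _ := h12
  refine numerics hm hn hj1 hj2 hq hS ?_
  have := (sub_le_sub_right L5 _).trans (L2.trans L4)
  exact this

theorem result_aux : ∃ c : ℝ, 0 < c ∧ ∀ N : ℕ, 2 ≤ N → ∀ u : Fin N → Fin 3 → ℝ,
    (∀ i c, 0 ≤ u i c ∧ u i c < 1) → ∃ α : Fin 3 → ℝ, (∀ c, 0 ≤ α c ∧ α c < 1) ∧
      c * (Real.log N) ^ (7 / 6 : ℝ) ≤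
        |((univ.filter (fun i : Fin N => ∀ c, u i c ≤ α c)).card : ℝ) - N * ∏ c, α c| := by
  refine ⟨1 / 10 ^ 65, by positivity, fun N hN u hu => ?_⟩
  by_contra hcon
  push Not at hcon
  have hN0 : (0 : ℝ) < N := by exact_mod_cast (by omega : 0 < N)
  have hlog0 : 0 ≤ Real.log N := Real.log_nonneg (by exact_mod_cast (by omega : 1 ≤ N))
  -- the scale
  set n : ℕ := Nat.log 2 (16 * N) + 1 with hndef
  have hn1 : 16 * N < 2 ^ n := Nat.lt_pow_succ_log_self (by norm_num) _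
  have hn2 : 2 ^ n ≤ 32 * N := by
    have := Nat.pow_log_le_self 2 (x := 16 * N) (by omega)
    rw [hndef, pow_succ]; omega
  have h1 : (16 : ℝ) * N ≤ 2 ^ n := by exact_mod_cast hn1.le
  have h2 : (2 : ℝ) ^ n ≤ 32 * N := by exact_mod_cast hn2
  have hnpos : (0 : ℝ) < n := by
    have : 0 < n := by omega
    exact_mod_cast this
  set m : ℝ := (n : ℝ) ^ (1 / 6 : ℝ) with hmdef
  have hm0 : 0 < m := Real.rpow_pos_of_pos hnpos _
  have hn6 : (n : ℝ) = m ^ 6 := by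
    rw [hmdef, ← Real.rpow_natCast, ← Real.rpow_mul hnpos.le]; norm_num
  have hn7 : (n : ℝ) ^ (7 / 6 : ℝ) = m ^ 7 := by
    rw [hmdef, ← Real.rpow_natCast ((n : ℝ) ^ (1 / 6 : ℝ)) 7, ← Real.rpow_mul hnpos.le]; norm_num
  have hlogn : Real.log N ≤ n := by
    have h3 : Real.log N ≤ Real.log (2 ^ n) := by
      apply Real.log_le_log hN0
      linarith
    rw [Real.log_pow] at h3
    have h4 : Real.log 2 ≤ 1 := by
      have := Real.log_two_lt_d9; linarith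
    nlinarith
  have hpow : (Real.log N) ^ (7 / 6 : ℝ) ≤ m ^ 7 := by
    rw [← hn7]
    exact Real.rpow_le_rpow hlog0 hlogn (by norm_num)
  rcases le_total ((10 : ℝ) ^ 9) m with hm | hm
  · refine core hu h1 h2 hm hn6 (fun α hα => ?_)
    refine (hcon α hα).le.trans ?_
    calc (1 / 10 ^ 65 : ℝ) * (Real.log N) ^ (7 / 6 : ℝ) ≤ 1 / 10 ^ 65 * m ^ 7 :=
          mul_le_mul_of_nonneg_left hpow (by positivity)
      _ ≤ m ^ 7 / 10 ^ 14 := by
          rw [one_div_mul_eq_div]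
          exact div_le_div_of_nonneg_left (by positivity) (by positivity) (by norm_num)
  · have h5 := half_le (by omega : 0 < N) hu (M := 1 / 100) (fun α hα => by
      refine (hcon α hα).le.trans ?_
      calc (1 / 10 ^ 65 : ℝ) * (Real.log N) ^ (7 / 6 : ℝ) ≤ 1 / 10 ^ 65 * m ^ 7 :=
            mul_le_mul_of_nonneg_left hpow (by positivity)
        _ ≤ 1 / 10 ^ 65 * ((10 : ℝ) ^ 9) ^ 7 := by
            gcongr
        _ ≤ 1 / 100 := by norm_num)
    norm_num at h5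

end Disc3
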