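import Pool.Agent.Work.MP_d500f7_co.Basic

namespace Disc3

open Finset

variable {L : ℕ}

lemma Pw_pos (ω : Om L) : 0 < Pw L ω := by unfold Pw; positivity

lemma card_Om : Fintype.card (Om L) = 8 ^ L := by
  simp only [Fintype.card_pi, Fintype.card_bool, Finset.prod_const, Finset.card_univ,
    Fintype.card_fin]
  rw [← pow_mul, mul_comm, pow_mul]; norm_num

lemma Pw_sum : ∑ ω : Om L, Pw L ω = 1 := by
  unfold Pw
  rw [Finset.sum_const, Finset.card_univ, card_Om, nsmul_eq_mul]
  push_cast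
  exact mul_inv_cancel₀ (by positivity)

lemma isPr_Pw : IsPr (Pw L) := ⟨Pw_pos, Pw_sum⟩

/-- set digit `(c,i)` to `b` -/
def setd (c : Fin 3) (i : Fin L) (b : Bool) (ω : Om L) : Om L :=
  Function.update ω c (Function.update (ω c) i b)

lemma setd_same (c : Fin 3) (i : Fin L) (b : Bool) (ω : Om L) : setd c i b ω c i = b := by
  simp [setd]

lemma setd_other (c : Fin 3) (i : Fin L) (b : Bool) (ω : Om L) (c' : Fin 3) (i' : Fin L)
    (h : c' ≠ c ∨ i' ≠ i) : setd c i b ω c' i' = ω c' i' := by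
  unfold setd
  by_cases hc : c' = c
  · subst hc
    have : i' ≠ i := by tauto
    simp [this]
  · simp [hc]

lemma rel_setd {v : Fin 3 → ℕ} {c : Fin 3} {i : Fin L} (h : v c ≤ i) (b : Bool) (ω : Om L) :
    rel v ω (setd c i b ω) := by
  intro c' i' hi'
  rw [setd_other]
  by_contra hcon
  push Not at hcon
  obtain ⟨rfl, rfl⟩ := hcon
  omega

lemma dg_setd (c : Fin 3) (i : Fin L) (b : Bool) (ω : Om L) :
    dg c i (setd c i b ω) = if b then 1 else -1 := by
  unfold dg
  rw [dif_pos i.2]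
  simp only [Fin.eta, setd_same]

/-- flipping digit `(c,i)` -/
def flipd (c : Fin 3) (i : Fin L) (ω : Om L) : Om L := setd c i (!ω c i) ω

lemma flipd_invol (c : Fin 3) (i : Fin L) : Function.Involutive (flipd (L := L) c i) := by
  intro ω
  funext c' i'
  by_cases h : c' = c ∧ i' = i
  · obtain ⟨rfl, rfl⟩ := h
    simp [flipd, setd_same]
  · have h' : c' ≠ c ∨ i' ≠ i := by tauto
    unfold flipd
    rw [setd_other _ _ _ _ _ _ h', setd_other _ _ _ _ _ _ h']

lemma dg_flipd (c : Fin 3) (i : Fin L) (ω : Om L) : dg c i (flipd c i ω) = - dg c i ω := by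
  unfold flipd
  rw [dg_setd]
  unfold dg
  rw [dif_pos i.2]
  simp only [Fin.eta]
  cases ω c i <;> simp

lemma Ex_dg_mul_eq_zero {v : Fin 3 → ℕ} {c : Fin 3} {i : ℕ} (hi : i < L) (hv : v c ≤ i)
    {h : Om L → ℝ} (hh : Meas v h) : Ex (Pw L) (fun ω => dg c i ω * h ω) = 0 := by
  have key : Ex (Pw L) (fun ω => dg c i ω * h ω) = - Ex (Pw L) (fun ω => dg c i ω * h ω) := by
    conv_lhs => unfold Ex
    rw [← Equiv.sum_comp (flipd_invol (L := L) c ⟨i, hi⟩).toPerm, ← Ex_neg]
    unfold Ex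
    refine Finset.sum_congr rfl (fun ω _ => ?_)
    have h1 : h (flipd c ⟨i, hi⟩ ω) = h ω :=
      (hh _ _ (rel_setd (v := v) (c := c) (i := ⟨i, hi⟩) hv _ ω)).symm
    have h2 : dg c i (flipd c ⟨i, hi⟩ ω) = - dg c i ω := dg_flipd c ⟨i, hi⟩ ω
    simp only [Function.Involutive.coe_toPerm, h1, h2]
    unfold Pw
    ring
  linarith

/-- the two halves of a function measurable one digit deeper -/
lemma meas_split {v : Fin 3 → ℕ} {c : Fin 3} (hc : v c < L) {h : Om L → ℝ}
    (hh : Meas (Function.update v c (v c + 1)) h) :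
    ∃ h0 h1 : Om L → ℝ, Meas v h0 ∧ Meas v h1 ∧ ∀ ω, h ω = h0 ω + dg c (v c) ω * h1 ω := by
  set i : Fin L := ⟨v c, hc⟩ with hi
  have hm : ∀ b, Meas v (fun ω => h (setd c i b ω)) := by
    intro b ω ω' hr
    apply hh
    intro c' i' hi'
    by_cases h2 : c' = c ∧ i' = i
    · obtain ⟨rfl, rfl⟩ := h2
      rw [setd_same, setd_same]
    · have h' : c' ≠ c ∨ i' ≠ i := by tauto
      rw [setd_other _ _ _ _ _ _ h', setd_other _ _ _ _ _ _ h']
      apply hr
      by_cases hcc : c' = c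
      · subst hcc
        rw [Function.update_self] at hi'
        have h3 : i' ≠ i := by tauto
        have h4 : (i' : ℕ) ≠ v c' := fun h5 => h3 (Fin.ext h5)
        omega
      · rwa [Function.update_of_ne hcc] at hi'
  refine ⟨fun ω => (h (setd c i true ω) + h (setd c i false ω)) / 2,
    fun ω => (h (setd c i true ω) - h (setd c i false ω)) / 2,
    (hm true).comp₂ (hm false) (fun a b => (a + b) / 2),
    (hm true).comp₂ (hm false) (fun a b => (a - b) / 2), fun ω => ?_⟩
  have hset : ∀ b, ω c i = b → setd c i b ω = ω := by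
    intro b hb
    funext c' i'
    by_cases h2 : c' = c ∧ i' = i
    · obtain ⟨rfl, rfl⟩ := h2
      rw [setd_same, hb]
    · rw [setd_other _ _ _ _ _ _ (by tauto)]
  have hd : dg c (v c) ω = if ω c i then 1 else -1 := by
    unfold dg; rw [dif_pos hc]
  rw [hd]
  cases hb : ω c i
  · simp only [hset false hb]; simp; ring
  · simp only [hset true hb]; simp; ring

/-- one Haar step of the uniform conditional expectations -/
lemma haar_step {v : Fin 3 → ℕ} {c : Fin 3} (hc : v c < L) (f : Om L → ℝ) (ω : Om L) :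
    CE (Pw L) (Function.update v c (v c + 1)) f ω =
      CE (Pw L) v f ω + dg c (v c) ω * CE (Pw L) v (fun ω => dg c (v c) ω * f ω) ω := by
  have hvv : ∀ c', v c' ≤ Function.update v c (v c + 1) c' := by
    intro c'
    by_cases h : c' = c
    · subst h; simp
    · simp [Function.update_of_ne h]
  refine CE_unique (v := Function.update v c (v c + 1)) (k := fun ω => CE (Pw L) v f ω +
    dg c (v c) ω * CE (Pw L) v (fun ω => dg c (v c) ω * f ω) ω) Pw_pos ?_ (fun h hh => ?_) ω
  · exact ((meas_CE _ v f).mono hvv).add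
      ((meas_dg (by simp)).mul ((meas_CE _ v _).mono hvv))
  · obtain ⟨h0, h1, m0, m1, hsp⟩ := meas_split hc hh
    have e0 := Ex_mul_CE Pw_pos m0 f
    have e1 := Ex_mul_CE Pw_pos m1 (fun ω => dg c (v c) ω * f ω)
    have z0 := Ex_dg_mul_eq_zero (v := v) (c := c) hc le_rfl
      (m0.mul (meas_CE (Pw L) v (fun ω => dg c (v c) ω * f ω)))
    have z1 := Ex_dg_mul_eq_zero (v := v) (c := c) hc le_rfl (m1.mul (meas_CE (Pw L) v f))
    have expL : Ex (Pw L) (fun ω => h ω * (CE (Pw L) v f ω + dg c (v c) ω *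
        CE (Pw L) v (fun ω => dg c (v c) ω * f ω) ω)) =
        Ex (Pw L) (fun ω => h0 ω * CE (Pw L) v f ω)
        + Ex (Pw L) (fun ω => dg c (v c) ω * (h0 ω * CE (Pw L) v (fun ω => dg c (v c) ω * f ω) ω))
        + Ex (Pw L) (fun ω => dg c (v c) ω * (h1 ω * CE (Pw L) v f ω))
        + Ex (Pw L) (fun ω => h1 ω * CE (Pw L) v (fun ω => dg c (v c) ω * f ω) ω) := by
      rw [← Ex_add, ← Ex_add, ← Ex_add]
      refine Ex_congr _ (fun ω => ?_)
      rw [hsp ω]
      have := dg_mul_self c (v c) ω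
      linear_combination (h1 ω * CE (Pw L) v (fun ω => dg c (v c) ω * f ω) ω) * this
    have expR : Ex (Pw L) (fun ω => h ω * f ω) = Ex (Pw L) (fun ω => h0 ω * f ω)
        + Ex (Pw L) (fun ω => h1 ω * (dg c (v c) ω * f ω)) := by
      rw [← Ex_add]
      exact Ex_congr _ (fun ω => by rw [hsp ω]; ring)
    rw [expL, expR, e0, e1, z0, z1]; ring

lemma haar_step_x {s t l : ℕ} (hs : s < L) (f : Om L → ℝ) (ω : Om L) :
    CE (Pw L) ![s + 1, t, l] f ω =
      CE (Pw L) ![s, t, l] f ω + dg 0 s ω * CE (Pw L) ![s, t, l] (fun ω => dg 0 s ω * f ω) ω := by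
  have := haar_step (v := ![s, t, l]) (c := 0) hs f ω
  have e : Function.update ![s, t, l] 0 (![s, t, l] 0 + 1) = ![s + 1, t, l] := by
    funext c; fin_cases c <;> rfl
  rw [e] at this
  exact this

lemma haar_step_z {s t l : ℕ} (ht : t < L) (f : Om L → ℝ) (ω : Om L) :
    CE (Pw L) ![s, t + 1, l] f ω =
      CE (Pw L) ![s, t, l] f ω + dg 1 t ω * CE (Pw L) ![s, t, l] (fun ω => dg 1 t ω * f ω) ω := by
  have := haar_step (v := ![s, t, l]) (c := 1) ht f ω
  have e : Function.update ![s, t, l] 1 (![s, t, l] 1 + 1) = ![s, t + 1, l] := by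
    funext c; fin_cases c <;> rfl
  rw [e] at this
  exact this

lemma haar_step_y {s t l : ℕ} (hl : l < L) (f : Om L → ℝ) (ω : Om L) :
    CE (Pw L) ![s, t, l + 1] f ω =
      CE (Pw L) ![s, t, l] f ω + dg 2 l ω * Gd f s t l ω := by
  have := haar_step (v := ![s, t, l]) (c := 2) hl f ω
  have e : Function.update ![s, t, l] 2 (![s, t, l] 2 + 1) = ![s, t, l + 1] := by
    funext c; fin_cases c <;> rfl
  rw [e] at this
  exact this

end Disc3
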