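import Pool.Agent.Work.MP_d500f7_co.Flip

namespace Disc3

open Finset

variable {L : ℕ}

lemma tanh_abs_lt (u : ℝ) : |Real.tanh u| < 1 := by
  rw [Real.tanh_eq_sinh_div_cosh, abs_div, abs_of_pos (Real.cosh_pos u),
    div_lt_one (Real.cosh_pos u)]
  have h1 : Real.cosh u ^ 2 - Real.sinh u ^ 2 = 1 := by
    have := Real.cosh_sq_sub_sinh_sq u; linarith
  exact abs_lt_of_sq_lt_sq (by linarith) (Real.cosh_pos u).le

lemma tanh_mul_nonneg {lam : ℝ} (hlam : 0 ≤ lam) (G : ℝ) : 0 ≤ Real.tanh (lam * G) * G := by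
  rw [Real.tanh_eq_sinh_div_cosh, div_mul_eq_mul_div]
  apply div_nonneg _ (Real.cosh_pos _).le
  rcases le_total 0 G with h | h
  · exact mul_nonneg (Real.sinh_nonneg_iff.2 (mul_nonneg hlam h)) h
  · exact mul_nonneg_of_nonpos_of_nonpos
      (Real.sinh_nonpos_iff.2 (mul_nonpos_of_nonneg_of_nonpos hlam h)) h

lemma tilt_nonneg {lam : ℝ} (hlam : 0 ≤ lam) (f : Om L → ℝ) (l : ℕ) (ω : Om L) :
    0 ≤ Tt lam f l ω * Gd f L L l ω := tanh_mul_nonneg hlam _

lemma one_add_tanh_le {u y : ℝ} (hy : y = 1 ∨ y = -1) : 1 + Real.tanh u * y ≤ Real.exp (y * u) := by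
  have hc := Real.cosh_pos u
  have h1 : (1 + Real.tanh u * y) * Real.cosh u = Real.exp (y * u) := by
    rw [Real.tanh_eq_sinh_div_cosh]
    rcases hy with rfl | rfl
    · rw [one_mul, mul_one, add_mul, div_mul_cancel₀ _ hc.ne', one_mul, add_comm,
        Real.sinh_add_cosh]
    · have : Real.cosh u - Real.sinh u = Real.exp (-u) := Real.cosh_sub_sinh u
      rw [add_mul, one_mul]
      have e : Real.sinh u / Real.cosh u * -1 * Real.cosh u = - Real.sinh u := by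
        field_simp
      rw [e, neg_one_mul, ← this]; ring
  have h2 : 1 ≤ Real.cosh u := Real.one_le_cosh u
  have h3 : 0 < Real.exp (y * u) := Real.exp_pos _
  nlinarith

lemma one_add_tanh_pos {u y : ℝ} (hy : y = 1 ∨ y = -1) : 0 < 1 + Real.tanh u * y := by
  have := abs_lt.1 (tanh_abs_lt u)
  rcases hy with rfl | rfl <;> linarith [this.1, this.2]

lemma meas_Gd (f : Om L → ℝ) (s t l : ℕ) : Meas ![s, t, l] (Gd f s t l) := meas_CE _ _ _

lemma meas_Tt (lam : ℝ) (f : Om L → ℝ) (l : ℕ) : Meas ![L, L, l] (Tt lam f l) :=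
  (meas_Gd f L L l).comp (fun x => Real.tanh (lam * x))

lemma mono3 {s t l s' t' l' : ℕ} (h0 : s ≤ s') (h1 : t ≤ t') (h2 : l ≤ l') :
    ∀ c : Fin 3, (![s, t, l] : Fin 3 → ℕ) c ≤ (![s', t', l'] : Fin 3 → ℕ) c := by
  intro c; fin_cases c <;> assumption

lemma meas_rho (lam : ℝ) (f : Om L → ℝ) (k : ℕ) : Meas ![L, L, k] (rho lam f k) := by
  unfold rho
  refine Meas.prod (range k) (fun l hl => ?_)
  have hl' := mem_range.1 hl
  exact (meas_const _ 1).add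
    (((meas_Tt lam f l).mono (mono3 le_rfl le_rfl hl'.le)).mul
      (meas_dg (v := ![L, L, k]) (c := 2) hl'))

lemma rho_pos (lam : ℝ) (f : Om L → ℝ) (k : ℕ) (ω : Om L) : 0 < rho lam f k ω :=
  Finset.prod_pos (fun l _ => one_add_tanh_pos (dg_eq_or 2 l ω))

lemma rho_succ (lam : ℝ) (f : Om L → ℝ) (k : ℕ) (ω : Om L) :
    rho lam f (k + 1) ω = rho lam f k ω * (1 + Tt lam f k ω * dg 2 k ω) := by
  unfold rho; rw [Finset.prod_range_succ]

lemma rho_drop_step (lam : ℝ) (f : Om L → ℝ) {k : ℕ} (hk : k < L) {h : Om L → ℝ}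
    (hh : Meas ![L, L, k] h) :
    Ex (Pw L) (fun ω => rho lam f (k + 1) ω * h ω) = Ex (Pw L) (fun ω => rho lam f k ω * h ω) := by
  have e : Ex (Pw L) (fun ω => rho lam f (k + 1) ω * h ω) =
      Ex (Pw L) (fun ω => rho lam f k ω * h ω)
      + Ex (Pw L) (fun ω => dg 2 k ω * (rho lam f k ω * Tt lam f k ω * h ω)) := by
    rw [← Ex_add]; exact Ex_congr _ (fun ω => by rw [rho_succ]; ring)
  rw [e, Ex_dg_mul_eq_zero (v := ![L, L, k]) (c := 2) hk le_rfl
    (((meas_rho lam f k).mul (meas_Tt lam f k)).mul hh), add_zero]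

lemma rho_drop (lam : ℝ) (f : Om L → ℝ) {l : ℕ} {h : Om L → ℝ}
    (hh : Meas ![L, L, l] h) (k : ℕ) (hk : l + k ≤ L) :
    Ex (Pw L) (fun ω => rho lam f (l + k) ω * h ω) = Ex (Pw L) (fun ω => rho lam f l ω * h ω) := by
  induction k with
  | zero => rfl
  | succ k ih =>
    rw [← add_assoc, rho_drop_step lam f (by omega)
      (hh.mono (mono3 le_rfl le_rfl (by omega))), ih (by omega)]

lemma Ex_Psi (lam : ℝ) (f h : Om L → ℝ) :
    Ex (Psi lam f) h = Ex (Pw L) (fun ω => rho lam f L ω * h ω) := by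
  unfold Ex Psi
  exact Finset.sum_congr rfl (fun ω _ => by ring)

lemma Ex_Psi_meas (lam : ℝ) (f : Om L → ℝ) {l : ℕ} (hl : l ≤ L) {h : Om L → ℝ}
    (hh : Meas ![L, L, l] h) :
    Ex (Psi lam f) h = Ex (Pw L) (fun ω => rho lam f l ω * h ω) := by
  rw [Ex_Psi]
  have := rho_drop lam f hh (L - l) (by omega)
  rwa [Nat.add_sub_cancel' hl] at this

theorem Psi_isPr (lam : ℝ) (f : Om L → ℝ) : IsPr (Psi lam f) := by
  refine ⟨fun ω => mul_pos (Pw_pos ω) (rho_pos lam f L ω), ?_⟩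
  have h1 := Ex_Psi_meas lam f (Nat.zero_le L) (meas_const ![L, L, 0] 1)
  have h2 : Ex (Psi lam f) (fun _ => 1) = ∑ ω, Psi lam f ω := by simp [Ex]
  rw [← h2, h1]
  simp only [rho, Finset.range_zero, Finset.prod_empty, mul_one]
  exact Ex_const Pw_sum 1

theorem tilt_orth (lam : ℝ) (f : Om L → ℝ) {l : ℕ} (hl : l < L) {h : Om L → ℝ}
    (hh : Meas ![L, L, l] h) :
    Ex (Psi lam f) (fun ω => dg 2 l ω * h ω) = Ex (Psi lam f) (fun ω => Tt lam f l ω * h ω) := by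
  have m1 : Meas ![L, L, l + 1] (fun ω => dg 2 l ω * h ω) :=
    (meas_dg (v := ![L, L, l + 1]) (c := 2) (Nat.lt_succ_self l)).mul
      (hh.mono (mono3 le_rfl le_rfl (Nat.le_succ l)))
  have m2 : Meas ![L, L, l] (fun ω => Tt lam f l ω * h ω) := (meas_Tt lam f l).mul hh
  rw [Ex_Psi_meas lam f (Nat.succ_le_of_lt hl) m1, Ex_Psi_meas lam f hl.le m2]
  have e : Ex (Pw L) (fun ω => rho lam f (l + 1) ω * (dg 2 l ω * h ω)) =
      Ex (Pw L) (fun ω => dg 2 l ω * (rho lam f l ω * h ω))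
      + Ex (Pw L) (fun ω => rho lam f l ω * (Tt lam f l ω * h ω)) := by
    rw [← Ex_add]
    refine Ex_congr _ (fun ω => ?_)
    rw [rho_succ]
    have := dg_mul_self 2 l ω
    linear_combination (rho lam f l ω * Tt lam f l ω * h ω) * this
  rw [Nat.succ_eq_add_one, e, Ex_dg_mul_eq_zero (v := ![L, L, l]) (c := 2) hl le_rfl
    ((meas_rho lam f l).mul hh), zero_add]

/-- telescoping of the `y`-martingale -/
lemma sum_dg_Gd (f : Om L → ℝ) (s t k : ℕ) (hk : k ≤ L) (ω : Om L) :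
    ∑ l ∈ range k, dg 2 l ω * Gd f s t l ω =
      CE (Pw L) ![s, t, k] f ω - CE (Pw L) ![s, t, 0] f ω := by
  induction k with
  | zero => simp
  | succ k ih =>
    rw [Finset.sum_range_succ, ih (by omega), haar_step_y (by omega)]; ring

lemma full3 : ∀ c : Fin 3, L ≤ (![L, L, L] : Fin 3 → ℕ) c := by
  intro c; fin_cases c <;> exact le_rfl

lemma sum_dg_Gd_full (f : Om L → ℝ) (ω : Om L) :
    ∑ l ∈ range L, dg 2 l ω * Gd f L L l ω = f ω - CE (Pw L) ![L, L, 0] f ω := by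
  rw [sum_dg_Gd f L L L le_rfl, CE_of_meas Pw_pos (meas_full full3 f)]

lemma abs_sum_dg_Gd_le {f : Om L → ℝ} {M : ℝ} (hf : ∀ ω, |f ω| ≤ M) (ω : Om L) :
    |∑ l ∈ range L, dg 2 l ω * Gd f L L l ω| ≤ 2 * M := by
  rw [sum_dg_Gd_full]
  have h1 := hf ω
  have h2 := abs_CE_le Pw_pos ![L, L, 0] hf ω
  calc _ ≤ |f ω| + |CE (Pw L) ![L, L, 0] f ω| := abs_sub _ _
    _ ≤ 2 * M := by linarith

theorem Psi_le {f : Om L → ℝ} {M lam : ℝ} (hf : ∀ ω, |f ω| ≤ M) (hlam : 0 ≤ lam) (ω : Om L) :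
    Psi lam f ω ≤ Real.exp (2 * lam * M) * Pw L ω := by
  unfold Psi
  rw [mul_comm]
  refine mul_le_mul_of_nonneg_right ?_ (Pw_pos ω).le
  calc rho lam f L ω ≤ ∏ l ∈ range L, Real.exp (dg 2 l ω * (lam * Gd f L L l ω)) :=
        Finset.prod_le_prod (fun l _ => (one_add_tanh_pos (dg_eq_or 2 l ω)).le)
          (fun l _ => one_add_tanh_le (dg_eq_or 2 l ω))
    _ = Real.exp (lam * ∑ l ∈ range L, dg 2 l ω * Gd f L L l ω) := by
        rw [← Real.exp_sum, Finset.mul_sum]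
        congr 1
        exact Finset.sum_congr rfl (fun l _ => by ring)
    _ ≤ Real.exp (2 * lam * M) := by
        apply Real.exp_le_exp.2
        have := (abs_le.1 (abs_sum_dg_Gd_le hf ω)).2
        nlinarith

theorem tilt1 {f : Om L → ℝ} {M lam : ℝ} (hf : ∀ ω, |f ω| ≤ M) :
    Ex (Psi lam f) (fun ω => ∑ l ∈ range L, Tt lam f l ω * Gd f L L l ω) ≤ 2 * M := by
  rw [Ex_sum]
  have h1 : ∀ l ∈ range L, Ex (Psi lam f) (fun ω => Tt lam f l ω * Gd f L L l ω) =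
      Ex (Psi lam f) (fun ω => dg 2 l ω * Gd f L L l ω) := fun l hl =>
    (tilt_orth lam f (mem_range.1 hl) (meas_Gd f L L l)).symm
  rw [Finset.sum_congr rfl h1, ← Ex_sum]
  exact Ex_le_of_le (Psi_isPr lam f) (fun ω => (abs_le.1 (abs_sum_dg_Gd_le hf ω)).2)

end Disc3
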