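import Pool.Agent.Work.MP_d500f7_co.Phi
import Pool.Agent.Work.MP_d500f7_co.Lower

/-! # J5, second part: moments of the martingale part -/

namespace Disc3

open Finset

variable {L : ℕ}

lemma abs_xi_le {w : Om L → ℝ} (hw : IsPr w) (t : ℕ) (ω : Om L) : |xi w t ω| ≤ 2 := by
  have h1 := abs_dg 1 t ω
  have h2 := abs_bz_le hw t ω
  calc |xi w t ω| = |dg 1 t ω - bz w t ω| := rfl
    _ ≤ |dg 1 t ω| + |bz w t ω| := abs_sub _ _
    _ ≤ 2 := by rw [h1]; linarith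

/-- martingale moments -/
lemma mart {w : Om L → ℝ} (hw : IsPr w) (c : ℕ → Om L → ℝ)
    (hc : ∀ t, Meas ![L, t, L] (c t)) (hb : ∀ t ω, |c t ω| ≤ 1) (T : ℕ) :
    Ex w (fun ω => (∑ t ∈ range T, xi w t ω * c t ω) ^ 2) ≤ 4 * T ∧
    Ex w (fun ω => (∑ t ∈ range T, xi w t ω * c t ω) ^ 4) ≤ 64 * (T : ℝ) ^ 2 := by
  have hd : ∀ t ω, (xi w t ω * c t ω) ^ 2 ≤ 4 := by
    intro t ω
    have h1 := abs_xi_le hw t ω
    have h2 := hb t ω
    have h3 : |xi w t ω * c t ω| ≤ 2 := by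
      rw [abs_mul]
      calc |xi w t ω| * |c t ω| ≤ 2 * 1 :=
            mul_le_mul h1 h2 (abs_nonneg _) (by norm_num)
        _ = 2 := by norm_num
    have h4 := abs_le.1 h3
    nlinarith
  induction T with
  | zero =>
    constructor
    · simp [Ex]
    · simp [Ex]
  | succ T ih =>
    obtain ⟨ih2, ih4⟩ := ih
    set S : Om L → ℝ := fun ω => ∑ t ∈ range T, xi w t ω * c t ω with hS
    have hSm : Meas ![L, T, L] S := by
      refine Meas.sum _ fun j hj => ?_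
      have hj' : j < T := Finset.mem_range.1 hj
      exact ((meas_xi w j).mono (mono3 le_rfl hj' le_rfl)).mul
        ((hc j).mono (mono3 le_rfl hj'.le le_rfl))
    have o1 := xi_orth hw ((hc T).mul hSm)
    have o3 := xi_orth hw ((hc T).mul (hSm.pow 3))
    have hsum : ∀ ω, ∑ t ∈ range (T + 1), xi w t ω * c t ω = S ω + xi w T ω * c T ω := by
      intro ω
      rw [Finset.sum_range_succ]
    have e2 : Ex w (fun ω => (∑ t ∈ range (T + 1), xi w t ω * c t ω) ^ 2) ≤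
        Ex w (fun ω => S ω ^ 2) + 4 := by
      have h1 : Ex w (fun ω => (∑ t ∈ range (T + 1), xi w t ω * c t ω) ^ 2) ≤
          Ex w (fun ω => (S ω ^ 2 + 2 * (xi w T ω * (c T ω * S ω))) + 4) := by
        refine Ex_mono hw.nonneg fun ω => ?_
        rw [hsum]
        nlinarith [hd T ω]
      rw [Ex_add, Ex_const hw.one, Ex_add, Ex_const_mul] at h1
      rw [o1] at h1
      linarith
    have e4 : Ex w (fun ω => (∑ t ∈ range (T + 1), xi w t ω * c t ω) ^ 4) ≤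
        Ex w (fun ω => S ω ^ 4) + 32 * Ex w (fun ω => S ω ^ 2) + 48 := by
      have h1 : Ex w (fun ω => (∑ t ∈ range (T + 1), xi w t ω * c t ω) ^ 4) ≤
          Ex w (fun ω => ((S ω ^ 4 + 4 * (xi w T ω * (c T ω * S ω ^ 3))) + 32 * S ω ^ 2) + 48) := by
        refine Ex_mono hw.nonneg fun ω => ?_
        rw [hsum]
        set d : ℝ := xi w T ω * c T ω with hdd
        have hd2 : d ^ 2 ≤ 4 := hd T ω
        have hd0 : 0 ≤ d ^ 2 := sq_nonneg d
        have k1 : xi w T ω * (c T ω * S ω ^ 3) = d * S ω ^ 3 := by rw [hdd]; ring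
        rw [k1]
        have k2 : 4 * (S ω * d ^ 3) ≤ 2 * (S ω ^ 2 * d ^ 2) + 2 * d ^ 4 := by
          nlinarith [sq_nonneg (S ω * d - d ^ 2)]
        have k3 : S ω ^ 2 * d ^ 2 ≤ S ω ^ 2 * 4 := mul_le_mul_of_nonneg_left hd2 (sq_nonneg _)
        have k4 : d ^ 4 ≤ 16 := by nlinarith
        nlinarith
      rw [Ex_add, Ex_const hw.one, Ex_add, Ex_add, Ex_const_mul, Ex_const_mul] at h1
      rw [o3] at h1
      linarith
    constructor
    · push_cast
      linarith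
    · push_cast
      nlinarith [Nat.cast_nonneg (α := ℝ) T]

lemma V0_eq {w : Om L → ℝ} {n : ℕ} {a : ℕ → ℕ → Om L → ℝ} {l : ℕ} (hl : l ≤ n) (ω : Om L) :
    V0 w a n l ω = ∑ t ∈ range (n - l + 1),
      xi w t ω * (a (n - l - t) t ω * dg 0 (n - l - t) ω) := by
  have h1 : n + 1 - l = n - l + 1 := by omega
  unfold V0
  rw [h1, ← Finset.sum_range_reflect (fun t => xi w t ω * (a (n - l - t) t ω * dg 0 (n - l - t) ω))]
  refine Finset.sum_congr rfl fun s hs => ?_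
  have hs' : s ≤ n - l := Nat.lt_succ_iff.1 (Finset.mem_range.1 hs)
  have h2 : n - l + 1 - 1 - s = n - l - s := by omega
  have h3 : n - l - (n - l - s) = s := by omega
  rw [h2, h3]
  ring

lemma V0_zero {w : Om L → ℝ} {n : ℕ} {a : ℕ → ℕ → Om L → ℝ} {l : ℕ} (hl : ¬ l ≤ n) (ω : Om L) :
    V0 w a n l ω = 0 := by
  have h1 : n + 1 - l = 0 := by omega
  unfold V0
  rw [h1, Finset.sum_range_zero]

lemma V0_mart {w : Om L → ℝ} (hw : IsPr w) {n : ℕ} (hn : n < L) {a : ℕ → ℕ → Om L → ℝ}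
    (ha : ∀ s t ω, |a s t ω| ≤ 1) (hm : ∀ s t, Meas ![s, t, L] (a s t)) {l : ℕ} (hl : l ≤ n) :
    Ex w (fun ω => V0 w a n l ω ^ 2) ≤ 4 * ((n - l + 1 : ℕ) : ℝ) ∧
    Ex w (fun ω => V0 w a n l ω ^ 4) ≤ 64 * ((n - l + 1 : ℕ) : ℝ) ^ 2 := by
  have h := mart hw (fun t ω => a (n - l - t) t ω * dg 0 (n - l - t) ω)
    (fun t => by
      have h1 : n - l - t < L := by omega
      exact ((hm (n - l - t) t).mono (mono3 h1.le le_rfl le_rfl)).mul (meas_dg0 h1))
    (fun t ω => by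
      rw [abs_mul, abs_dg, mul_one]
      exact ha _ _ _) (n - l + 1)
  have e : ∀ ω, V0 w a n l ω = ∑ t ∈ range (n - l + 1),
      xi w t ω * (a (n - l - t) t ω * dg 0 (n - l - t) ω) := fun ω => V0_eq hl ω
  simp only [e]
  exact h

theorem V0_sq {w : Om L → ℝ} (hw : IsPr w) {n : ℕ} (hn : n < L) {a : ℕ → ℕ → Om L → ℝ}
    (ha : ∀ s t ω, |a s t ω| ≤ 1) (hm : ∀ s t, Meas ![s, t, L] (a s t)) (l : ℕ) :
    Ex w (fun ω => V0 w a n l ω ^ 2) ≤ 4 * (n + 1) := by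
  by_cases hl : l ≤ n
  · refine (V0_mart hw hn ha hm hl).1.trans ?_
    have h1 : ((n - l + 1 : ℕ) : ℝ) ≤ n + 1 := by
      have : n - l + 1 ≤ n + 1 := by omega
      exact_mod_cast this
    linarith
  · have h1 : ∀ ω, V0 w a n l ω = 0 := fun ω => V0_zero hl ω
    simp only [h1]
    have h2 : Ex w (fun _ => (0 : ℝ) ^ 2) = 0 := by simp [Ex]
    rw [h2]
    positivity

theorem V0_four {w : Om L → ℝ} (hw : IsPr w) {n : ℕ} (hn : n < L) {a : ℕ → ℕ → Om L → ℝ}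
    (ha : ∀ s t ω, |a s t ω| ≤ 1) (hm : ∀ s t, Meas ![s, t, L] (a s t)) (l : ℕ) :
    Ex w (fun ω => V0 w a n l ω ^ 4) ≤ 112 * (n + 1) ^ 2 := by
  by_cases hl : l ≤ n
  · refine (V0_mart hw hn ha hm hl).2.trans ?_
    have h1 : ((n - l + 1 : ℕ) : ℝ) ≤ n + 1 := by
      have : n - l + 1 ≤ n + 1 := by omega
      exact_mod_cast this
    have h2 : (0 : ℝ) ≤ ((n - l + 1 : ℕ) : ℝ) := Nat.cast_nonneg _
    nlinarith
  · have h1 : ∀ ω, V0 w a n l ω = 0 := fun ω => V0_zero hl ω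
    simp only [h1]
    have h2 : Ex w (fun _ => (0 : ℝ) ^ 4) = 0 := by simp [Ex]
    rw [h2]
    positivity

end Disc3
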